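import Pool.Agent.K1H30.SP.Avg

/-! From the averaged estimate to almost every direction. -/

open Set MeasureTheory

set_option autoImplicit false

namespace Pool.Agent.K1H30.SP

variable {N : ℕ}

/-- the correlation function of one factor, as a function of the height `u = t v₂` -/
noncomputable def cu (z : Fin N → ℝ) (α u : ℝ) : ℝ := ∫ y, Cn z α (⌊y + u⌋.natAbs) ∂U

theorem sq_integral_le {f : ℝ → ℝ} (hf : Measurable f) (h1 : ∀ x, |f x| ≤ 1) :
    (∫ y, f y ∂U) ^ 2 ≤ ∫ y, f y ^ 2 ∂U := by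
  have hi : Integrable f U := (integrable_const (1 : ℝ)).mono hf.aestronglyMeasurable
    (Filter.Eventually.of_forall fun x => by rw [Real.norm_eq_abs, norm_one]; exact h1 x)
  have hi2 : Integrable (fun x => f x ^ 2) U := (integrable_const (1 : ℝ)).mono
    (hf.pow_const 2).aestronglyMeasurable
    (Filter.Eventually.of_forall fun x => by
      rw [Real.norm_eq_abs, norm_one, abs_of_nonneg (by positivity), ← sq_abs]
      exact pow_le_one₀ (abs_nonneg _) (h1 x))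
  obtain ⟨m, hm⟩ : ∃ m, m = ∫ y, f y ∂U := ⟨_, rfl⟩
  have h2 : ∫ y, (f y - m) ^ 2 ∂U = ∫ y, f y ^ 2 ∂U - m ^ 2 := by
    have : ∀ y, (f y - m) ^ 2 = f y ^ 2 - (2 * m * f y - m ^ 2) := fun y => by ring
    simp only [this]
    have hi3 : Integrable (fun y => 2 * m * f y - m ^ 2) U :=
      (hi.const_mul (2 * m)).sub (integrable_const _)
    rw [integral_sub hi2 hi3,
      integral_sub (hi.const_mul (2 * m)) (integrable_const _), integral_const_mul, ← hm]
    simp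
    ring
  have h3 : 0 ≤ ∫ y, (f y - m) ^ 2 ∂U := integral_nonneg fun y => by positivity
  rw [← hm]
  linarith

theorem cu_sq (z : Fin N → ℝ) (α u : ℝ) : ENNReal.ofReal (cu z α u ^ 2) ≤
    ∫⁻ y, ENNReal.ofReal (Cn z α (⌊y + u⌋.natAbs) ^ 2) ∂U := by
  have hm : Measurable (fun y : ℝ => Cn z α (⌊y + u⌋.natAbs)) :=
    (measurable_from_top (f := fun k : ℤ => Cn z α k.natAbs)).comp
      (Measurable.floor (by fun_prop : Measurable fun y : ℝ => y + u))
  rw [← ofReal_integral_eq_lintegral_ofReal]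
  · exact ENNReal.ofReal_le_ofReal (sq_integral_le hm fun x => Cn_le _ _ _)
  · refine (integrable_const (1 : ℝ)).mono
      (hm.pow_const 2).aestronglyMeasurable
      (Filter.Eventually.of_forall fun x => ?_)
    rw [Real.norm_eq_abs, norm_one, abs_of_nonneg (by positivity), ← sq_abs]
    exact pow_le_one₀ (abs_nonneg _) (Cn_le _ _ _)
  · exact Filter.Eventually.of_forall fun x => by positivity

noncomputable def gg (ω : (Fin N → ℝ) × ℝ) (n : ℕ) : ENNReal := ENNReal.ofReal (Cn ω.1 ω.2 n ^ 2)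

theorem gg_meas : Measurable (fun q : ((Fin N → ℝ) × ℝ) × ℕ => gg q.1 q.2) := by
  refine measurable_from_prod_countable_left fun n => ?_
  unfold gg
  exact ((Cn_meas n).pow_const 2).ennreal_ofReal

theorem gg_eq (ω : (Fin N → ℝ) × ℝ) (n : ℕ) : gg ω n = ENNReal.ofReal (Cn ω.1 ω.2 n ^ 2) := rfl

theorem cu_gg (ω : (Fin N → ℝ) × ℝ) (u : ℝ) : ENNReal.ofReal (cu ω.1 ω.2 u ^ 2) ≤
    ∫⁻ y, gg ω (⌊y + u⌋.natAbs) ∂U := cu_sq _ _ _

attribute [local irreducible] gg cu Cn G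

theorem gg_meas_n (n : ℕ) : Measurable (fun ω : (Fin N → ℝ) × ℝ => gg ω n) :=
  gg_meas.comp (by fun_prop : Measurable fun ω : (Fin N → ℝ) × ℝ => (ω, n))

theorem ennreal_mul_le (a b : ENNReal) : a * b ≤ a ^ 2 + b ^ 2 := by
  rcases le_total a b with h | h
  · calc a * b ≤ b * b := mul_le_mul_left h b
      _ = b ^ 2 := (sq b).symm
      _ ≤ a ^ 2 + b ^ 2 := le_add_self
  · calc a * b ≤ a * a := mul_le_mul_right h a
      _ = a ^ 2 := (sq a).symm
      _ ≤ a ^ 2 + b ^ 2 := le_self_add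

theorem floor_map : Measure.map (fun u : ℝ => ⌊u⌋) volume = Measure.count := by
  refine Measure.ext_of_singleton fun k => ?_
  rw [Measure.map_apply Int.measurable_floor (measurableSet_singleton k), Measure.count_singleton,
    Int.preimage_floor_singleton, Real.volume_Ico]
  simp

theorem sum_int (E : ℕ → ENNReal) : ∑' k : ℤ, E k.natAbs ≤ 2 * ∑' n, E n := by
  rw [tsum_of_nat_of_neg_add_one (f := fun k : ℤ => E k.natAbs) ENNReal.summable ENNReal.summable,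
    two_mul]
  refine add_le_add (le_of_eq ?_) ?_
  · simp
  · have : ∀ n : ℕ, (-((n : ℤ) + 1)).natAbs = n + 1 := fun n => by omega
    simp only [this]
    exact ENNReal.tsum_comp_le_tsum_of_injective (fun a b h => by simpa using h) E

theorem line_int (E : ℕ → ENNReal) (lam : ℝ) (hl : lam ≠ 0) :
    ∫⁻ t : ℝ, ∫⁻ y, E (⌊y + t * lam⌋.natAbs) ∂U ≤
      ENNReal.ofReal |lam⁻¹| * (2 * ∑' n, E n) := by
  have hφ : Measurable (fun u : ℝ => E (⌊u⌋.natAbs)) :=
    (measurable_from_top (f := fun k : ℤ => E k.natAbs)).comp Int.measurable_floor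
  rw [lintegral_lintegral_swap]
  · have h1 : ∀ y : ℝ, ∫⁻ t : ℝ, E (⌊y + t * lam⌋.natAbs) = ENNReal.ofReal |lam⁻¹| * ∑' k : ℤ, E k.natAbs := by
      intro y
      have e1 : ∫⁻ t : ℝ, E (⌊y + t * lam⌋.natAbs) = ∫⁻ s : ℝ, E (⌊y + s⌋.natAbs) ∂(Measure.map (· * lam) volume) := by
        have hs : Measurable (fun s : ℝ => E (⌊y + s⌋.natAbs)) := hφ.comp (measurable_const_add y)
        have hl2 : Measurable (fun t : ℝ => t * lam) := by fun_prop
        rw [lintegral_map hs hl2]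
      rw [e1, Real.map_volume_mul_right hl, lintegral_smul_measure,
        lintegral_add_left_eq_self (fun s : ℝ => E (⌊s⌋.natAbs)), smul_eq_mul]
      congr 1
      rw [← lintegral_count, ← floor_map, lintegral_map (measurable_of_countable _) Int.measurable_floor]
    simp only [h1, lintegral_const, measure_univ, mul_one]
    gcongr
    exact sum_int E
  · exact (hφ.comp (by fun_prop : Measurable fun q : ℝ × ℝ => q.2 + q.1 * lam)).aemeasurable

noncomputable def AA (lam : ℝ) (ω : (Fin N → ℝ) × ℝ) (t : ℝ) : ENNReal :=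
  ∫⁻ y, gg ω (⌊y + t * lam⌋.natAbs) ∂U

theorem natAbs_meas {Ω : Type*} [MeasurableSpace Ω] {f : Ω → ℝ} (hf : Measurable f) :
    Measurable (fun x => (⌊f x⌋).natAbs) :=
  (measurable_from_top (f := fun k : ℤ => k.natAbs)).comp hf.floor

theorem AA_meas (lam : ℝ) : Measurable (fun q : ((Fin N → ℝ) × ℝ) × ℝ => AA lam q.1 q.2) := by
  unfold AA
  have h1 : Measurable (fun r : (((Fin N → ℝ) × ℝ) × ℝ) × ℝ =>
      gg r.1.1 (⌊r.2 + r.1.2 * lam⌋.natAbs)) :=
    gg_meas.comp (Measurable.prodMk (by fun_prop)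
      (natAbs_meas (f := fun r : (((Fin N → ℝ) × ℝ) × ℝ) × ℝ => r.2 + r.1.2 * lam) (by fun_prop)))
  exact h1.lintegral_prod_right'

theorem AA_int (m : Measure ((Fin N → ℝ) × ℝ)) [SFinite m] (lam t : ℝ) :
    ∫⁻ ω, AA lam ω t ∂m = ∫⁻ y, (∫⁻ ω, gg ω (⌊y + t * lam⌋.natAbs) ∂m) ∂U := by
  unfold AA
  rw [lintegral_lintegral_swap]
  have h1 : Measurable (fun r : ((Fin N → ℝ) × ℝ) × ℝ =>
      gg r.1 (⌊r.2 + t * lam⌋.natAbs)) :=
    gg_meas.comp (Measurable.prodMk (by fun_prop)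
      (natAbs_meas (f := fun r : ((Fin N → ℝ) × ℝ) × ℝ => r.2 + t * lam) (by fun_prop)))
  exact h1.aemeasurable

theorem prod_int_le {f g : ℝ → ENNReal} (hf : Measurable f) (hg : Measurable g) :
    (∫⁻ y, f y ∂U) * (∫⁻ y, g y ∂U) ≤ (∫⁻ y, f y ^ 2 ∂U) + ∫⁻ y, g y ^ 2 ∂U := by
  rw [← lintegral_mul_const _ hf]
  have h1 : ∀ y, f y * ∫⁻ x, g x ∂U ≤ f y ^ 2 + ∫⁻ x, g x ^ 2 ∂U := by
    intro y
    rw [← lintegral_const_mul _ hg]
    refine (lintegral_mono fun x => ennreal_mul_le (f y) (g x)).trans ?_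
    rw [lintegral_add_left measurable_const, lintegral_const, measure_univ, mul_one]
  refine (lintegral_mono h1).trans ?_
  rw [lintegral_add_right _ measurable_const, lintegral_const, measure_univ, mul_one]

theorem double_int (m : Measure ((Fin N → ℝ) × ℝ)) [SFinite m] (lam lam' : ℝ) (hl : lam ≠ 0)
    (hl' : lam' ≠ 0) (hE : ∑' n, (∫⁻ ω, gg ω n ∂m) ^ 2 ≠ ⊤) :
    ∫⁻ q, (∫⁻ t : ℝ, ENNReal.ofReal (cu q.1.1 q.1.2 (t * lam) ^ 2) *
        ENNReal.ofReal (cu q.2.1 q.2.2 (t * lam') ^ 2)) ∂(m.prod m) ≠ ⊤ := by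
  obtain ⟨E, hEd⟩ : ∃ E : ℕ → ENNReal, E = fun n => ∫⁻ ω, gg ω n ∂m := ⟨_, rfl⟩
  have hE' : ∑' n, E n ^ 2 ≠ ⊤ := by rw [hEd]; exact hE
  have h1 : ∫⁻ q, (∫⁻ t : ℝ, ENNReal.ofReal (cu q.1.1 q.1.2 (t * lam) ^ 2) *
        ENNReal.ofReal (cu q.2.1 q.2.2 (t * lam') ^ 2)) ∂(m.prod m) ≤
      ∫⁻ q, (∫⁻ t : ℝ, AA lam q.1 t * AA lam' q.2 t) ∂(m.prod m) :=
    lintegral_mono fun q => lintegral_mono fun t => mul_le_mul' (cu_gg _ _) (cu_gg _ _)
  have h2 : ∫⁻ q, (∫⁻ t : ℝ, AA lam q.1 t * AA lam' q.2 t) ∂(m.prod m) =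
      ∫⁻ t : ℝ, ∫⁻ q, AA lam q.1 t * AA lam' q.2 t ∂(m.prod m) := by
    refine lintegral_lintegral_swap ?_
    refine Measurable.aemeasurable ?_
    exact ((AA_meas lam).comp (by fun_prop : Measurable fun r : (((Fin N → ℝ) × ℝ) ×
        ((Fin N → ℝ) × ℝ)) × ℝ => (r.1.1, r.2))).mul
      ((AA_meas lam').comp (by fun_prop : Measurable fun r : (((Fin N → ℝ) × ℝ) ×
        ((Fin N → ℝ) × ℝ)) × ℝ => (r.1.2, r.2)))
  have h3 : ∀ t : ℝ, ∫⁻ q, AA lam q.1 t * AA lam' q.2 t ∂(m.prod m) ≤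
      (∫⁻ y, E (⌊y + t * lam⌋.natAbs) ^ 2 ∂U) + ∫⁻ y, E (⌊y + t * lam'⌋.natAbs) ^ 2 ∂U := by
    intro t
    have e1 : ∀ l : ℝ, Measurable (fun y : ℝ => E (⌊y + t * l⌋.natAbs)) := fun l =>
      (measurable_of_countable E).comp (natAbs_meas (by fun_prop))
    rw [lintegral_prod_mul (f := fun ω => AA lam ω t) (g := fun ω => AA lam' ω t)
      ((AA_meas lam).comp (by fun_prop : Measurable fun ω : (Fin N → ℝ) × ℝ => (ω, t))).aemeasurable
      ((AA_meas lam').comp (by fun_prop : Measurable fun ω : (Fin N → ℝ) × ℝ => (ω, t))).aemeasurable,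
      AA_int, AA_int]
    have e2 := prod_int_le (e1 lam) (e1 lam')
    rw [hEd] at e2 ⊢
    exact e2
  have h4 : ∀ l : ℝ, Measurable (fun t : ℝ => ∫⁻ y, E (⌊y + t * l⌋.natAbs) ^ 2 ∂U) := by
    intro l
    have e1 : Measurable (fun r : ℝ × ℝ => E (⌊r.2 + r.1 * l⌋.natAbs) ^ 2) :=
      ((measurable_of_countable E).comp
        (natAbs_meas (f := fun r : ℝ × ℝ => r.2 + r.1 * l) (by fun_prop))).pow_const 2
    exact e1.lintegral_prod_right'
  refine ne_top_of_le_ne_top ?_ (h1.trans (h2.le.trans (lintegral_mono h3)))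
  rw [lintegral_add_left (h4 lam)]
  refine ENNReal.add_ne_top.mpr ⟨?_, ?_⟩
  · refine ne_top_of_le_ne_top ?_ (line_int (fun n => E n ^ 2) lam hl)
    exact ENNReal.mul_ne_top ENNReal.ofReal_ne_top (ENNReal.mul_ne_top (by simp) hE')
  · refine ne_top_of_le_ne_top ?_ (line_int (fun n => E n ^ 2) lam' hl')
    exact ENNReal.mul_ne_top ENNReal.ofReal_ne_top (ENNReal.mul_ne_top (by simp) hE')

end Pool.Agent.K1H30.SP
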