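import Pool.Agent.K1H30.SP.Est

/-! The average over the branch points of the squared correlation. -/

open Set MeasureTheory

set_option autoImplicit false

namespace Pool.Agent.K1H30.SP

theorem fract_sub_case {a b : ℝ} (ha : a ∈ Ico (0 : ℝ) 1) (hb : b ∈ Ico (0 : ℝ) 1) :
    Int.fract (a - b) = if b ≤ a then a - b else a - b + 1 := by
  split_ifs with h
  · exact Int.fract_eq_self.mpr ⟨by linarith, by linarith [ha.2, hb.1]⟩
  · rw [← Int.fract_add_one]
    exact Int.fract_eq_self.mpr ⟨by linarith [ha.1, hb.2], by linarith⟩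

theorem fract_sub_fract (a b : ℝ) : Int.fract (a - b) = Int.fract (Int.fract a - Int.fract b) := by
  rw [← Int.self_sub_floor a, ← Int.self_sub_floor b]
  rw [show a - ⌊a⌋ - (b - ⌊b⌋) = a - b + ((⌊b⌋ - ⌊a⌋ : ℤ) : ℝ) by push_cast; ring,
    Int.fract_add_intCast]

/-- the sign of a pair -/
noncomputable def kap (X Y : ℝ) : ℝ := if Int.fract X ≤ Int.fract Y then 1 else -1

theorem kap_abs (X Y : ℝ) : |kap X Y| = 1 := by
  unfold kap
  split_ifs <;> simp

theorem b_pair {ζ X Y : ℝ} (h0 : 0 < ζ) (h1 : ζ < 1) (hX : ζ ≠ Int.fract X) (hY : ζ ≠ Int.fract Y) :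
    (-1 : ℝ) ^ b ζ X * (-1 : ℝ) ^ b ζ Y = kap X Y * (-1 : ℝ) ^ b (Int.fract (Y - X)) (ζ - X) := by
  have hX0 : Int.fract X ∈ Ico (0 : ℝ) 1 := ⟨Int.fract_nonneg X, Int.fract_lt_one X⟩
  have hY0 : Int.fract Y ∈ Ico (0 : ℝ) 1 := ⟨Int.fract_nonneg Y, Int.fract_lt_one Y⟩
  have hζ0 : ζ ∈ Ico (0 : ℝ) 1 := ⟨h0.le, h1⟩
  have e1 : Int.fract (Y - X) = if Int.fract X ≤ Int.fract Y then Int.fract Y - Int.fract X else
      Int.fract Y - Int.fract X + 1 := by
    rw [fract_sub_fract, fract_sub_case hY0 hX0]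
  have e2 : Int.fract (ζ - X) = if Int.fract X ≤ ζ then ζ - Int.fract X else
      ζ - Int.fract X + 1 := by
    rw [fract_sub_fract, Int.fract_eq_self.mpr ⟨hζ0.1, hζ0.2⟩, fract_sub_case hζ0 hX0]
  unfold b kap
  rw [e1, e2]
  generalize Int.fract X = x at *
  generalize Int.fract Y = y at *
  clear e1 e2
  rcases lt_or_gt_of_ne hX with h2 | h2 <;> rcases lt_or_gt_of_ne hY with h3 | h3
  · have h4 : ¬ x < ζ := by linarith
    have h5 : ¬ y < ζ := by linarith
    have h6 : ¬ x ≤ ζ := by linarith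
    by_cases h7 : x ≤ y
    · have h8 : ¬ ζ - x + 1 < y - x := by linarith [hY0.2]
      simp [h4, h5, h6, h7, h8]
    · simp [h4, h5, h6, h7, h3]
  · have h4 : ¬ x < ζ := by linarith
    have h6 : ¬ x ≤ ζ := by linarith
    have h7 : ¬ x ≤ y := by linarith
    have h8 : ¬ ζ - x + 1 < y - x + 1 := by linarith
    simp [h4, h3, h6, h7, h8]
  · have h5 : ¬ y < ζ := by linarith
    have h6 : x ≤ ζ := by linarith
    have h7 : x ≤ y := by linarith
    have h8 : ζ - x < y - x := by linarith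
    simp [h2, h5, h6, h7, h8]
  · have h6 : x ≤ ζ := by linarith
    by_cases h7 : x ≤ y
    · have h8 : ¬ ζ - x < y - x := by linarith
      simp [h2, h3, h6, h7, h8]
    · have h8 : ζ - x < y - x + 1 := by linarith [hY0.1]
      simp [h2, h3, h6, h7, h8]

theorem G_prod (w α : ℝ) (n : ℕ) (x : ℝ) :
    G w α n x = ∏ j ∈ Finset.range n, (-1 : ℝ) ^ b w (x + j * α) := by
  unfold G D
  induction n with
  | zero => simp
  | succ n ih => rw [Finset.sum_range_succ, Finset.prod_range_succ, ← ih, zpow_add₀ (by norm_num)]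

theorem G_reflect (w α : ℝ) (n : ℕ) (x : ℝ) :
    ∏ j ∈ Finset.range n, (-1 : ℝ) ^ b w (x - j * α) = G w α n (x - ((n : ℝ) - 1) * α) := by
  rw [G_prod, ← Finset.prod_range_reflect]
  refine Finset.prod_congr rfl fun j hj => ?_
  have hj' := Finset.mem_range.mp hj
  congr 2
  have : ((n - 1 - j : ℕ) : ℝ) = (n : ℝ) - 1 - j := by
    rw [Nat.cast_sub (by omega), Nat.cast_sub (by omega)]
    norm_num
  rw [this]
  ring

theorem H_abs (α : ℝ) (n : ℕ) (x y : ℝ) :
    |∫ ζ, G ζ α n x * G ζ α n y ∂U| = |P (Int.fract (y - x)) α n| := by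
  obtain ⟨κ, hκ⟩ : ∃ κ, κ = ∏ j ∈ Finset.range n, kap (x + j * α) (y + j * α) := ⟨_, rfl⟩
  have hκ1 : |κ| = 1 := by
    rw [hκ, Finset.abs_prod]
    exact Finset.prod_eq_one fun j _ => kap_abs _ _
  obtain ⟨F, hF⟩ : ∃ F : Set ℝ, F = {0} ∪ (⋃ j ∈ Finset.range n,
    ({Int.fract (x + j * α), Int.fract (y + j * α)} : Set ℝ)) := ⟨_, rfl⟩
  have hFf : F.Finite := by
    rw [hF]
    refine (finite_singleton _).union (Finset.finite_toSet _ |>.biUnion fun j _ => ?_)
    simp
  have h1 : ∫ ζ, G ζ α n x * G ζ α n y ∂U =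
      ∫ ζ, κ * G (Int.fract (y - x)) α n (ζ + (-x - ((n : ℝ) - 1) * α)) ∂U := by
    refine integral_congr_ae ?_
    have hF0 : ∀ᵐ ζ ∂U, ζ ∉ F := by
      have : ∀ᵐ ζ ∂(volume : Measure ℝ), ζ ∉ F := measure_eq_zero_iff_ae_notMem.mp (hFf.measure_zero _)
      exact ae_restrict_of_ae this
    filter_upwards [U_ae, hF0] with ζ hζ hζF
    rw [G_prod, G_prod, ← Finset.prod_mul_distrib, hκ]
    rw [show ζ + (-x - ((n : ℝ) - 1) * α) = ζ - x - ((n : ℝ) - 1) * α by ring, ← G_reflect,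
      ← Finset.prod_mul_distrib]
    refine Finset.prod_congr rfl fun j hj => ?_
    have h0 : 0 < ζ := by
      rcases hζ.1.lt_or_eq with h | h
      · exact h
      · exact absurd (by rw [hF]; left; exact h.symm) hζF
    have hj1 : ζ ≠ Int.fract (x + j * α) := fun h => hζF (by
      rw [hF]
      right
      exact mem_biUnion (show j ∈ (Finset.range n : Set ℕ) from by exact_mod_cast hj) (Or.inl h))
    have hj2 : ζ ≠ Int.fract (y + j * α) := fun h => hζF (by
      rw [hF]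
      right
      exact mem_biUnion (show j ∈ (Finset.range n : Set ℕ) from by exact_mod_cast hj) (Or.inr h))
    rw [b_pair h0 hζ.2 hj1 hj2]
    congr 3
    · congr 1
      ring
    · ring
  rw [h1, integral_const_mul, abs_mul, hκ1, one_mul, integral_U, P_shift]

/-- correlation coefficients of the sign cocycle with jumps at the points `z i` -/
noncomputable def Cn {N : ℕ} (z : Fin N → ℝ) (α : ℝ) (n : ℕ) : ℝ := ∫ x, ∏ i, G (z i) α n x ∂U

/-- the law of the branch points -/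
noncomputable def UN (N : ℕ) : Measure (Fin N → ℝ) := Measure.pi (fun _ => U)

instance (N : ℕ) : IsProbabilityMeasure (UN N) := by unfold UN; infer_instance

section

attribute [local irreducible] G

theorem Gz_meas {N : ℕ} (n : ℕ) :
    Measurable (fun q : ((Fin N → ℝ) × ℝ) × ℝ => ∏ i, G (q.1.1 i) q.1.2 n q.2) := by
  refine Finset.measurable_prod _ fun i _ => ?_
  exact (G_meas3 n).comp
    (by fun_prop : Measurable fun q : ((Fin N → ℝ) × ℝ) × ℝ => (q.1.1 i, q.1.2, q.2))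

theorem Cn_meas {N : ℕ} (n : ℕ) : Measurable (fun q : (Fin N → ℝ) × ℝ => Cn q.1 q.2 n) := by
  unfold Cn
  exact (StronglyMeasurable.integral_prod_right' (ν := U)
    (f := fun q : ((Fin N → ℝ) × ℝ) × ℝ => ∏ i, G (q.1.1 i) q.1.2 n q.2)
    (Gz_meas n).stronglyMeasurable).measurable

theorem Gz_abs {N : ℕ} (z : Fin N → ℝ) (α : ℝ) (n : ℕ) (x : ℝ) : |∏ i, G (z i) α n x| = 1 := by
  rw [Finset.abs_prod]
  exact Finset.prod_eq_one fun i _ => G_abs _ _ _ _

theorem Cn_le {N : ℕ} (z : Fin N → ℝ) (α : ℝ) (n : ℕ) : |Cn z α n| ≤ 1 := by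
  unfold Cn
  have := norm_integral_le_of_norm_le_const (μ := U) (f := fun x => ∏ i, G (z i) α n x) (C := 1)
    (Filter.Eventually.of_forall fun x => by rw [Real.norm_eq_abs, Gz_abs])
  simpa using this

theorem avg_real {N : ℕ} (hN : Even N) (α : ℝ) (n : ℕ) :
    ∫ z, (Cn z α n) ^ 2 ∂(UN N) = ∫ w, |P w α n| ^ N ∂U := by
  have h1 : ∀ z : Fin N → ℝ, (Cn z α n) ^ 2 =
      ∫ q : ℝ × ℝ, ∏ i, (G (z i) α n q.1 * G (z i) α n q.2) ∂(U.prod U) := by
    intro z
    simp only [Finset.prod_mul_distrib]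
    rw [integral_prod_mul (fun x => ∏ i, G (z i) α n x) (fun x => ∏ i, G (z i) α n x), sq]
    rfl
  have hm : Measurable (fun r : (Fin N → ℝ) × (ℝ × ℝ) =>
      ∏ i, (G (r.1 i) α n r.2.1 * G (r.1 i) α n r.2.2)) := by
    refine Finset.measurable_prod _ fun i _ => Measurable.mul ?_ ?_
    · exact (G_meas3 n).comp
        (by fun_prop : Measurable fun r : (Fin N → ℝ) × (ℝ × ℝ) => (r.1 i, α, r.2.1))
    · exact (G_meas3 n).comp
        (by fun_prop : Measurable fun r : (Fin N → ℝ) × (ℝ × ℝ) => (r.1 i, α, r.2.2))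
  have hint : Integrable (fun r : (Fin N → ℝ) × (ℝ × ℝ) =>
      ∏ i, (G (r.1 i) α n r.2.1 * G (r.1 i) α n r.2.2)) ((UN N).prod (U.prod U)) := by
    refine (integrable_const (1 : ℝ)).mono hm.aestronglyMeasurable
      (Filter.Eventually.of_forall fun r => ?_)
    rw [Real.norm_eq_abs, Finset.abs_prod, norm_one]
    refine (Finset.prod_eq_one fun i _ => ?_).le
    rw [abs_mul, G_abs, G_abs, one_mul]
  simp only [h1]
  rw [integral_integral_swap hint]
  have h2 : ∀ q : ℝ × ℝ, ∫ z, ∏ i, (G (z i) α n q.1 * G (z i) α n q.2) ∂(UN N) =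
      |P (Int.fract (q.2 - q.1)) α n| ^ N := by
    intro q
    unfold UN
    have := integral_fintype_prod_eq_pow (ι := Fin N) (𝕜 := ℝ) (μ := U)
      (fun ζ => G ζ α n q.1 * G ζ α n q.2)
    rw [this, Fintype.card_fin, ← hN.pow_abs, H_abs]
  simp only [h2]
  have hPm : Measurable (fun w : ℝ => |P w α n| ^ N) :=
    (((P_meas n).comp (by fun_prop : Measurable fun w : ℝ => (w, α))).abs).pow_const N
  have hPi : Integrable (fun q : ℝ × ℝ => |P (Int.fract (q.2 - q.1)) α n| ^ N) (U.prod U) := by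
    refine (integrable_const (1 : ℝ)).mono (hPm.comp (by fun_prop)).aestronglyMeasurable
      (Filter.Eventually.of_forall fun r => ?_)
    rw [Real.norm_eq_abs, norm_one, abs_of_nonneg (by positivity)]
    exact pow_le_one₀ (abs_nonneg _) (P_le _ _ _)
  rw [integral_prod _ hPi]
  have h3 : ∀ x : ℝ, ∫ y, |P (Int.fract (y - x)) α n| ^ N ∂U = ∫ w, |P w α n| ^ N ∂U := by
    intro x
    have hs := U_shift (-x)
    conv_rhs => rw [← hs.map_eq]
    rw [integral_map (by fun_prop) hPm.aestronglyMeasurable]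
    rfl
  simp only [h3]
  simp

theorem avg {N : ℕ} (hN : Even N) (α : ℝ) (n : ℕ) :
    ∫⁻ z, ENNReal.ofReal ((Cn z α n) ^ 2) ∂(UN N) = ∫⁻ w, ENNReal.ofReal (|P w α n| ^ N) ∂U := by
  have hCm : Measurable (fun z : Fin N → ℝ => (Cn z α n) ^ 2) :=
    ((Cn_meas n).comp (by fun_prop : Measurable fun z : Fin N → ℝ => (z, α))).pow_const 2
  have hPm : Measurable (fun w : ℝ => |P w α n| ^ N) :=
    (((P_meas n).comp (by fun_prop : Measurable fun w : ℝ => (w, α))).abs).pow_const N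
  rw [← ofReal_integral_eq_lintegral_ofReal, ← ofReal_integral_eq_lintegral_ofReal, avg_real hN]
  · refine (integrable_const (1 : ℝ)).mono hPm.aestronglyMeasurable
      (Filter.Eventually.of_forall fun r => ?_)
    rw [Real.norm_eq_abs, norm_one, abs_of_nonneg (by positivity)]
    exact pow_le_one₀ (abs_nonneg _) (P_le _ _ _)
  · exact Filter.Eventually.of_forall fun r => by positivity
  · refine (integrable_const (1 : ℝ)).mono hCm.aestronglyMeasurable
      (Filter.Eventually.of_forall fun r => ?_)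
    rw [Real.norm_eq_abs, norm_one, abs_of_nonneg (by positivity), ← sq_abs]
    exact pow_le_one₀ (abs_nonneg _) (Cn_le _ _ _)
  · exact Filter.Eventually.of_forall fun r => by positivity

end

end Pool.Agent.K1H30.SP
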