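import Pool.Agent.K1H30.SP.Core

/-! The contraction: every good scale gives a factor. -/

open Set MeasureTheory

set_option autoImplicit false

namespace Pool.Agent.K1H30.SP

noncomputable def G (w α : ℝ) (n : ℕ) (x : ℝ) : ℝ := (-1 : ℝ) ^ D w α n x

noncomputable def P (w α : ℝ) (n : ℕ) : ℝ := ∫ x in (0 : ℝ)..1, G w α n x

theorem G_abs (w α : ℝ) (n : ℕ) (x : ℝ) : |G w α n x| = 1 := by
  unfold G
  rw [abs_zpow, abs_neg, abs_one, one_zpow]

theorem G_int (w α : ℝ) (n : ℕ) (x : ℝ) (a : ℤ) : G w α n (x + a) = G w α n x := by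
  unfold G
  rw [D_int]

theorem b_meas : Measurable (fun q : ℝ × ℝ => b q.1 q.2) := by
  unfold b
  refine Measurable.ite (measurableSet_lt (measurable_fract.comp measurable_snd) measurable_fst)
    measurable_const measurable_const

theorem D_meas3 (n : ℕ) : Measurable (fun q : ℝ × ℝ × ℝ => D q.1 q.2.1 n q.2.2) := by
  unfold D
  refine Finset.measurable_sum _ fun j _ => ?_
  have : Measurable (fun q : ℝ × ℝ × ℝ => (q.1, q.2.2 + j * q.2.1)) := by fun_prop
  exact b_meas.comp this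

theorem G_meas3 (n : ℕ) : Measurable (fun q : ℝ × ℝ × ℝ => G q.1 q.2.1 n q.2.2) := by
  unfold G
  exact (measurable_from_top (f := fun a : ℤ => (-1 : ℝ) ^ a)).comp (D_meas3 n)

theorem G_meas (w α : ℝ) (n : ℕ) : Measurable (G w α n) :=
  (G_meas3 n).comp (f := fun x : ℝ => (w, α, x)) (by fun_prop)

theorem G_intble (w α : ℝ) (n : ℕ) (z u v : ℝ) :
    IntervalIntegrable (fun x => G w α n (x + z)) volume u v := by
  refine (intervalIntegrable_const (c := (1 : ℝ))).mono_fun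
    ((G_meas w α n).comp (measurable_id.add_const z)).aestronglyMeasurable ?_
  refine Filter.Eventually.of_forall fun x => ?_
  change ‖G w α n (x + z)‖ ≤ ‖(1 : ℝ)‖
  rw [Real.norm_eq_abs, G_abs, norm_one]

theorem P_shift (w α : ℝ) (n : ℕ) (z : ℝ) :
    ∫ x in (0 : ℝ)..1, G w α n (x + z) = P w α n := by
  have hp : Function.Periodic (G w α n) 1 := fun x => by
    have := G_int w α n x 1
    simpa using this
  have h1 := hp.intervalIntegral_add_eq z 0
  rw [intervalIntegral.integral_comp_add_right, zero_add]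
  unfold P
  rw [zero_add, add_comm] at h1
  exact h1

variable {α w δ c Λ : ℝ} {n : ℕ} {S : Finset ℕ} {Q : ℕ → ℕ}

/-- all differences over the shift `Q k` are odd -/
def goodAt (w α : ℝ) (n : ℕ) (S : Finset ℕ) (Q : ℕ → ℕ) (k : ℕ) (x : ℝ) : Prop :=
  ∀ E ⊆ S.erase k, Odd (D w α n (x + (∑ i ∈ E, Q i : ℕ) * α + Q k * α) -
    D w α n (x + (∑ i ∈ E, Q i : ℕ) * α))

theorem sum_zero {k : ℕ} (hk : k ∈ S) {x : ℝ} (h : goodAt w α n S Q k x) :
    ∑ E ∈ S.powerset, G w α n (x + (∑ i ∈ E, Q i : ℕ) * α) = 0 := by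
  have e : S = insert k (S.erase k) := (Finset.insert_erase hk).symm
  rw [e, Finset.sum_powerset_insert (Finset.notMem_erase k S), ← Finset.sum_add_distrib]
  refine Finset.sum_eq_zero fun E hE => ?_
  rw [Finset.mem_powerset] at hE
  have hkE : k ∉ E := fun h => Finset.notMem_erase k S (hE h)
  have h1 := h E hE
  rw [Finset.sum_insert hkE]
  have e2 : x + ((Q k + ∑ i ∈ E, Q i : ℕ) : ℝ) * α = x + (∑ i ∈ E, Q i : ℕ) * α + Q k * α := by
    push_cast
    ring
  rw [e2]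
  unfold G
  obtain ⟨a, ha⟩ : ∃ a, a = D w α n (x + (∑ i ∈ E, Q i : ℕ) * α) := ⟨_, rfl⟩
  rw [← ha] at h1 ⊢
  have e3 : D w α n (x + (∑ i ∈ E, Q i : ℕ) * α + Q k * α) =
      a + (D w α n (x + (∑ i ∈ E, Q i : ℕ) * α + Q k * α) - a) := by ring
  rw [e3, zpow_add₀ (by norm_num), h1.neg_one_zpow]
  ring

/-- conditions on the parameters -/
structure Pars (δ c Λ : ℝ) : Prop where
  δ0 : 0 < δ
  δ1 : δ ≤ 1 / 8
  c0 : 0 < c
  cδ : c ≤ δ
  l1 : 16 * δ ≤ c * Λ
  l2 : 1 ≤ δ * (Λ - 1)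
  l3 : 9 < δ * Λ
  l4 : 72 ≤ c * Λ

theorem Pars.l9 (h : Pars δ c Λ) : 9 < Λ := by
  have := h.l3
  have := h.δ1
  have := h.δ0
  by_contra hc
  push Not at hc
  nlinarith

theorem tail_sum (h : Pars δ c Λ) (F : Finset ℕ) (k : ℕ) (hF : ∀ i ∈ F, k < i) :
    ∑ i ∈ F, δ / Λ ^ i ≤ c / (8 * Λ ^ k) := by
  have hΛ := h.l9
  have hΛ0 : 0 < Λ := by linarith
  obtain ⟨N, hN⟩ := F.exists_nat_subset_range
  have hsub : F ⊆ Finset.Ico (k + 1) N := fun i hi => by
    rw [Finset.mem_Ico]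
    exact ⟨hF i hi, Finset.mem_range.1 (hN hi)⟩
  have hx0 : 0 ≤ Λ⁻¹ := by positivity
  have hx1 : Λ⁻¹ ≤ 1 / 2 := by
    rw [inv_le_comm₀ hΛ0 (by norm_num)]
    linarith
  have h1 := geom_sum_Ico_le_of_lt_one (m := k + 1) (n := N) hx0 (by linarith)
  have h2 : ∑ i ∈ F, δ / Λ ^ i ≤ δ * ∑ i ∈ Finset.Ico (k + 1) N, Λ⁻¹ ^ i := by
    rw [Finset.mul_sum]
    refine (Finset.sum_le_sum_of_subset_of_nonneg hsub fun i _ _ => ?_).trans (le_of_eq ?_)
    · have := h.δ0
      positivity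
    · exact Finset.sum_congr rfl fun i _ => by rw [inv_pow]; rfl
  have h3 : Λ⁻¹ ^ (k + 1) / (1 - Λ⁻¹) ≤ 2 * (Λ⁻¹ ^ (k + 1)) := by
    rw [div_le_iff₀ (by linarith)]
    have : 0 ≤ Λ⁻¹ ^ (k + 1) := by positivity
    nlinarith
  have h4 : δ * (2 * (Λ⁻¹ ^ (k + 1))) = (2 * δ / Λ) / Λ ^ k := by
    rw [pow_succ, inv_pow]
    field_simp
  have h5 : 2 * δ / Λ ≤ c / 8 := by
    rw [div_le_iff₀ hΛ0]
    linarith [h.l1]
  calc ∑ i ∈ F, δ / Λ ^ i ≤ δ * (2 * (Λ⁻¹ ^ (k + 1))) :=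
        h2.trans (mul_le_mul_of_nonneg_left (h1.trans h3) h.δ0.le)
    _ = (2 * δ / Λ) / Λ ^ k := h4
    _ ≤ (c / 8) / Λ ^ k := by gcongr
    _ = _ := by field_simp

theorem head_sum (h : Pars δ c Λ) (hgood : ∀ k ∈ S, GoodS α w n δ c (Λ ^ k) (Q k)) (k : ℕ) :
    (∑ i ∈ S.filter (· < k), Q i) = 0 ∨ ∃ Q' : ℕ, (∑ i ∈ S.filter (· < k), Q i) ≤ 2 * Q' ∧
      ∀ d : ℕ, 1 ≤ d → d < Q' → 9 / Λ ^ k < nn (d * α) := by
  have hΛ := h.l9
  have hΛ0 : 0 < Λ := by linarith
  rcases (S.filter (· < k)).eq_empty_or_nonempty with he | hne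
  · left
    rw [he, Finset.sum_empty]
  right
  obtain ⟨p, hp⟩ : ∃ p, p = (S.filter (· < k)).max' hne := ⟨_, rfl⟩
  have hpm : p ∈ S.filter (· < k) := hp ▸ Finset.max'_mem _ _
  have hpS : p ∈ S := (Finset.mem_filter.1 hpm).1
  have hpk : p < k := (Finset.mem_filter.1 hpm).2
  have hg := hgood p hpS
  refine ⟨Q p, ?_, fun d hd hdQ => ?_⟩
  · rw [← Finset.add_sum_erase _ _ hpm]
    have h1 : ∀ i ∈ (S.filter (· < k)).erase p, i ∈ Finset.range p := by
      intro i hi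
      rw [Finset.mem_erase] at hi
      rw [Finset.mem_range]
      have := Finset.le_max' _ _ hi.2
      rw [← hp] at this
      omega
    have h2 : (∑ i ∈ (S.filter (· < k)).erase p, (Q i : ℝ)) * δ ≤ ∑ i ∈ Finset.range p, Λ ^ i := by
      rw [Finset.sum_mul]
      refine (Finset.sum_le_sum fun i hi => ?_).trans
        (Finset.sum_le_sum_of_subset_of_nonneg h1 fun i _ _ => by positivity)
      rw [Finset.mem_erase, Finset.mem_filter] at hi
      exact (hgood i hi.2.1).le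
    have h3 : (∑ i ∈ Finset.range p, Λ ^ i) * (Λ - 1) ≤ Λ ^ p := by
      rw [geom_sum_mul]
      linarith
    have h4 : (∑ i ∈ (S.filter (· < k)).erase p, (Q i : ℝ)) ≤ Λ ^ p := by
      have h5 : 0 ≤ ∑ i ∈ (S.filter (· < k)).erase p, (Q i : ℝ) :=
        Finset.sum_nonneg fun _ _ => Nat.cast_nonneg _
      have h6 := h.l2
      have h7 : 0 < Λ - 1 := by linarith
      calc (∑ i ∈ (S.filter (· < k)).erase p, (Q i : ℝ))
          ≤ (∑ i ∈ (S.filter (· < k)).erase p, (Q i : ℝ)) * (δ * (Λ - 1)) := by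
            nlinarith
        _ = ((∑ i ∈ (S.filter (· < k)).erase p, (Q i : ℝ)) * δ) * (Λ - 1) := by ring
        _ ≤ (∑ i ∈ Finset.range p, Λ ^ i) * (Λ - 1) := by gcongr
        _ ≤ _ := h3
    have h5 := hg.big
    have h6 : 0 < Λ ^ p := by positivity
    have h7 : ((∑ i ∈ (S.filter (· < k)).erase p, Q i : ℕ) : ℝ) ≤ Q p := by
      push_cast
      linarith
    have h8 : (∑ i ∈ (S.filter (· < k)).erase p, Q i) ≤ Q p := by exact_mod_cast h7
    omega
  · refine lt_of_lt_of_le ?_ (hg.sep d hd hdQ)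
    rw [div_lt_div_iff₀ (by positivity) (by positivity)]
    have h1 : Λ ^ (p + 1) ≤ Λ ^ k := pow_le_pow_right₀ (by linarith) hpk
    rw [pow_succ] at h1
    have h2 := h.l3
    have h3 : 0 < Λ ^ p := by positivity
    have h4 := h.δ0
    calc 9 * Λ ^ p < δ * Λ * Λ ^ p := by gcongr
      _ = δ * (Λ ^ p * Λ) := by ring
      _ ≤ δ * Λ ^ k := by gcongr

theorem locCov_bad (h : Pars δ c Λ) (hw0 : 0 ≤ w) (hw1 : w ≤ 1) (hS : ∀ k ∈ S, 1 ≤ k)
    (hgood : ∀ k ∈ S, GoodS α w n δ c (Λ ^ k) (Q k)) {k : ℕ} (hk : k ∈ S) :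
    LocCov {x | ¬ goodAt w α n S Q k x} (9 / Λ ^ k) (1 - c / 18) 2 := by
  intro u
  have hΛ := h.l9
  have hΛ0 : 0 < Λ := by linarith
  have hX9 : 9 < Λ ^ k := by
    calc (9 : ℝ) < Λ ^ 1 := by rw [pow_one]; exact hΛ
      _ ≤ Λ ^ k := pow_le_pow_right₀ (by linarith) (hS k hk)
  obtain ⟨u', v', h1, h2, h3, h4⟩ := key (hgood k hk) hw0 hw1 hX9 h.δ0 h.δ1 h.c0 h.cδ
    (head_sum h hgood k) u
  have hc := h.c0
  have hlen : 0 < c / (2 * Λ ^ k) := by positivity
  have hgd : ∀ x ∈ Icc u' v', goodAt w α n S Q k x := by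
    intro x hx E hE
    -- split
    have hsub : E ⊆ S := hE.trans (Finset.erase_subset _ _)
    have hkE : k ∉ E := fun h => Finset.notMem_erase k S (hE h)
    have hsplit : (∑ i ∈ E, Q i) = (∑ i ∈ E.filter (· < k), Q i) +
        ∑ i ∈ E.filter (¬ · < k), Q i := (Finset.sum_filter_add_sum_filter_not E _ _).symm
    choose R hR using fun i => nn_ex ((Q i : ℝ) * α)
    obtain ⟨η, hη⟩ : ∃ η, η = ∑ i ∈ E.filter (¬ · < k), ((Q i : ℝ) * α - R i) := ⟨_, rfl⟩
    have hηl : |η| ≤ c / (8 * Λ ^ k) := by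
      rw [hη]
      refine (Finset.abs_sum_le_sum_abs _ _).trans (le_trans (Finset.sum_le_sum fun i hi => ?_)
        (tail_sum h (E.filter (¬ · < k)) k fun i hi => ?_))
      · rw [← hR i]
        exact (hgood i (hsub (Finset.mem_filter.1 hi).1)).near.le
      · rw [Finset.mem_filter] at hi
        have : i ≠ k := fun h => hkE (h ▸ hi.1)
        omega
    have hs : (∑ i ∈ E.filter (· < k), Q i) ≤ ∑ i ∈ S.filter (· < k), Q i :=
      Finset.sum_le_sum_of_subset (Finset.filter_subset_filter _ hsub)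
    have h5 := h4 x hx η hηl _ hs
    have e1 : x + ((∑ i ∈ E, Q i : ℕ) : ℝ) * α =
        (x + η + ((∑ i ∈ E.filter (· < k), Q i : ℕ) : ℝ) * α) +
          ((∑ i ∈ E.filter (¬ · < k), R i : ℤ) : ℝ) := by
      rw [hsplit, hη]
      push_cast
      rw [Finset.sum_sub_distrib, ← Finset.sum_mul]
      ring
    have e2 : x + ((∑ i ∈ E, Q i : ℕ) : ℝ) * α + Q k * α =
        (x + η + ((∑ i ∈ E.filter (· < k), Q i : ℕ) : ℝ) * α + Q k * α) +
          ((∑ i ∈ E.filter (¬ · < k), R i : ℤ) : ℝ) := by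
      rw [e1]
      ring
    rw [e2, e1, D_int, D_int]
    exact h5
  refine ⟨Bool, inferInstance, fun i => if i then u else v', fun i => if i then u' else u + 9 / Λ ^ k,
    by simp, ?_, ?_, ?_⟩
  · rintro (_ | _)
    · simpa using h2
    · simpa using h1
  · rintro x ⟨hx1, hx2⟩
    rw [mem_iUnion]
    by_cases hx3 : x ≤ u'
    · exact ⟨true, by simpa using ⟨hx1.1, hx3⟩⟩
    · refine ⟨false, ?_⟩
      have : v' ≤ x := by
        by_contra hcon
        push Not at hcon hx3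
        exact hx2 (hgd x ⟨hx3.le, hcon.le⟩)
      simpa using ⟨this, hx1.2⟩
  · rw [Fintype.sum_bool]
    simp only [if_true, Bool.false_eq_true, if_false]
    have e : (1 - c / 18) * (9 / Λ ^ k) = 9 / Λ ^ k - c / (2 * Λ ^ k) := by
      field_simp
      ring
    rw [e]
    linarith

/-- The contraction. -/
theorem contraction (h : Pars δ c Λ) (hw0 : 0 ≤ w) (hw1 : w ≤ 1) (hS : ∀ k ∈ S, 1 ≤ k)
    (hgood : ∀ k ∈ S, GoodS α w n δ c (Λ ^ k) (Q k)) :
    |P w α n| ≤ 2 * (1 - c / 36) ^ S.card := by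
  classical
  have hΛ := h.l9
  have hΛ0 : 0 < Λ := by linarith
  have hc := h.c0
  have hc1 : c ≤ 1 / 8 := h.cδ.trans h.δ1
  obtain ⟨V, hV⟩ : ∃ V : Set ℝ, V = ⋂ i ∈ S, {x | ¬ goodAt w α n S Q i x} := ⟨_, rfl⟩
  have hvol : volume (Icc (0 : ℝ) 1 ∩ V) ≤ ENNReal.ofReal (2 * (1 - c / 36) ^ S.card) := by
    rw [hV]
    refine (prodLemma (V := fun i => {x | ¬ goodAt w α n S Q i x}) (h := fun i => 9 / Λ ^ i)
      (ρ := 1 - c / 18) (L := Λ) (M := 2) (by linarith) hΛ0 S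
      (fun i hi => locCov_bad h hw0 hw1 hS hgood hi) (fun i _ => by positivity)
      (fun i _ j _ hij => ?_) 1 zero_le_one (fun i hi => ?_) 0 1 zero_le_one).trans ?_
    · rw [div_div, ← pow_succ]
      gcongr
      · linarith
      · exact hij
    · rw [div_le_one (by positivity)]
      calc (9 : ℝ) ≤ Λ ^ 1 := by rw [pow_one]; exact hΛ.le
        _ ≤ Λ ^ i := pow_le_pow_right₀ (by linarith) (hS i hi)
    · apply ENNReal.ofReal_le_ofReal
      have h1 : (1 - c / 18) + ((2 : ℕ) : ℝ) / Λ ≤ 1 - c / 36 := by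
        have : (2 : ℝ) / Λ ≤ c / 36 := by
          rw [div_le_iff₀ hΛ0]
          linarith [h.l4]
        push_cast
        linarith
      have h2 : 0 ≤ (1 - c / 18) + ((2 : ℕ) : ℝ) / Λ := by
        have : 0 ≤ ((2 : ℕ) : ℝ) / Λ := by positivity
        linarith
      calc ((1 - c / 18) + ((2 : ℕ) : ℝ) / Λ) ^ S.card * (1 - 0 + 1)
          ≤ (1 - c / 36) ^ S.card * (1 - 0 + 1) := by gcongr
        _ = _ := by ring
  -- the average
  obtain ⟨F, hF⟩ : ∃ F : ℝ → ℝ, F = fun x => ∑ E ∈ S.powerset,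
      G w α n (x + (∑ i ∈ E, Q i : ℕ) * α) := ⟨_, rfl⟩
  have hint : ∫ x in (0 : ℝ)..1, F x = 2 ^ S.card * P w α n := by
    rw [hF, intervalIntegral.integral_finsetSum fun E _ => G_intble _ _ _ _ _ _,
      Finset.sum_congr rfl fun E _ => P_shift _ _ _ _, Finset.sum_const, Finset.card_powerset,
      nsmul_eq_mul]
    push_cast
    rfl
  have hFb : ∀ x, |F x| ≤ 2 ^ S.card := by
    intro x
    rw [hF]
    refine (Finset.abs_sum_le_sum_abs _ _).trans ?_
    rw [Finset.sum_congr rfl fun E _ => G_abs _ _ _ _, Finset.sum_const, Finset.card_powerset]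
    simp
  have hF0 : ∀ x, x ∉ V → F x = 0 := by
    intro x hx
    rw [hV, mem_iInter₂] at hx
    push Not at hx
    obtain ⟨k, hk, hx⟩ := hx
    rw [mem_ofPred_eq, not_not] at hx
    rw [hF]
    exact sum_zero hk hx
  have hle : |∫ x in (0 : ℝ)..1, F x| ≤ 2 ^ S.card * (2 * (1 - c / 36) ^ S.card) := by
    rw [intervalIntegral.integral_of_le zero_le_one, ← Real.norm_eq_abs]
    refine (norm_integral_le_lintegral_norm _).trans ?_
    apply ENNReal.toReal_le_of_le_ofReal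
    · have : 0 ≤ 1 - c / 36 := by linarith
      positivity
    · calc ∫⁻ x in Ioc (0 : ℝ) 1, ENNReal.ofReal ‖F x‖
          ≤ ∫⁻ x in Ioc (0 : ℝ) 1, V.indicator (fun _ => ENNReal.ofReal (2 ^ S.card)) x := by
            refine lintegral_mono fun x => ?_
            by_cases hx : x ∈ V
            · rw [indicator_of_mem hx]
              exact ENNReal.ofReal_le_ofReal (hFb x)
            · rw [indicator_of_notMem hx, hF0 x hx]
              simp
        _ ≤ ENNReal.ofReal (2 ^ S.card) * (volume.restrict (Ioc (0 : ℝ) 1)) V :=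
            lintegral_indicator_const_le _ _
        _ ≤ ENNReal.ofReal (2 ^ S.card) * volume (Icc (0 : ℝ) 1 ∩ V) := by
            refine mul_le_mul_right ?_ _
            rw [Measure.restrict_apply' measurableSet_Ioc]
            exact measure_mono fun x hx => ⟨Ioc_subset_Icc_self hx.2, hx.1⟩
        _ ≤ ENNReal.ofReal (2 ^ S.card) * ENNReal.ofReal (2 * (1 - c / 36) ^ S.card) := by
            gcongr
        _ = _ := (ENNReal.ofReal_mul (by positivity)).symm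
  rw [hint, abs_mul, abs_of_pos (by positivity : (0 : ℝ) < 2 ^ S.card)] at hle
  exact le_of_mul_le_mul_left hle (by positivity)

end Pool.Agent.K1H30.SP
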