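import Pool.Agent.K1H30.SP.PL

/-! Ergodic sums of an interval over a rotation: commuting second differences, good scales. -/

open Set MeasureTheory

set_option autoImplicit false

namespace Pool.Agent.K1H30.SP

/-! ### The distance to the integers -/

noncomputable def nn (x : ℝ) : ℝ := |x - round x|

theorem nn_eq (x : ℝ) : nn x = ‖(x : UnitAddCircle)‖ := (UnitAddCircle.norm_eq).symm

theorem nn_nonneg (x : ℝ) : 0 ≤ nn x := abs_nonneg _

theorem nn_le (x : ℝ) (a : ℤ) : nn x ≤ |x - a| := round_le x a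

theorem nn_ex (x : ℝ) : ∃ a : ℤ, nn x = |x - a| := ⟨round x, rfl⟩

theorem nn_neg (x : ℝ) : nn (-x) = nn x := by
  rw [nn_eq, nn_eq, AddCircle.coe_neg, norm_neg]

theorem nn_add (x y : ℝ) : nn (x + y) ≤ nn x + nn y := by
  rw [nn_eq, nn_eq, nn_eq, AddCircle.coe_add]
  exact norm_add_le _ _

theorem nn_int (x : ℝ) (a : ℤ) : nn (x + a) = nn x := by
  unfold nn
  rw [round_add_intCast]
  push_cast
  congr 1
  ring

/-! ### The counting function -/

/-- the indicator of `[0, w)` modulo one -/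
noncomputable def b (w x : ℝ) : ℤ := if Int.fract x < w then 1 else 0

noncomputable def D (w α : ℝ) (n : ℕ) (x : ℝ) : ℤ := ∑ j ∈ Finset.range n, b w (x + j * α)

theorem b_int (w x : ℝ) (a : ℤ) : b w (x + a) = b w x := by
  unfold b
  rw [Int.fract_add_intCast]

theorem D_int (w α : ℝ) (n : ℕ) (x : ℝ) (a : ℤ) : D w α n (x + a) = D w α n x := by
  unfold D
  refine Finset.sum_congr rfl fun j _ => ?_
  rw [add_right_comm, b_int]

theorem D_add (w α : ℝ) (m l : ℕ) (x : ℝ) :
    D w α (m + l) x = D w α m x + D w α l (x + m * α) := by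
  unfold D
  rw [Finset.sum_range_add]
  congr 1
  refine Finset.sum_congr rfl fun j _ => ?_
  congr 1
  push_cast
  ring

theorem D_comm (w α : ℝ) (m l : ℕ) (x : ℝ) :
    D w α m (x + l * α) - D w α m x = D w α l (x + m * α) - D w α l x := by
  have h1 := D_add w α m l x
  have h2 := D_add w α l m x
  rw [add_comm m l] at h1
  linarith

theorem b_const {w x y : ℝ} (hxy : x ≤ y) (h1 : ∀ a : ℤ, (a : ℝ) ∉ Ioc x y)
    (h2 : ∀ a : ℤ, w + a ∉ Ioc x y) : b w x = b w y := by
  have hf : ⌊x⌋ = ⌊y⌋ := by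
    refine le_antisymm (Int.floor_le_floor hxy) ?_
    by_contra h
    push Not at h
    refine h1 ⌊y⌋ ⟨?_, Int.floor_le y⟩
    exact Int.floor_lt.1 h
  have hx : Int.fract x = x - ⌊x⌋ := rfl
  have hy : Int.fract y = y - ⌊x⌋ := by rw [hf]; rfl
  unfold b
  rw [hx, hy]
  by_cases h3 : x - ⌊x⌋ < w
  · by_cases h4 : y - ⌊x⌋ < w
    · rw [if_pos h3, if_pos h4]
    · exfalso
      push Not at h4
      exact h2 ⌊x⌋ ⟨by linarith, by linarith⟩
  · rw [if_neg h3, if_neg (by push Not at h3 ⊢; linarith)]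

theorem b_jump {w x y : ℝ} (hw0 : 0 ≤ w) (hw1 : w ≤ 1) {a : ℤ} (ha : (a : ℝ) ∈ Ioc x y)
    (h2 : ∀ a : ℤ, w + a ∉ Ioc x y) : b w x = 0 ∧ b w y = 1 := by
  have e1 : w + ((a - 1 : ℤ) : ℝ) ≤ x := by
    by_contra h
    push Not at h
    refine h2 (a - 1) ⟨h, ?_⟩
    push_cast
    linarith [ha.2]
  have e2 : y < w + a := by
    by_contra h
    push Not at h
    exact h2 a ⟨by linarith [ha.1], h⟩
  push_cast at e1
  have f1 : ⌊x⌋ = a - 1 := by
    rw [Int.floor_eq_iff]
    push_cast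
    exact ⟨by linarith, by linarith [ha.1]⟩
  have f2 : ⌊y⌋ = a := by
    rw [Int.floor_eq_iff]
    exact ⟨ha.2, by linarith⟩
  constructor
  · unfold b
    rw [if_neg]
    rw [← Int.self_sub_floor, f1]
    push_cast
    linarith
  · unfold b
    rw [if_pos]
    rw [← Int.self_sub_floor, f2]
    linarith

/-- `D` does not change in an interval without flips -/
theorem D_const {w α : ℝ} {n : ℕ} {I : Set ℝ} (hI : I.OrdConnected) (z : ℝ)
    (h1 : ∀ l < n, ∀ a : ℤ, (a : ℝ) - l * α - z ∉ I)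
    (h2 : ∀ l < n, ∀ a : ℤ, w + a - l * α - z ∉ I) {x y : ℝ} (hx : x ∈ I) (hy : y ∈ I) :
    D w α n (x + z) = D w α n (y + z) := by
  wlog hxy : x ≤ y generalizing x y
  · exact (this hy hx (by linarith)).symm
  unfold D
  refine Finset.sum_congr rfl fun l hl => ?_
  rw [Finset.mem_range] at hl
  refine b_const (by linarith) (fun a ha => h1 l hl a ?_) (fun a ha => h2 l hl a ?_)
  · exact hI.out hx hy ⟨by linarith [ha.1], by linarith [ha.2]⟩
  · exact hI.out hx hy ⟨by linarith [ha.1], by linarith [ha.2]⟩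

/-- `D` jumps by one at an isolated flip -/
theorem D_jump {w α : ℝ} {n : ℕ} {I : Set ℝ} (hI : I.OrdConnected) (hw0 : 0 ≤ w) (hw1 : w ≤ 1)
    {l : ℕ} (hl : l < n) (a : ℤ) (h1 : ∀ l' < n, l' ≠ l → ∀ a' : ℤ, (a' : ℝ) - l' * α ∉ I)
    (h2 : ∀ l' < n, ∀ a' : ℤ, w + a' - l' * α ∉ I) {x y : ℝ} (hx : x ∈ I) (hy : y ∈ I)
    (hxp : x < a - l * α) (hpy : (a : ℝ) - l * α ≤ y) : D w α n y = D w α n x + 1 := by
  unfold D
  rw [← Finset.add_sum_erase _ _ (Finset.mem_range.2 hl),
    ← Finset.add_sum_erase (Finset.range n) (fun j => b w (x + j * α)) (Finset.mem_range.2 hl)]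
  have e1 : ∑ j ∈ (Finset.range n).erase l, b w (y + j * α) =
      ∑ j ∈ (Finset.range n).erase l, b w (x + j * α) := by
    refine Finset.sum_congr rfl fun j hj => ?_
    rw [Finset.mem_erase, Finset.mem_range] at hj
    refine (b_const (by linarith) (fun a ha => h1 j hj.2 hj.1 a ?_)
      (fun a ha => h2 j hj.2 a ?_)).symm
    · exact hI.out hx hy ⟨by linarith [ha.1], by linarith [ha.2]⟩
    · exact hI.out hx hy ⟨by linarith [ha.1], by linarith [ha.2]⟩
  have e2 := b_jump (x := x + l * α) (y := y + l * α) hw0 hw1 (a := a)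
    ⟨by linarith, by linarith⟩ (fun a' ha => h2 l hl a' (hI.out hx hy
      ⟨by linarith [ha.1], by linarith [ha.2]⟩))
  rw [e1, e2.1, e2.2]
  ring

/-! ### Good scales -/

structure GoodS (α w : ℝ) (n : ℕ) (δ c X : ℝ) (Q : ℕ) : Prop where
  big : 4 * X < Q
  le : Q * δ ≤ X
  near : nn (Q * α) < δ / X
  sep : ∀ d : ℕ, 1 ≤ d → d < Q → δ / X ≤ nn (d * α)
  w1 : ∀ l : ℤ, |l| < Q → c / X ≤ nn (w - l * α)
  w2 : ∀ l : ℤ, |l| < Q → c / X ≤ nn (n * α - l * α)
  w3 : ∀ l : ℤ, |l| < Q → c / X ≤ nn (w - n * α - l * α)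

variable {α w δ c X : ℝ} {n Q : ℕ}

/-- density of the orbit -/
theorem dense (hX : 0 < X) (hδ : 0 < δ) (hδ1 : δ ≤ 1 / 8) (hQ : 4 * X < Q)
    (near : nn (Q * α) < δ / X) (sep : ∀ d : ℕ, 1 ≤ d → d < Q → δ / X ≤ nn (d * α)) (y : ℝ) :
    ∃ l < Q, ∃ a : ℤ, |y - (a - l * α)| ≤ 1 / (4 * X) := by
  have hQ0 : 0 < (Q : ℝ) := by linarith
  have hQn : 0 < Q := by exact_mod_cast hQ0
  obtain ⟨P, hP⟩ := nn_ex (Q * α)
  obtain ⟨η, hη⟩ : ∃ η, η = Q * α - P := ⟨_, rfl⟩
  rw [← hη] at hP
  have hηl : |η| < δ / X := by rw [← hP]; exact near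
  -- coprimality
  have hcop : IsCoprime P (Q : ℤ) := by
    rw [Int.isCoprime_iff_gcd_eq_one]
    by_contra hg
    have hg0 : 0 < Int.gcd P Q := Int.gcd_pos_of_ne_zero_right _ (by exact_mod_cast hQn.ne')
    have hg2 : 2 ≤ Int.gcd P Q := by omega
    obtain ⟨P', hP'⟩ := Int.gcd_dvd_left P (Q : ℤ)
    have hQd : Int.gcd P Q ∣ Q := by
      have := Int.gcd_dvd_right P (Q : ℤ)
      exact_mod_cast this
    obtain ⟨Q', hQ'⟩ := hQd
    obtain ⟨g, hgg⟩ : ∃ g : ℕ, g = Int.gcd P Q := ⟨_, rfl⟩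
    rw [← hgg] at hP' hQ' hg2
    have hQ'0 : 1 ≤ Q' := by
      rcases Nat.eq_zero_or_pos Q' with h | h
      · rw [h, mul_zero] at hQ'
        omega
      · exact h
    have hQ'lt : Q' < Q := by
      rw [hQ']
      nlinarith
    have h1 := sep Q' hQ'0 hQ'lt
    have h2 := nn_le (Q' * α) P'
    have hgr : (2 : ℝ) ≤ g := by exact_mod_cast hg2
    have h3 : (g : ℝ) * (Q' * α - P') = η := by
      have e1 : (Q : ℝ) = g * Q' := by exact_mod_cast hQ'
      have e2 : (P : ℝ) = g * P' := by exact_mod_cast hP'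
      rw [hη, e1, e2]
      ring
    have h4 : (g : ℝ) * |(Q' * α - P')| = |η| := by
      rw [← h3, abs_mul, abs_of_pos (by linarith : (0 : ℝ) < g)]
    have h5 : 0 ≤ |(Q' : ℝ) * α - P'| := abs_nonneg _
    have h6 : 0 < δ / X := by positivity
    nlinarith
  obtain ⟨s, t, hst⟩ := hcop
  obtain ⟨r, hr⟩ : ∃ r, r = round (Q * y) := ⟨_, rfl⟩
  -- l = (- r s) mod Q
  have hl0 : 0 ≤ (-(r * s)) % (Q : ℤ) := Int.emod_nonneg _ (by exact_mod_cast hQn.ne')
  have hl1 : (-(r * s)) % (Q : ℤ) < Q := Int.emod_lt_of_pos _ (by exact_mod_cast hQn)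
  obtain ⟨l, hl⟩ : ∃ l : ℕ, (l : ℤ) = (-(r * s)) % (Q : ℤ) := ⟨_, Int.toNat_of_nonneg hl0⟩
  have hdiv := Int.emod_add_mul_ediv (-(r * s)) (Q : ℤ)
  obtain ⟨k, hk⟩ : ∃ k, k = (-(r * s)) / (Q : ℤ) := ⟨_, rfl⟩
  rw [← hk, ← hl] at hdiv
  refine ⟨l, by omega, r * t - k * P, ?_⟩
  have hlQ : (l : ℝ) ≤ Q := by
    have : l < Q := by omega
    exact_mod_cast this.le
  have e1 : ((r * t - k * P : ℤ) : ℝ) * Q - l * P = r := by
    have : (r * t - k * P) * (Q : ℤ) - l * P = r := by
      have e2 : (l : ℤ) = -(r * s) - Q * k := by linarith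
      rw [e2]
      linear_combination r * hst
    exact_mod_cast this
  have e3 : y - (((r * t - k * P : ℤ) : ℝ) - l * α) = (Q * y - r) / Q + l / Q * η := by
    rw [hη]
    field_simp
    linear_combination -e1
  rw [e3]
  have e4 : |(Q * y - r) / Q| ≤ 1 / (8 * X) := by
    rw [abs_div, abs_of_pos hQ0, div_le_iff₀ hQ0]
    have : |Q * y - r| ≤ 1 / 2 := by rw [hr]; exact abs_sub_round _
    refine this.trans ?_
    rw [div_mul_eq_mul_div, le_div_iff₀ (by positivity)]
    linarith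
  have e5 : |l / Q * η| ≤ 1 / (8 * X) := by
    rw [abs_mul, abs_of_nonneg (by positivity : (0 : ℝ) ≤ l / Q)]
    have h1 : (l : ℝ) / Q ≤ 1 := (div_le_one hQ0).2 hlQ
    calc (l : ℝ) / Q * |η| ≤ 1 * (δ / X) := by gcongr
      _ ≤ 1 * ((1 / 8) / X) := by gcongr
      _ = _ := by field_simp
  calc _ ≤ |(Q * y - r) / Q| + |l / Q * η| := abs_add_le _ _
    _ ≤ 1 / (8 * X) + 1 / (8 * X) := add_le_add e4 e5
    _ = _ := by field_simp; norm_num

/-- the four offsets -/
noncomputable def off (w α : ℝ) (n : ℕ) : Fin 4 → ℝ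
  | 0 => 0
  | 1 => w
  | 2 => -(n * α)
  | 3 => w - n * α

/-- a cell without flips of the shorter sums -/
theorem free_cell (hX : 9 < X) {T : ℕ}
    (hT : T = 0 ∨ ∃ Q' : ℕ, T ≤ 2 * Q' ∧ ∀ d : ℕ, 1 ≤ d → d < Q' → 9 / X < nn (d * α)) (u : ℝ) :
    ∃ j : Fin 9, ∀ l < T, ∀ (a : ℤ) (o : Fin 4),
      off w α n o + a - l * α ∉ Ico (u + (j : ℕ) / X) (u + ((j : ℕ) + 1) / X) := by
  by_contra hcon
  push Not at hcon
  rcases hT with hT | ⟨Q', hT, hsep⟩
  · obtain ⟨l, hl, -⟩ := hcon 0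
    omega
  choose l hl a o hm using hcon
  have hX0 : 0 < X := by linarith
  have hcard : Fintype.card (Fin 4 × Bool) < Fintype.card (Fin 9) := by
    simp [Fintype.card_prod]
  obtain ⟨j, j', hne, hjj⟩ := Fintype.exists_ne_map_eq_of_card_lt
    (fun j : Fin 9 => (o j, decide (l j < Q'))) hcard
  rw [Prod.mk.injEq] at hjj
  obtain ⟨ho, hb⟩ := hjj
  wlog hlt : j < j' generalizing j j'
  · exact this j' j hne.symm ho.symm hb.symm (lt_of_le_of_ne (not_lt.1 hlt) hne.symm)
  have m1 := hm j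
  have m2 := hm j'
  rw [← ho] at m2
  have hjr : ((j : ℕ) : ℝ) + 1 ≤ (j' : ℕ) := by
    have : (j : ℕ) + 1 ≤ (j' : ℕ) := hlt
    exact_mod_cast this
  have hj9 : ((j' : ℕ) : ℝ) + 1 ≤ 9 := by
    have : (j' : ℕ) + 1 ≤ 9 := j'.2
    exact_mod_cast this
  have hj0 : (0 : ℝ) ≤ (j : ℕ) := Nat.cast_nonneg _
  have hlt2 : off w α n (o j) + a j - l j * α < off w α n (o j) + a j' - l j' * α := by
    refine lt_of_lt_of_le m1.2 (le_trans ?_ m2.1)
    gcongr
  have hlt3 : off w α n (o j) + a j' - l j' * α - (off w α n (o j) + a j - l j * α) < 9 / X := by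
    have e1 := m2.2
    have e2 := m1.1
    have e3 : (((j' : ℕ) : ℝ) + 1) / X ≤ 9 / X := by gcongr
    have e4 : 0 ≤ ((j : ℕ) : ℝ) / X := by positivity
    linarith
  have h9 : 9 / X < 1 := by rw [div_lt_one hX0]; exact hX
  rcases lt_trichotomy (l j) (l j') with h | h | h
  · have hd : l j' - l j < Q' := by
      by_cases h1 : l j < Q'
      · have h2 : l j' < Q' := by
          rw [decide_eq_true h1] at hb
          exact of_decide_eq_true hb.symm
        omega
      · have := hl j'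
        omega
    have h3 := hsep (l j' - l j) (by omega) hd
    have h4 := nn_le (((l j' - l j : ℕ) : ℝ) * α) (a j' - a j)
    rw [Nat.cast_sub h.le] at h3 h4
    push_cast at h4
    have h5 : |((l j' : ℝ) - l j) * α - ((a j' : ℝ) - a j)| < 9 / X := by
      rw [abs_lt]
      constructor <;> linarith
    linarith
  · rw [h] at hlt2 hlt3
    have h5 : (a j : ℝ) < a j' := by linarith
    have h6 : a j + 1 ≤ a j' := by exact_mod_cast h5
    have h7 : (a j : ℝ) + 1 ≤ a j' := by exact_mod_cast h6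
    linarith
  · have hd : l j - l j' < Q' := by
      by_cases h1 : l j' < Q'
      · have h2 : l j < Q' := by
          rw [decide_eq_true h1] at hb
          exact of_decide_eq_true hb
        omega
      · have := hl j
        omega
    have h3 := hsep (l j - l j') (by omega) hd
    have h4 := nn_le (((l j - l j' : ℕ) : ℝ) * α) (a j - a j')
    rw [Nat.cast_sub h.le] at h3 h4
    push_cast at h4
    have h5 : |((l j : ℝ) - l j') * α - ((a j : ℝ) - a j')| < 9 / X := by
      rw [abs_lt]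
      constructor <;> linarith
    linarith

/-- every cell contains an interval of good points -/
theorem key (h : GoodS α w n δ c X Q) (hw0 : 0 ≤ w) (hw1 : w ≤ 1) (hX : 9 < X) (hδ : 0 < δ)
    (hδ1 : δ ≤ 1 / 8) (hc : 0 < c) (hcδ : c ≤ δ) {T : ℕ}
    (hT : T = 0 ∨ ∃ Q' : ℕ, T ≤ 2 * Q' ∧ ∀ d : ℕ, 1 ≤ d → d < Q' → 9 / X < nn (d * α)) (u : ℝ) :
    ∃ u' v', u ≤ u' ∧ v' ≤ u + 9 / X ∧ u' + c / (2 * X) ≤ v' ∧ ∀ x ∈ Icc u' v',
      ∀ η, |η| ≤ c / (8 * X) → ∀ s ≤ T,
        Odd (D w α n (x + η + s * α + Q * α) - D w α n (x + η + s * α)) := by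
  have hX0 : 0 < X := by linarith
  obtain ⟨j, hj⟩ := free_cell (w := w) (n := n) hX hT u
  obtain ⟨l, hl, a, ha⟩ := dense hX0 hδ hδ1 h.big h.near h.sep (u + ((j : ℕ) + 1 / 2) / X)
  obtain ⟨p, hp⟩ : ∃ p, p = (a : ℝ) - l * α := ⟨_, rfl⟩
  rw [← hp] at ha
  obtain ⟨e, he⟩ : ∃ e, e = 1 / X := ⟨_, rfl⟩
  have he0 : 0 < e := by rw [he]; positivity
  have hcX : c / X = c * e := by rw [he]; ring
  have hdX : δ / X = δ * e := by rw [he]; ring
  have hsmall : c * e + δ * e ≤ e / 4 := by nlinarith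
  have hce : 0 < c * e := by positivity
  have hde : 0 < δ * e := by positivity
  have hcell : ∀ y, |y - p| ≤ e / 4 → y ∈ Icc (u + (j : ℕ) / X) (u + ((j : ℕ) + 1) / X) := by
    intro y hy
    rw [abs_le] at hy ha
    have e1 : 1 / (4 * X) = e / 4 := by rw [he]; field_simp
    rw [e1] at ha
    have e2 : ((j : ℕ) : ℝ) / X = (j : ℕ) * e := by rw [he]; ring
    have e3 : (((j : ℕ) : ℝ) + 1) / X = (j : ℕ) * e + e := by rw [he]; ring
    have e4 : (((j : ℕ) : ℝ) + 1 / 2) / X = (j : ℕ) * e + e / 2 := by rw [he]; ring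
    rw [e4] at ha
    rw [e2, e3]
    constructor <;> linarith
  have hcell' : ∀ y, |y - p| < e / 4 → y ∈ Ico (u + (j : ℕ) / X) (u + ((j : ℕ) + 1) / X) := by
    intro y hy
    refine ⟨(hcell y hy.le).1, ?_⟩
    rw [abs_lt] at hy
    rw [abs_le] at ha
    have e1 : 1 / (4 * X) = e / 4 := by rw [he]; field_simp
    rw [e1] at ha
    have e3 : (((j : ℕ) : ℝ) + 1) / X = (j : ℕ) * e + e := by rw [he]; ring
    have e4 : (((j : ℕ) : ℝ) + 1 / 2) / X = (j : ℕ) * e + e / 2 := by rw [he]; ring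
    rw [e4] at ha
    rw [e3]
    linarith
  -- no other flip near `p`
  obtain ⟨I, hI⟩ : ∃ I, I = Ioo (p - c * e) (p + c * e) := ⟨_, rfl⟩
  have hIo : I.OrdConnected := by rw [hI]; exact ordConnected_Ioo
  have hnear : ∀ y ∈ I, |y - p| < c * e := by
    intro y hy
    rw [hI] at hy
    rw [abs_lt]
    constructor <;> linarith [hy.1, hy.2]
  have habs : ∀ l' < Q, |((l' : ℤ) - l : ℤ)| < Q := by
    intro l' hl'
    rw [abs_lt]
    constructor <;> omega
  have f0 : ∀ l' < Q, l' ≠ l → ∀ a' : ℤ, (a' : ℝ) - l' * α ∉ I := by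
    intro l' hl' hne a' hm
    have h1 := hnear _ hm
    have h2 : nn ((l' - l : ℝ) * α) ≤ |(a' : ℝ) - l' * α - p| := by
      have := nn_le ((l' - l : ℝ) * α) (a' - a)
      refine this.trans (le_of_eq ?_)
      rw [← abs_neg, hp]
      push_cast
      congr 1
      ring
    have h3 : δ / X ≤ nn ((l' - l : ℝ) * α) := by
      rcases lt_or_gt_of_ne hne with h4 | h4
      · have := h.sep (l - l') (by omega) (by omega)
        rw [Nat.cast_sub h4.le] at this
        have e : (l' - l : ℝ) * α = -(((l : ℝ) - l') * α) := by ring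
        rw [e, nn_neg]
        exact this
      · have := h.sep (l' - l) (by omega) (by omega)
        rw [Nat.cast_sub h4.le] at this
        exact this
    rw [hdX] at h3
    nlinarith
  have f1 : ∀ l' < Q, ∀ a' : ℤ, w + a' - l' * α ∉ I := by
    intro l' hl' a' hm
    have h1 := hnear _ hm
    have h2 := h.w1 (l' - l) (habs l' hl')
    have h3 := nn_le (w - (((l' : ℤ) - l : ℤ) : ℝ) * α) (a - a')
    rw [hcX] at h2
    have h4 : |w - (((l' : ℤ) - l : ℤ) : ℝ) * α - ((a - a' : ℤ) : ℝ)| =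
        |w + a' - l' * α - p| := by
      rw [hp]
      push_cast
      congr 1
      ring
    rw [h4] at h3
    linarith
  have f2 : ∀ l' < Q, ∀ a' : ℤ, (a' : ℝ) - l' * α - n * α ∉ I := by
    intro l' hl' a' hm
    have h1 := hnear _ hm
    have h2 := h.w2 (l - l') (by have := habs l' hl'; rw [abs_sub_comm] at this; exact this)
    have h3 := nn_le (n * α - (((l : ℤ) - l' : ℤ) : ℝ) * α) (a' - a)
    rw [hcX] at h2
    have h4 : |n * α - (((l : ℤ) - l' : ℤ) : ℝ) * α - ((a' - a : ℤ) : ℝ)| =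
        |(a' : ℝ) - l' * α - n * α - p| := by
      rw [← abs_neg, hp]
      push_cast
      congr 1
      ring
    rw [h4] at h3
    linarith
  have f3 : ∀ l' < Q, ∀ a' : ℤ, w + a' - l' * α - n * α ∉ I := by
    intro l' hl' a' hm
    have h1 := hnear _ hm
    have h2 := h.w3 (l' - l) (habs l' hl')
    have h3 := nn_le (w - n * α - (((l' : ℤ) - l : ℤ) : ℝ) * α) (a - a')
    rw [hcX] at h2
    have h4 : |w - n * α - (((l' : ℤ) - l : ℤ) : ℝ) * α - ((a - a' : ℤ) : ℝ)| =
        |w + a' - l' * α - n * α - p| := by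
      rw [hp]
      push_cast
      congr 1
      ring
    rw [h4] at h3
    linarith
  have hpI : p ∈ I := by rw [hI]; constructor <;> linarith
  -- the difference function
  have dl : ∀ x ∈ I, ∀ y ∈ I, D w α Q (x + n * α) = D w α Q (y + n * α) := by
    intro x hx y hy
    exact D_const hIo (n * α) f2 f3 hx hy
  have dj : ∀ x ∈ I, x < p → D w α Q x + 1 = D w α Q p := by
    intro x hx hxp
    exact (D_jump hIo hw0 hw1 hl a f0 f1 hx hpI (by rw [← hp]; exact hxp) hp.ge).symm
  have dj' : ∀ x ∈ I, p ≤ x → D w α Q x = D w α Q p := by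
    intro x hx hxp
    -- compare both with the point `p - c e / 2`
    have hz : p - c * e / 2 ∈ I := by rw [hI]; constructor <;> linarith
    have g1 := D_jump hIo hw0 hw1 hl a f0 f1 hz hx (by rw [← hp]; linarith)
      (by rw [← hp]; exact hxp)
    have g2 := D_jump hIo hw0 hw1 hl a f0 f1 hz hpI (by rw [← hp]; linarith)
      (by rw [← hp])
    rw [g1, g2]
  -- transfer to the shifted points
  obtain ⟨P, hP⟩ := nn_ex (Q * α)
  obtain ⟨θ, hθ⟩ : ∃ θ, θ = Q * α - P := ⟨_, rfl⟩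
  rw [← hθ] at hP
  have hθl : |θ| < δ * e := by rw [← hP, ← hdX]; exact h.near
  have trans : ∀ y ∈ I, ∀ s ≤ T, D w α n (y + s * α + Q * α) - D w α n (y + s * α) =
      D w α Q (y + n * α) - D w α Q y := by
    intro y hy s hs
    have hyp := hnear y hy
    rw [D_comm w α n Q (y + s * α)]
    have c1 := D_comm w α Q s (y + n * α)
    have c2 := D_comm w α Q s y
    have hyc : y ∈ Ico (u + (j : ℕ) / X) (u + ((j : ℕ) + 1) / X) := by
      refine hcell' y ?_
      nlinarith [abs_nonneg θ]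
    have hyc' : y + θ ∈ Ico (u + (j : ℕ) / X) (u + ((j : ℕ) + 1) / X) := by
      refine hcell' _ ?_
      calc |y + θ - p| = |(y - p) + θ| := by congr 1; ring
        _ ≤ |y - p| + |θ| := abs_add_le _ _
        _ < c * e + δ * e := by linarith
        _ ≤ e / 4 := hsmall
    have g1 : D w α s (y + Q * α) = D w α s y := by
      have e1 : y + Q * α = y + θ + P := by rw [hθ]; ring
      rw [e1, D_int]
      have := D_const (w := w) (α := α) (n := s) (I := Ico (u + (j : ℕ) / X) (u + ((j : ℕ) + 1) / X))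
        ordConnected_Ico 0 (fun l hl a => by
          have := hj l (by omega) a 0
          simpa [off] using this) (fun l hl a => by
          have := hj l (by omega) a 1
          simpa [off] using this) hyc' hyc
      simpa using this
    have g2 : D w α s (y + n * α + Q * α) = D w α s (y + n * α) := by
      have e1 : y + n * α + Q * α = (y + θ + n * α) + P := by rw [hθ]; ring
      rw [e1, D_int]
      exact D_const (w := w) (α := α) (n := s)
        (I := Ico (u + (j : ℕ) / X) (u + ((j : ℕ) + 1) / X))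
        ordConnected_Ico (n * α) (fun l hl a => by
          have := hj l (by omega) a 2
          have e : (a : ℝ) - l * α - n * α = off w α n 2 + a - l * α := by
            simp only [off]; ring
          rw [e]
          exact this) (fun l hl a => by
          have := hj l (by omega) a 3
          have e : w + a - l * α - n * α = off w α n 3 + a - l * α := by
            simp only [off]; ring
          rw [e]
          exact this) hyc' hyc
    have e2 : y + s * α + n * α = y + n * α + s * α := by ring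
    rw [e2]
    linarith
  have h8 : c / (8 * X) = c * e / 8 := by rw [he]; field_simp
  have h2' : c / (2 * X) = c * e / 2 := by rw [he]; field_simp
  have hq := hcell (p - e / 4) (by rw [sub_sub_cancel_left, abs_neg, abs_of_pos]; linarith)
  have hq' := hcell (p + e / 4) (by rw [add_sub_cancel_left, abs_of_pos]; linarith)
  have hj9 : (((j : ℕ) : ℝ) + 1) / X ≤ 9 / X := by
    have : ((j : ℕ) : ℝ) + 1 ≤ 9 := by
      have : (j : ℕ) + 1 ≤ 9 := j.2
      exact_mod_cast this
    gcongr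
  have hj0 : 0 ≤ ((j : ℕ) : ℝ) / X := by positivity
  obtain ⟨A, hA⟩ : ∃ A, A = D w α Q (p + n * α) - D w α Q p := ⟨_, rfl⟩
  rcases Int.even_or_odd A with hev | hodd
  · -- the left side is good
    refine ⟨p - 3 * (c * e) / 4, p - c * e / 4, by linarith [hq.1, hsmall, hde],
      by linarith [hq'.2, hsmall, hde], by rw [h2']; linarith, ?_⟩
    intro x hx η hη s hs
    rw [h8, abs_le] at hη
    have hy : x + η ∈ I := by rw [hI]; constructor <;> linarith [hx.1, hx.2, hη.1, hη.2]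
    have hyp : x + η < p := by linarith [hx.2, hη.2]
    rw [trans _ hy s hs, dl _ hy _ hpI]
    have := dj _ hy hyp
    have e1 : D w α Q (p + n * α) - D w α Q (x + η) = A + 1 := by rw [hA]; linarith
    rw [e1]
    exact hev.add_one
  · refine ⟨p + c * e / 4, p + 3 * (c * e) / 4, by linarith [hq.1, hsmall, hde],
      by linarith [hq'.2, hsmall, hde], by rw [h2']; linarith, ?_⟩
    intro x hx η hη s hs
    rw [h8, abs_le] at hη
    have hy : x + η ∈ I := by rw [hI]; constructor <;> linarith [hx.1, hx.2, hη.1, hη.2]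
    have hyp : p ≤ x + η := by linarith [hx.1, hη.1]
    rw [trans _ hy s hs, dl _ hy _ hpI, dj' _ hy hyp, ← hA]
    exact hodd

end Pool.Agent.K1H30.SP
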