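import Pool.Agent.K1H30.SP.Contr

/-! Bad scales: covers of the exceptional sets in the cells. -/

open Set MeasureTheory

set_option autoImplicit false

namespace Pool.Agent.K1H30.SP

theorem locCov_of_sep {V : Set ℝ} {h ρ r : ℝ} {κ : Type} [Fintype κ] (hr : 0 ≤ r)
    (hu : ∀ u, ∃ R : κ → ℝ → Prop, (∀ k y y', R k y → R k y' → y = y') ∧
      ∀ w ∈ Icc u (u + h) ∩ V, ∃ k y, R k y ∧ |w - y| ≤ r) {M : ℕ} (hM : Fintype.card κ ≤ M)
    (hρ : Fintype.card κ * (2 * r) ≤ ρ * h) : LocCov V h ρ M := by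
  classical
  intro u
  obtain ⟨R, h1, h2⟩ := hu u
  refine ⟨κ, inferInstance, fun k => if hk : ∃ y, R k y then hk.choose - r else 0,
    fun k => if hk : ∃ y, R k y then hk.choose + r else 0, hM, fun k => ?_, fun w hw => ?_, ?_⟩
  · by_cases hk : ∃ y, R k y
    · simp only [dif_pos hk]
      linarith
    · simp only [dif_neg hk, le_refl]
  · obtain ⟨k, y, hk, hy⟩ := h2 w hw
    rw [mem_iUnion]
    refine ⟨k, ?_⟩
    have hk' : ∃ y, R k y := ⟨y, hk⟩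
    have e : hk'.choose = y := h1 k _ _ hk'.choose_spec hk
    simp only [dif_pos hk', e]
    rw [abs_le] at hy
    exact ⟨by linarith, by linarith⟩
  · refine le_trans ?_ hρ
    rw [← nsmul_eq_mul, ← Finset.card_univ, ← Finset.sum_const]
    refine Finset.sum_le_sum fun k _ => ?_
    by_cases hk : ∃ y, R k y
    · simp only [dif_pos hk]
      linarith
    · simp only [dif_neg hk]
      linarith

/-- the scale is nice for `α` -/
def nice (D₀ L₀ : ℕ) (i : ℕ) (α : ℝ) : Prop :=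
  ∀ d : ℕ, 1 ≤ d → d ≤ 4 * L₀ ^ i → 1 / (D₀ * (L₀ : ℝ) ^ i) ≤ nn (d * α)

/-- the scale is bad for `w` -/
def Wb (D₀ L₀ : ℕ) (c : ℝ) (n i : ℕ) (α w : ℝ) : Prop :=
  ∃ l : ℤ, |l| ≤ (D₀ * L₀ ^ i : ℕ) ∧ (nn (w - l * α) < c / (L₀ : ℝ) ^ i ∨
    nn (w - n * α - l * α) < c / (L₀ : ℝ) ^ i)

/-- the scale is bad for `α` -/
def Ab (D₀ L₀ : ℕ) (c : ℝ) (n i : ℕ) (α : ℝ) : Prop :=
  ∃ l : ℤ, |l| ≤ (D₀ * L₀ ^ i : ℕ) ∧ nn (n * α - l * α) < c / (L₀ : ℝ) ^ i

variable {D₀ L₀ : ℕ} {c : ℝ} {n i : ℕ} {α w : ℝ}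

theorem exists_good (hD : 1 ≤ D₀) (hL : 1 ≤ L₀) (h1 : nice D₀ L₀ i α) (h2 : ¬ Wb D₀ L₀ c n i α w)
    (h3 : ¬ Ab D₀ L₀ c n i α) : ∃ Q : ℕ, GoodS α w n (1 / D₀) c ((L₀ : ℝ) ^ i) Q := by
  have hX : 0 < (L₀ : ℝ) ^ i := by
    have : (0 : ℝ) < L₀ := by exact_mod_cast hL
    positivity
  have hD0 : (0 : ℝ) < D₀ := by exact_mod_cast hD
  have hN : 0 < D₀ * L₀ ^ i := by positivity
  have hδX : (1 : ℝ) / D₀ / (L₀ : ℝ) ^ i = 1 / (D₀ * (L₀ : ℝ) ^ i) := by rw [div_div]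
  have hex : ∃ q : ℕ, 1 ≤ q ∧ nn (q * α) < 1 / D₀ / (L₀ : ℝ) ^ i := by
    obtain ⟨k, hk0, hk1, hk2⟩ := Real.exists_nat_abs_mul_sub_round_le α hN
    refine ⟨k, hk0, lt_of_le_of_lt hk2 ?_⟩
    rw [hδX]
    push_cast
    apply one_div_lt_one_div_of_lt (by positivity)
    linarith
  classical
  obtain ⟨Q, hQ⟩ : ∃ Q, Q = Nat.find hex := ⟨_, rfl⟩
  have hQs := Nat.find_spec hex
  have hQm : ∀ d : ℕ, 1 ≤ d → d < Q → 1 / D₀ / (L₀ : ℝ) ^ i ≤ nn (d * α) := by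
    intro d hd hdQ
    rw [hQ] at hdQ
    have := Nat.find_min hex hdQ
    push Not at this
    exact this hd
  rw [← hQ] at hQs
  have hQle : Q ≤ D₀ * L₀ ^ i := by
    obtain ⟨k, hk0, hk1, hk2⟩ := Real.exists_nat_abs_mul_sub_round_le α hN
    refine le_trans ?_ hk1
    rw [hQ]
    apply Nat.find_min'
    refine ⟨hk0, lt_of_le_of_lt hk2 ?_⟩
    rw [hδX]
    push_cast
    apply one_div_lt_one_div_of_lt (by positivity)
    linarith
  have hl : ∀ l : ℤ, |l| < Q → |l| ≤ (D₀ * L₀ ^ i : ℕ) := fun l hl => by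
    have : (Q : ℤ) ≤ (D₀ * L₀ ^ i : ℕ) := by exact_mod_cast hQle
    omega
  refine ⟨Q, ⟨?_, ?_, hQs.2, hQm, fun l hlQ => ?_, fun l hlQ => ?_, fun l hlQ => ?_⟩⟩
  · by_contra hcon
    push Not at hcon
    have h4 : Q ≤ 4 * L₀ ^ i := by exact_mod_cast hcon
    have := h1 Q hQs.1 h4
    rw [← hδX] at this
    linarith [hQs.2]
  · have : (Q : ℝ) ≤ D₀ * (L₀ : ℝ) ^ i := by exact_mod_cast hQle
    rw [mul_one_div, div_le_iff₀ hD0]
    linarith
  · by_contra hcon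
    push Not at hcon
    exact h2 ⟨l, hl l hlQ, Or.inl hcon⟩
  · by_contra hcon
    push Not at hcon
    exact h3 ⟨l, hl l hlQ, hcon⟩
  · by_contra hcon
    push Not at hcon
    exact h2 ⟨l, hl l hlQ, Or.inr hcon⟩

/-- two orbit points with close indices are apart -/
theorem apart (h1 : nice D₀ L₀ i α) {l l' a a' : ℤ} (hD : 1 ≤ D₀) (hL : 1 ≤ L₀)
    (hl : |l - l'| ≤ (4 * L₀ ^ i : ℕ))
    (hd : |((l : ℝ) * α + a) - (l' * α + a')| < 1 / (D₀ * (L₀ : ℝ) ^ i)) : l = l' ∧ a = a' := by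
  have hX : 1 ≤ (L₀ : ℝ) ^ i := one_le_pow₀ (by exact_mod_cast hL)
  have hD0 : (1 : ℝ) ≤ D₀ := by exact_mod_cast hD
  have hsmall : 1 / (D₀ * (L₀ : ℝ) ^ i) ≤ 1 := by
    rw [div_le_one (by positivity)]
    nlinarith
  have hll : l = l' := by
    by_contra hne
    have h2 : ∀ d : ℕ, ∀ s : ℝ, s = 1 ∨ s = -1 → (d : ℝ) = s * (l - l') → 1 ≤ d →
        d ≤ 4 * L₀ ^ i → False := by
      intro d s hs hds hd1 hd2
      have h3 := h1 d hd1 hd2
      rcases hs with hs | hs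
      · have h4 := nn_le ((d : ℝ) * α) (a' - a)
        rw [hds, hs] at h3 h4
        have e : |1 * ((l : ℝ) - l') * α - ((a' - a : ℤ) : ℝ)| =
            |((l : ℝ) * α + a) - (l' * α + a')| := by
          congr 1
          push_cast
          ring
        rw [e] at h4
        linarith
      · have h4 := nn_le ((d : ℝ) * α) (a - a')
        rw [hds, hs] at h3 h4
        have e : |(-1) * ((l : ℝ) - l') * α - ((a - a' : ℤ) : ℝ)| =
            |((l : ℝ) * α + a) - (l' * α + a')| := by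
          rw [← abs_neg]
          congr 1
          push_cast
          ring
        rw [e] at h4
        linarith
    rcases lt_or_gt_of_ne hne with h | h
    · refine h2 (l' - l).toNat (-1) (Or.inr rfl) ?_ (by omega) ?_
      · have : ((l' - l).toNat : ℤ) = l' - l := Int.toNat_of_nonneg (by omega)
        have : (((l' - l).toNat : ℤ) : ℝ) = l' - l := by exact_mod_cast this
        push_cast at this
        rw [this]
        ring
      · have : |l - l'| = l' - l := by rw [abs_sub_comm]; exact abs_of_pos (by omega)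
        omega
    · refine h2 (l - l').toNat 1 (Or.inl rfl) ?_ (by omega) ?_
      · have : ((l - l').toNat : ℤ) = l - l' := Int.toNat_of_nonneg (by omega)
        have : (((l - l').toNat : ℤ) : ℝ) = l - l' := by exact_mod_cast this
        push_cast at this
        rw [this]
        ring
      · have : |l - l'| = l - l' := abs_of_pos (by omega)
        omega
  refine ⟨hll, ?_⟩
  rw [hll] at hd
  have e : ((l' : ℝ) * α + a) - (l' * α + a') = ((a - a' : ℤ) : ℝ) := by push_cast; ring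
  rw [e] at hd
  have : |((a - a' : ℤ) : ℝ)| < 1 := lt_of_lt_of_le hd hsmall
  have h5 : |a - a'| < 1 := by exact_mod_cast this
  rw [Int.abs_lt_one_iff] at h5
  omega

/-- the block of an index -/
theorem block_lt {K m : ℕ} (hm : 0 < m) {l : ℤ} (hl : |l| ≤ (K * m : ℕ)) :
    ((l + (K * m : ℕ)) / ((4 * m : ℕ) : ℤ)).toNat < K / 2 + 1 := by
  rw [abs_le] at hl
  have h0 : 0 ≤ l + (K * m : ℕ) := by omega
  have h1 : (l + (K * m : ℕ)) / ((4 * m : ℕ) : ℤ) ≤ (2 * (K * m : ℕ) : ℤ) / ((4 * m : ℕ) : ℤ) :=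
    Int.ediv_le_ediv (by omega) (by omega)
  have h2 : (2 * (K * m : ℕ) : ℤ) / ((4 * m : ℕ) : ℤ) = ((K / 2 : ℕ) : ℤ) := by
    have : 2 * (K * m) / (4 * m) = K / 2 := by
      rw [show 2 * (K * m) = K * (2 * m) by ring, show 4 * m = 2 * (2 * m) by ring,
        Nat.mul_div_mul_right _ _ (by omega)]
    exact_mod_cast this
  rw [h2] at h1
  omega

theorem block_eq {m : ℕ} (hm : 0 < m) {l l' s : ℤ} (h0 : 0 ≤ l + s) (h0' : 0 ≤ l' + s)
    (h : ((l + s) / ((4 * m : ℕ) : ℤ)).toNat = ((l' + s) / ((4 * m : ℕ) : ℤ)).toNat) :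
    |l - l'| ≤ (4 * m : ℕ) := by
  have hp : 0 < ((4 * m : ℕ) : ℤ) := by omega
  have h1 : 0 ≤ (l + s) / ((4 * m : ℕ) : ℤ) := Int.ediv_nonneg h0 hp.le
  have h2 : 0 ≤ (l' + s) / ((4 * m : ℕ) : ℤ) := Int.ediv_nonneg h0' hp.le
  have h3 : (l + s) / ((4 * m : ℕ) : ℤ) = (l' + s) / ((4 * m : ℕ) : ℤ) := by omega
  have h4 := Int.emod_add_mul_ediv (l + s) ((4 * m : ℕ) : ℤ)
  have h5 := Int.emod_add_mul_ediv (l' + s) ((4 * m : ℕ) : ℤ)
  have h6 := Int.emod_nonneg (l + s) hp.ne'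
  have h7 := Int.emod_nonneg (l' + s) hp.ne'
  have h8 := Int.emod_lt_of_pos (l + s) hp
  have h9 := Int.emod_lt_of_pos (l' + s) hp
  rw [h3] at h4
  rw [abs_le]
  constructor <;> linarith

/-- the cover of the set of the `w` for which the scale is bad -/
theorem locCov_W (hD : 8 ≤ D₀) (hL : 1 ≤ L₀) (hc : 0 < c) (hc1 : c * (8 * D₀) ≤ 1)
    (h1 : nice D₀ L₀ i α) :
    LocCov {w | Wb D₀ L₀ c n i α w} (1 / (2 * (D₀ * (L₀ : ℝ) ^ i))) (8 * (D₀ + 1) * D₀ * c)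
      (2 * (D₀ + 1)) := by
  have hX : 1 ≤ (L₀ : ℝ) ^ i := one_le_pow₀ (by exact_mod_cast hL)
  have hX0 : 0 < (L₀ : ℝ) ^ i := by linarith
  have hD0 : (8 : ℝ) ≤ D₀ := by exact_mod_cast hD
  have hm : 0 < L₀ ^ i := by positivity
  obtain ⟨e, he⟩ : ∃ e, e = 1 / (D₀ * (L₀ : ℝ) ^ i) := ⟨_, rfl⟩
  have he0 : 0 < e := by rw [he]; positivity
  have hr : c / (L₀ : ℝ) ^ i = c * D₀ * e := by rw [he]; field_simp
  have hr8 : c * D₀ * e ≤ e / 8 := by nlinarith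
  have hh : 1 / (2 * (D₀ * (L₀ : ℝ) ^ i)) = e / 2 := by rw [he]; field_simp
  refine locCov_of_sep (κ := Bool × Fin (D₀ + 1)) (r := c * D₀ * e) (by positivity)
    (fun u => ?_) (by simp) ?_
  · refine ⟨fun k y => ∃ l a : ℤ, |l| ≤ (D₀ * L₀ ^ i : ℕ) ∧
      ((l + (D₀ * L₀ ^ i : ℕ)) / ((4 * L₀ ^ i : ℕ) : ℤ)).toNat = k.2 ∧
      y = (if k.1 then (n : ℝ) * α else 0) + (l * α + a) ∧
      y ∈ Icc (u - c * D₀ * e) (u + e / 2 + c * D₀ * e), ?_, ?_⟩
    · rintro ⟨τ, β⟩ y y' ⟨l, a, h2, h3, h4, h5⟩ ⟨l', a', h2', h3', h4', h5'⟩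
      rw [abs_le] at h2 h2'
      have h6 := block_eq (m := L₀ ^ i) hm (l := l) (l' := l') (s := (D₀ * L₀ ^ i : ℕ))
        (by omega) (by omega) (h3.trans h3'.symm)
      have h7 : |((l : ℝ) * α + a) - (l' * α + a')| < 1 / (D₀ * (L₀ : ℝ) ^ i) := by
        have e1 : ((l : ℝ) * α + a) - (l' * α + a') = y - y' := by rw [h4, h4']; ring
        rw [e1, ← he, abs_lt]
        constructor <;> linarith [h5.1, h5.2, h5'.1, h5'.2]
      obtain ⟨e1, e2⟩ := apart h1 (by omega) hL h6 h7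
      rw [h4, h4', e1, e2]
    · rintro w ⟨hw1, l, hl, hw2⟩
      rw [hh] at hw1
      have hb := block_lt (K := D₀) hm hl
      rcases hw2 with hw2 | hw2
      · obtain ⟨a, ha⟩ := nn_ex (w - l * α)
        rw [ha, hr] at hw2
        have hb' : ((l + (D₀ * L₀ ^ i : ℕ)) / ((4 * L₀ ^ i : ℕ) : ℤ)).toNat < D₀ + 1 := by omega
        refine ⟨(false, ⟨_, hb'⟩), l * α + a, ⟨l, a, hl, rfl, by simp, ?_⟩, ?_⟩
        · rw [abs_lt] at hw2
          constructor <;> linarith [hw1.1, hw1.2]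
        · have : w - (l * α + a) = w - l * α - a := by ring
          rw [this]
          exact hw2.le
      · obtain ⟨a, ha⟩ := nn_ex (w - n * α - l * α)
        rw [ha, hr] at hw2
        have hb' : ((l + (D₀ * L₀ ^ i : ℕ)) / ((4 * L₀ ^ i : ℕ) : ℤ)).toNat < D₀ + 1 := by omega
        refine ⟨(true, ⟨_, hb'⟩), n * α + (l * α + a), ⟨l, a, hl, rfl, by simp, ?_⟩, ?_⟩
        · rw [abs_lt] at hw2
          constructor <;> linarith [hw1.1, hw1.2]
        · have : w - (n * α + (l * α + a)) = w - n * α - l * α - a := by ring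
          rw [this]
          exact hw2.le
  · rw [hh, Fintype.card_prod, Fintype.card_bool, Fintype.card_fin]
    push_cast
    apply le_of_eq
    ring

/-- the cover of the set of the `α` for which the scale is nice and bad -/
theorem locCov_A (hD : 8 ≤ D₀) (hL : 1 ≤ L₀) (hc : 0 < c) (hc1 : c * (8 * D₀) ≤ 1)
    (hn : 2 * (D₀ * L₀ ^ i) ≤ n) :
    LocCov {α | nice D₀ L₀ i α ∧ Ab D₀ L₀ c n i α} (1 / (n * (L₀ : ℝ) ^ i))
      (4 * ((D₀ + 1) * (4 * D₀ + 1)) * c) ((D₀ + 1) * (4 * D₀ + 1)) := by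
  have hX : 1 ≤ (L₀ : ℝ) ^ i := one_le_pow₀ (by exact_mod_cast hL)
  have hX0 : 0 < (L₀ : ℝ) ^ i := by linarith
  have hD0 : (8 : ℝ) ≤ D₀ := by exact_mod_cast hD
  have hm : 0 < L₀ ^ i := by positivity
  have hn' : 2 * ((D₀ : ℝ) * (L₀ : ℝ) ^ i) ≤ n := by exact_mod_cast hn
  have hn0 : (0 : ℝ) < n := by nlinarith
  obtain ⟨e, he⟩ : ∃ e, e = 1 / (L₀ : ℝ) ^ i := ⟨_, rfl⟩
  have he0 : 0 < e := by rw [he]; positivity
  have hee : e * (L₀ : ℝ) ^ i = 1 := by rw [he]; field_simp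
  have hr : c / (L₀ : ℝ) ^ i = c * e := by rw [he]; ring
  have hh : 1 / (n * (L₀ : ℝ) ^ i) = e / n := by rw [he]; field_simp
  have hc8 : c ≤ 1 / 8 := by nlinarith
  refine locCov_of_sep (κ := Fin (D₀ + 1) × Fin (4 * D₀ + 1)) (r := 2 * c * e / n)
    (by positivity) (fun u => ?_) (by simp) ?_
  · by_cases hne : (Icc u (u + 1 / (n * (L₀ : ℝ) ^ i)) ∩
        {α | nice D₀ L₀ i α ∧ Ab D₀ L₀ c n i α}).Nonempty
    · obtain ⟨α₀, hα₀, hnice, l₀, hl₀, hα₀2⟩ := hne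
      obtain ⟨p₀, hp₀⟩ := nn_ex (n * α₀ - l₀ * α₀)
      rw [hp₀, hr] at hα₀2
      rw [hh] at hα₀
      refine ⟨fun k y => ∃ l p : ℤ, |l| ≤ (D₀ * L₀ ^ i : ℕ) ∧
        ((l₀ - l + (2 * D₀ * L₀ ^ i : ℕ)) / ((4 * L₀ ^ i : ℕ) : ℤ)).toNat = k.1 ∧
        |((l₀ - l : ℤ) : ℝ) * α₀ + (p₀ - p : ℤ)| ≤ 2 * e ∧
        ⌊(((l₀ - l : ℤ) : ℝ) * α₀ + (p₀ - p : ℤ) + 2 * e) * (D₀ * (L₀ : ℝ) ^ i)⌋₊ = k.2 ∧
        y = p / (n - l : ℤ), ?_, ?_⟩
      · rintro ⟨β, γ⟩ y y' ⟨l, p, h2, h3, h4, h5, h6⟩ ⟨l', p', h2', h3', h4', h5', h6'⟩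
        have h7 : |l₀ - l| ≤ (2 * D₀ * L₀ ^ i : ℕ) := by
          rw [abs_le] at h2 hl₀ ⊢
          push_cast at h2 hl₀ ⊢
          constructor <;> linarith [h2.1, h2.2, hl₀.1, hl₀.2]
        have h7' : |l₀ - l'| ≤ (2 * D₀ * L₀ ^ i : ℕ) := by
          rw [abs_le] at h2' hl₀ ⊢
          push_cast at h2' hl₀ ⊢
          constructor <;> linarith [h2'.1, h2'.2, hl₀.1, hl₀.2]
        rw [abs_le] at h7 h7'
        have h8 := block_eq (m := L₀ ^ i) hm (l := l₀ - l) (l' := l₀ - l')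
          (s := (2 * D₀ * L₀ ^ i : ℕ)) (by linarith [h7.1]) (by linarith [h7'.1])
          (h3.trans h3'.symm)
        have h9 : |(((l₀ - l : ℤ) : ℝ) * α₀ + (p₀ - p : ℤ)) -
            (((l₀ - l' : ℤ) : ℝ) * α₀ + (p₀ - p' : ℤ))| < 1 / (D₀ * (L₀ : ℝ) ^ i) := by
          rw [abs_le] at h4 h4'
          obtain ⟨z, hz⟩ : ∃ z, z = ((l₀ - l : ℤ) : ℝ) * α₀ + (p₀ - p : ℤ) := ⟨_, rfl⟩
          obtain ⟨z', hz'⟩ : ∃ z', z' = ((l₀ - l' : ℤ) : ℝ) * α₀ + (p₀ - p' : ℤ) := ⟨_, rfl⟩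
          rw [← hz] at h4 h5 ⊢
          rw [← hz'] at h4' h5' ⊢
          have hK : 0 < (D₀ : ℝ) * (L₀ : ℝ) ^ i := by positivity
          have f1 := Nat.floor_le (show 0 ≤ (z + 2 * e) * (D₀ * (L₀ : ℝ) ^ i) from
            mul_nonneg (by linarith) hK.le)
          have f2 := Nat.lt_floor_add_one ((z + 2 * e) * (D₀ * (L₀ : ℝ) ^ i))
          have f3 := Nat.floor_le (show 0 ≤ (z' + 2 * e) * (D₀ * (L₀ : ℝ) ^ i) from
            mul_nonneg (by linarith) hK.le)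
          have f4 := Nat.lt_floor_add_one ((z' + 2 * e) * (D₀ * (L₀ : ℝ) ^ i))
          rw [h5] at f1 f2
          rw [h5'] at f3 f4
          rw [abs_lt, lt_div_iff₀ hK, ← neg_div, div_lt_iff₀ hK]
          constructor <;> nlinarith
        obtain ⟨e1, e2⟩ := apart hnice (by omega) hL h8 h9
        have e3 : l = l' := by omega
        have e4 : p = p' := by omega
        rw [h6, h6', e3, e4]
      · rintro α ⟨hα, hαn, l, hl, hα2⟩
        obtain ⟨p, hp⟩ := nn_ex (n * α - l * α)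
        rw [hp, hr] at hα2
        rw [hh] at hα
        have h7 : |l₀ - l| ≤ (2 * D₀ * L₀ ^ i : ℕ) := by
          rw [abs_le] at hl hl₀ ⊢
          push_cast at hl hl₀ ⊢
          constructor <;> linarith [hl.1, hl.2, hl₀.1, hl₀.2]
        have hb := block_lt (K := 2 * D₀) hm h7
        have hlr : |(l : ℝ)| ≤ D₀ * (L₀ : ℝ) ^ i := by exact_mod_cast hl
        have hnl : (n : ℝ) / 2 ≤ n - l := by
          have := (abs_le.1 hlr).2
          linarith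
        have hnl2 : |(n : ℝ) - l| ≤ 3 / 2 * n := by
          rw [abs_le] at hlr ⊢
          constructor <;> linarith [hlr.1, hlr.2]
        have hdα : |α₀ - α| ≤ e / n := by
          rw [abs_le]
          constructor <;> linarith [hα.1, hα.2, hα₀.1, hα₀.2]
        have hz : |((l₀ - l : ℤ) : ℝ) * α₀ + (p₀ - p : ℤ)| ≤ 2 * e := by
          have e1 : ((l₀ - l : ℤ) : ℝ) * α₀ + (p₀ - p : ℤ) =
              (n * α - l * α - p) - (n * α₀ - l₀ * α₀ - p₀) + ((n : ℝ) - l) * (α₀ - α) := by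
            push_cast
            ring
          rw [e1]
          have e2 : |((n : ℝ) - l) * (α₀ - α)| ≤ 3 / 2 * e := by
            rw [abs_mul]
            calc |(n : ℝ) - l| * |α₀ - α| ≤ (3 / 2 * n) * (e / n) := by gcongr
              _ = _ := by field_simp
          have e3 := abs_add_le ((n * α - l * α - p) - (n * α₀ - l₀ * α₀ - p₀))
            (((n : ℝ) - l) * (α₀ - α))
          have e4 := abs_sub (n * α - l * α - p) (n * α₀ - l₀ * α₀ - p₀)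
          nlinarith
        have hb' : ((l₀ - l + (2 * D₀ * L₀ ^ i : ℕ)) / ((4 * L₀ ^ i : ℕ) : ℤ)).toNat < D₀ + 1 := by
          have : 2 * D₀ / 2 = D₀ := by omega
          omega
        have hg : ⌊(((l₀ - l : ℤ) : ℝ) * α₀ + (p₀ - p : ℤ) + 2 * e) * (D₀ * (L₀ : ℝ) ^ i)⌋₊ <
            4 * D₀ + 1 := by
          rw [Nat.lt_succ_iff]
          apply Nat.floor_le_of_le
          push_cast
          rw [abs_le] at hz
          push_cast at hz
          have hK : 0 < (D₀ : ℝ) * (L₀ : ℝ) ^ i := by positivity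
          calc _ ≤ (4 * e) * (D₀ * (L₀ : ℝ) ^ i) := by
                apply mul_le_mul_of_nonneg_right _ hK.le
                linarith
            _ = 4 * D₀ * (e * (L₀ : ℝ) ^ i) := by ring
            _ = _ := by rw [hee, mul_one]
        refine ⟨(⟨_, hb'⟩, ⟨_, hg⟩), p / (n - l : ℤ), ⟨l, p, hl, rfl, hz, rfl, rfl⟩, ?_⟩
        push_cast
        have hnl0 : 0 < (n : ℝ) - l := by linarith
        have e1 : α - p / ((n : ℝ) - l) = (n * α - l * α - p) / (n - l) := by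
          field_simp
        rw [e1, abs_div, abs_of_pos hnl0, div_le_iff₀ hnl0]
        calc |(n : ℝ) * α - l * α - p| ≤ c * e := hα2.le
          _ = 2 * c * e / n * (n / 2) := by field_simp
          _ ≤ 2 * c * e / n * (n - l) := by gcongr
    · refine ⟨fun _ _ => False, by simp, fun w hw => ?_⟩
      exact absurd ⟨w, hw⟩ hne
  · rw [hh, Fintype.card_prod, Fintype.card_fin, Fintype.card_fin]
    push_cast
    apply le_of_eq
    ring

end Pool.Agent.K1H30.SP
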