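import Mathlib

/-! Lebesgue measure on `[0,1)`, rotations modulo one. -/

open Set MeasureTheory

set_option autoImplicit false

namespace Pool.Agent.K1H30.SP

/-- Lebesgue measure on `[0,1)`. -/
noncomputable def U : Measure ℝ := volume.restrict (Ico 0 1)

instance : IsProbabilityMeasure U := ⟨by simp [U]⟩

theorem U_Ioc : U = volume.restrict (Ioc 0 1) := by
  unfold U
  exact Measure.restrict_congr_set (Ico_ae_eq_Ioc)

theorem U_Icc : U = volume.restrict (Icc 0 1) := by
  unfold U
  exact Measure.restrict_congr_set (Ico_ae_eq_Icc)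

theorem integral_U (f : ℝ → ℝ) : ∫ x, f x ∂U = ∫ x in (0 : ℝ)..1, f x := by
  rw [intervalIntegral.integral_of_le zero_le_one, U_Ioc]

theorem lint_per (g : ℝ → ENNReal) (hg : Function.Periodic g 1) (c : ℝ) :
    ∫⁻ x, g (x + c) ∂U = ∫⁻ x, g x ∂U := by
  have h1 : ∀ c : ℝ, ∫⁻ x, g (x + c) ∂U = ∫⁻ b : UnitAddCircle, hg.lift (b + (c : UnitAddCircle)) := by
    intro c
    have := UnitAddCircle.lintegral_preimage 0 (fun b : UnitAddCircle => hg.lift (b + (c : UnitAddCircle)))
    rw [zero_add] at this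
    rw [← this, U_Ioc]
    refine lintegral_congr fun a => ?_
    rw [← AddCircle.coe_add, Function.Periodic.lift_coe]
  have h2 := h1 0
  simp only [add_zero, AddCircle.coe_zero] at h2
  rw [h1 c, h2]
  exact lintegral_add_right_eq_self (fun b => hg.lift b) _

theorem U_shift (c : ℝ) : MeasurePreserving (fun x => Int.fract (x + c)) U U := by
  refine ⟨by fun_prop, ?_⟩
  refine Measure.ext_of_lintegral _ fun f hf => ?_
  rw [lintegral_map hf (by fun_prop)]
  have hp : Function.Periodic (fun x => f (Int.fract x)) 1 := fun x => by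
    simp only [Int.fract_add_one]
  rw [lint_per (fun x => f (Int.fract x)) hp c]
  unfold U
  refine setLIntegral_congr_fun measurableSet_Ico fun x hx => ?_
  simp only [Int.fract_eq_self.mpr ⟨hx.1, hx.2⟩]

theorem U_ae : ∀ᵐ x ∂U, x ∈ Ico (0 : ℝ) 1 := ae_restrict_mem measurableSet_Ico

end Pool.Agent.K1H30.SP
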