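import Pool.Agent.K1H30.SP.Count
import Pool.Agent.K1H30.SP.Per

/-! The integral estimate: union bound over the bad scales. -/

open Set MeasureTheory

set_option autoImplicit false

namespace Pool.Agent.K1H30.SP

theorem nn_cont : Continuous nn := by
  have : nn = fun x : ℝ => ‖(x : UnitAddCircle)‖ := funext nn_eq
  rw [this]
  exact continuous_norm.comp (AddCircle.continuous_mk' 1)

theorem P_eq (w α : ℝ) (n : ℕ) : P w α n = ∫ x, G w α n x ∂U := (integral_U _).symm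

section
attribute [local irreducible] G

theorem P_meas (n : ℕ) : Measurable (fun q : ℝ × ℝ => P q.1 q.2 n) := by
  have hG : Measurable (fun r : (ℝ × ℝ) × ℝ => G r.1.1 r.1.2 n r.2) :=
    (G_meas3 n).comp (by fun_prop : Measurable fun r : (ℝ × ℝ) × ℝ => (r.1.1, r.1.2, r.2))
  simp only [P_eq]
  exact (StronglyMeasurable.integral_prod_right' (ν := U)
    (f := fun r : (ℝ × ℝ) × ℝ => G r.1.1 r.1.2 n r.2) hG.stronglyMeasurable).measurable

end

theorem P_le (w α : ℝ) (n : ℕ) : |P w α n| ≤ 1 := by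
  unfold P
  have := intervalIntegral.norm_integral_le_of_norm_le_const (a := (0 : ℝ)) (b := 1) (C := 1)
    (f := fun x => G w α n x) (fun x _ => by rw [Real.norm_eq_abs, G_abs])
  simpa using this

theorem nice_meas (D₀ L₀ i : ℕ) : MeasurableSet {α : ℝ | nice D₀ L₀ i α} := by
  have : {α : ℝ | nice D₀ L₀ i α} = ⋂ d : ℕ, ⋂ (_ : 1 ≤ d), ⋂ (_ : d ≤ 4 * L₀ ^ i),
      {α : ℝ | 1 / (D₀ * (L₀ : ℝ) ^ i) ≤ nn (d * α)} := by
    ext α
    simp [nice]
  rw [this]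
  refine MeasurableSet.iInter fun d => MeasurableSet.iInter fun _ => MeasurableSet.iInter fun _ => ?_
  exact measurableSet_le measurable_const (nn_cont.measurable.comp (by fun_prop))

theorem Ab_meas (D₀ L₀ : ℕ) (c : ℝ) (n i : ℕ) : MeasurableSet {α : ℝ | Ab D₀ L₀ c n i α} := by
  have : {α : ℝ | Ab D₀ L₀ c n i α} = ⋃ l : ℤ, ⋃ (_ : |l| ≤ (D₀ * L₀ ^ i : ℕ)),
      {α : ℝ | nn (n * α - l * α) < c / (L₀ : ℝ) ^ i} := by
    ext α
    simp [Ab]
  rw [this]
  refine MeasurableSet.iUnion fun l => MeasurableSet.iUnion fun _ => ?_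
  exact measurableSet_lt (nn_cont.measurable.comp (by fun_prop)) measurable_const

theorem Wb_meas (D₀ L₀ : ℕ) (c : ℝ) (n i : ℕ) :
    MeasurableSet {q : ℝ × ℝ | Wb D₀ L₀ c n i q.1 q.2} := by
  have : {q : ℝ × ℝ | Wb D₀ L₀ c n i q.1 q.2} = ⋃ l : ℤ, ⋃ (_ : |l| ≤ (D₀ * L₀ ^ i : ℕ)),
      ({q : ℝ × ℝ | nn (q.2 - l * q.1) < c / (L₀ : ℝ) ^ i} ∪
        {q : ℝ × ℝ | nn (q.2 - n * q.1 - l * q.1) < c / (L₀ : ℝ) ^ i}) := by
    ext q
    simp [Wb]
  rw [this]
  refine MeasurableSet.iUnion fun l => MeasurableSet.iUnion fun _ => MeasurableSet.union ?_ ?_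
  · exact measurableSet_lt (nn_cont.measurable.comp (by fun_prop)) measurable_const
  · exact measurableSet_lt (nn_cont.measurable.comp (by fun_prop)) measurable_const

/-- conditions on all parameters -/
structure Par2 (D₀ L₀ : ℕ) (c κ : ℝ) : Prop where
  D8 : 8 ≤ D₀
  L1 : 1 ≤ L₀
  pars : Pars (1 / D₀) c L₀
  c1 : c * (8 * D₀) ≤ 1
  κ1 : κ ≤ 1
  κA : 4 * ((D₀ + 1) * (4 * D₀ + 1)) * c + ((D₀ + 1) * (4 * D₀ + 1) : ℕ) / (L₀ : ℝ) ≤ κ
  κW : 8 * (D₀ + 1) * D₀ * c + (2 * (D₀ + 1) : ℕ) / (L₀ : ℝ) ≤ κ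

variable {D₀ L₀ : ℕ} {c κ : ℝ}

theorem Par2.κ0 (h : Par2 D₀ L₀ c κ) : 0 ≤ κ := by
  have := h.κW
  have := h.pars.c0
  refine le_trans ?_ h.κW
  positivity

/-- the measure of the `w` for which all scales in `S` are bad -/
theorem meas_W (h : Par2 D₀ L₀ c κ) (n : ℕ) (α : ℝ) (S : Finset ℕ) :
    U {w | ∀ i ∈ S, nice D₀ L₀ i α ∧ Wb D₀ L₀ c n i α w} ≤ ENNReal.ofReal (2 * κ ^ S.card) := by
  have hκ := h.κ0
  have hL0 : (0 : ℝ) < L₀ := by exact_mod_cast h.L1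
  have hL1 : (1 : ℝ) ≤ L₀ := by exact_mod_cast h.L1
  have hD0 : (0 : ℝ) < D₀ := by
    have := h.D8
    exact_mod_cast (by omega : 0 < D₀)
  have hD1 : (8 : ℝ) ≤ D₀ := by exact_mod_cast h.D8
  have hc := h.pars.c0
  by_cases hS : ∀ i ∈ S, nice D₀ L₀ i α
  · have h1 := prodLemma (V := fun i => {w | Wb D₀ L₀ c n i α w})
      (h := fun i => 1 / (2 * (D₀ * (L₀ : ℝ) ^ i))) (ρ := 8 * (D₀ + 1) * D₀ * c) (L := L₀)
      (M := 2 * (D₀ + 1)) (by positivity) hL0 S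
      (fun i hi => locCov_W h.D8 h.L1 hc h.c1 (hS i hi)) (fun i _ => by positivity)
      (fun i _ j _ hij => ?_) 1 zero_le_one (fun i _ => ?_) 0 1 zero_le_one
    · rw [U_Icc, Measure.restrict_apply' measurableSet_Icc]
      refine (measure_mono ?_).trans (h1.trans (ENNReal.ofReal_le_ofReal ?_))
      · rintro w ⟨hw1, hw2⟩
        refine ⟨hw2, ?_⟩
        simp only [mem_iInter]
        exact fun i hi => (hw1 i hi).2
      · have h2 : (8 * ((D₀ : ℝ) + 1) * D₀ * c + ((2 * (D₀ + 1) : ℕ) : ℝ) / L₀) ^ S.card ≤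
            κ ^ S.card := pow_le_pow_left₀ (by positivity) h.κW _
        linarith
    · rw [div_div]
      obtain ⟨m, rfl⟩ : ∃ m, j = i + 1 + m := ⟨j - (i + 1), by omega⟩
      refine one_div_le_one_div_of_le (by positivity) ?_
      rw [pow_add, pow_succ]
      have : (1 : ℝ) ≤ (L₀ : ℝ) ^ m := one_le_pow₀ hL1
      have h3 : 0 ≤ 2 * (D₀ * (L₀ : ℝ) ^ i) * L₀ := by positivity
      nlinarith
    · rw [div_le_one (by positivity)]
      have : (1 : ℝ) ≤ (L₀ : ℝ) ^ i := one_le_pow₀ hL1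
      nlinarith
  · have : {w | ∀ i ∈ S, nice D₀ L₀ i α ∧ Wb D₀ L₀ c n i α w} = ∅ := by
      ext w
      simp only [mem_ofPred_eq, mem_empty_iff_false, iff_false]
      exact fun hw => hS fun i hi => (hw i hi).1
    rw [this]
    simp

/-- the measure of the `α` for which all scales in `S` are nice and bad -/
theorem meas_A (h : Par2 D₀ L₀ c κ) (n m : ℕ) (S : Finset ℕ) (hS : ∀ i ∈ S, i ≤ m)
    (hn : 2 * (D₀ * L₀ ^ m) ≤ n) :
    U {α | ∀ i ∈ S, nice D₀ L₀ i α ∧ Ab D₀ L₀ c n i α} ≤ ENNReal.ofReal (2 * κ ^ S.card) := by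
  have hκ := h.κ0
  have hL0 : (0 : ℝ) < L₀ := by exact_mod_cast h.L1
  have hL1 : (1 : ℝ) ≤ L₀ := by exact_mod_cast h.L1
  have hD0 : (0 : ℝ) < D₀ := by
    have := h.D8
    exact_mod_cast (by omega : 0 < D₀)
  have hD1 : (8 : ℝ) ≤ D₀ := by exact_mod_cast h.D8
  have hc := h.pars.c0
  have hn1 : (1 : ℝ) ≤ n := by
    have h1 : 1 ≤ L₀ ^ m := Nat.one_le_pow _ _ h.L1
    have h2 := h.D8
    have : 1 ≤ n := by nlinarith
    exact_mod_cast this
  have hni : ∀ i ∈ S, 2 * (D₀ * L₀ ^ i) ≤ n := fun i hi => by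
    have h3 : L₀ ^ i ≤ L₀ ^ m := Nat.pow_le_pow_right h.L1 (hS i hi)
    have h4 : D₀ * L₀ ^ i ≤ D₀ * L₀ ^ m := Nat.mul_le_mul_left _ h3
    omega
  have h1 := prodLemma (V := fun i => {α | nice D₀ L₀ i α ∧ Ab D₀ L₀ c n i α})
      (h := fun i => 1 / (n * (L₀ : ℝ) ^ i)) (ρ := 4 * ((D₀ + 1) * (4 * D₀ + 1)) * c) (L := L₀)
      (M := (D₀ + 1) * (4 * D₀ + 1)) (by positivity) hL0 S
      (fun i hi => locCov_A h.D8 h.L1 hc h.c1 (hni i hi)) (fun i _ => by positivity)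
      (fun i _ j _ hij => ?_) 1 zero_le_one (fun i _ => ?_) 0 1 zero_le_one
  · rw [U_Icc, Measure.restrict_apply' measurableSet_Icc]
    refine (measure_mono ?_).trans (h1.trans (ENNReal.ofReal_le_ofReal ?_))
    · rintro w ⟨hw1, hw2⟩
      refine ⟨hw2, ?_⟩
      simp only [mem_iInter]
      exact fun i hi => hw1 i hi
    · have h2 : (4 * (((D₀ : ℝ) + 1) * (4 * D₀ + 1)) * c +
          (((D₀ + 1) * (4 * D₀ + 1) : ℕ) : ℝ) / L₀) ^ S.card ≤
          κ ^ S.card := pow_le_pow_left₀ (by positivity) h.κA _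
      linarith
  · rw [div_div]
    obtain ⟨m, rfl⟩ : ∃ m, j = i + 1 + m := ⟨j - (i + 1), by omega⟩
    refine one_div_le_one_div_of_le (by positivity) ?_
    rw [pow_add, pow_succ]
    have : (1 : ℝ) ≤ (L₀ : ℝ) ^ m := one_le_pow₀ hL1
    have h3 : 0 ≤ (n * (L₀ : ℝ) ^ i) * L₀ := by positivity
    nlinarith
  · rw [div_le_one (by positivity)]
    have : (1 : ℝ) ≤ (L₀ : ℝ) ^ i := one_le_pow₀ hL1
    nlinarith

open scoped Classical in
/-- the set of the `α` with too many scales which are not nice -/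
def BJ (D₀ L₀ J : ℕ) : Set ℝ :=
  {α | J < ((Finset.Icc 1 (8 * J)).filter (fun i => ¬ nice D₀ L₀ i α)).card}

theorem BJ_meas (D₀ L₀ J : ℕ) : MeasurableSet (BJ D₀ L₀ J) := by
  classical
  have : BJ D₀ L₀ J = ⋃ T ∈ (Finset.Icc 1 (8 * J)).powerset, ⋃ (_ : J < T.card),
      ⋂ i ∈ T, {α | nice D₀ L₀ i α}ᶜ := by
    ext α
    simp only [BJ, mem_ofPred_eq, mem_iUnion, Finset.mem_powerset, exists_prop, mem_iInter,
      mem_compl_iff]
    constructor
    · intro h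
      exact ⟨_, Finset.filter_subset _ _, h, fun i hi => (Finset.mem_filter.mp hi).2⟩
    · rintro ⟨T, h1, h2, h3⟩
      refine h2.trans_le (Finset.card_le_card fun i hi => ?_)
      rw [Finset.mem_filter]
      exact ⟨h1 hi, h3 i hi⟩
  rw [this]
  refine Finset.measurableSet_biUnion _ fun T _ => MeasurableSet.iUnion fun _ => ?_
  exact Finset.measurableSet_biInter _ fun i _ => (nice_meas D₀ L₀ i).compl

/-- the dichotomy -/
theorem dich (h : Par2 D₀ L₀ c κ) {n J : ℕ} {α w : ℝ} (hw0 : 0 ≤ w) (hw1 : w ≤ 1)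
    (hα : α ∉ BJ D₀ L₀ J) (hP : 2 * (1 - c / 36) ^ J < |P w α n|) :
    ∃ S ∈ (Finset.Icc 1 (8 * J)).powerset, ∃ T ∈ (Finset.Icc 1 (8 * J)).powerset,
      6 * J ≤ S.card + T.card ∧ (∀ i ∈ S, nice D₀ L₀ i α ∧ Ab D₀ L₀ c n i α) ∧
      (∀ i ∈ T, nice D₀ L₀ i α ∧ Wb D₀ L₀ c n i α w) := by
  classical
  obtain ⟨I, hI⟩ : ∃ I, I = Finset.Icc 1 (8 * J) := ⟨_, rfl⟩
  have hcardI : I.card = 8 * J := by rw [hI]; simp
  have hc := h.pars.c0
  have hcle : c ≤ 1 / 8 := h.pars.cδ.trans h.pars.δ1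
  rw [BJ, mem_ofPred_eq, not_lt, ← hI] at hα
  rw [← hI]
  refine ⟨I.filter (fun i => nice D₀ L₀ i α ∧ Ab D₀ L₀ c n i α), ?_,
    I.filter (fun i => nice D₀ L₀ i α ∧ Wb D₀ L₀ c n i α w), ?_, ?_, ?_, ?_⟩
  · exact Finset.mem_powerset.mpr (Finset.filter_subset _ _)
  · exact Finset.mem_powerset.mpr (Finset.filter_subset _ _)
  · obtain ⟨K, hK⟩ : ∃ K, K = I.filter (fun i => nice D₀ L₀ i α ∧ ¬ Wb D₀ L₀ c n i α w ∧
        ¬ Ab D₀ L₀ c n i α) := ⟨_, rfl⟩
    -- the good scales are few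
    have hKJ : K.card < J := by
      by_contra hcon
      push Not at hcon
      have hg : ∀ k : ℕ, ∃ Q : ℕ, k ∈ K → GoodS α w n (1 / D₀) c ((L₀ : ℝ) ^ k) Q := by
        intro k
        by_cases hk : k ∈ K
        · rw [hK, Finset.mem_filter] at hk
          obtain ⟨Q, hQ⟩ := exists_good (by have := h.D8; omega) h.L1 hk.2.1 hk.2.2.1 hk.2.2.2
          exact ⟨Q, fun _ => hQ⟩
        · exact ⟨0, fun h => absurd h hk⟩
      choose Q hQ using hg
      have h1 := contraction h.pars hw0 hw1 (S := K) (fun k hk => by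
        rw [hK, hI, Finset.mem_filter, Finset.mem_Icc] at hk
        exact hk.1.1) hQ
      have h2 : (1 - c / 36) ^ K.card ≤ (1 - c / 36) ^ J :=
        pow_le_pow_of_le_one (by linarith) (by linarith) hcon
      linarith
    have hsub : I ⊆ I.filter (fun i => ¬ nice D₀ L₀ i α) ∪
        (I.filter (fun i => nice D₀ L₀ i α ∧ Ab D₀ L₀ c n i α) ∪
        (I.filter (fun i => nice D₀ L₀ i α ∧ Wb D₀ L₀ c n i α w) ∪ K)) := by
      intro i hi
      simp only [Finset.mem_union, Finset.mem_filter, hK]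
      tauto
    have h1 := Finset.card_le_card hsub
    have h2 := Finset.card_union_le (I.filter (fun i => ¬ nice D₀ L₀ i α))
      (I.filter (fun i => nice D₀ L₀ i α ∧ Ab D₀ L₀ c n i α) ∪
        (I.filter (fun i => nice D₀ L₀ i α ∧ Wb D₀ L₀ c n i α w) ∪ K))
    have h3 := Finset.card_union_le (I.filter (fun i => nice D₀ L₀ i α ∧ Ab D₀ L₀ c n i α))
        (I.filter (fun i => nice D₀ L₀ i α ∧ Wb D₀ L₀ c n i α w) ∪ K)
    have h4 := Finset.card_union_le (I.filter (fun i => nice D₀ L₀ i α ∧ Wb D₀ L₀ c n i α w)) K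
    rw [hcardI] at h1
    omega
  · exact fun i hi => (Finset.mem_filter.mp hi).2
  · exact fun i hi => (Finset.mem_filter.mp hi).2

/-- the sets in the union bound -/
def SA (D₀ L₀ : ℕ) (c : ℝ) (n : ℕ) (S : Finset ℕ) : Set ℝ :=
  {α | ∀ i ∈ S, nice D₀ L₀ i α ∧ Ab D₀ L₀ c n i α}

def SW (D₀ L₀ : ℕ) (c : ℝ) (n : ℕ) (T : Finset ℕ) : Set (ℝ × ℝ) :=
  {q | ∀ i ∈ T, nice D₀ L₀ i q.1 ∧ Wb D₀ L₀ c n i q.1 q.2}

theorem SA_meas (D₀ L₀ : ℕ) (c : ℝ) (n : ℕ) (S : Finset ℕ) : MeasurableSet (SA D₀ L₀ c n S) := by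
  have : SA D₀ L₀ c n S = ⋂ i ∈ S, ({α | nice D₀ L₀ i α} ∩ {α | Ab D₀ L₀ c n i α}) := by
    ext α
    simp [SA]
  rw [this]
  exact Finset.measurableSet_biInter _ fun i _ => (nice_meas D₀ L₀ i).inter (Ab_meas D₀ L₀ c n i)

theorem SW_meas (D₀ L₀ : ℕ) (c : ℝ) (n : ℕ) (S : Finset ℕ) : MeasurableSet (SW D₀ L₀ c n S) := by
  have : SW D₀ L₀ c n S = ⋂ i ∈ S, ((fun q : ℝ × ℝ => q.1) ⁻¹' {α | nice D₀ L₀ i α} ∩
      {q : ℝ × ℝ | Wb D₀ L₀ c n i q.1 q.2}) := by
    ext α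
    simp [SW]
  rw [this]
  exact Finset.measurableSet_biInter _ fun i _ =>
    (measurable_fst (nice_meas D₀ L₀ i)).inter (Wb_meas D₀ L₀ c n i)

open scoped Classical in
theorem main_est (h : Par2 D₀ L₀ c κ) (N n J : ℕ) (hn : 2 * (D₀ * L₀ ^ (8 * J)) ≤ n) :
    ∫⁻ α in (BJ D₀ L₀ J)ᶜ, ∫⁻ w, ENNReal.ofReal (|P w α n| ^ N) ∂U ∂U ≤
      ENNReal.ofReal (2 ^ (16 * J) * (4 * κ ^ (6 * J)) + (2 * (1 - c / 36) ^ J) ^ N) := by
  have hκ := h.κ0
  have hκ1 := h.κ1
  have hc := h.pars.c0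
  have hcle : c ≤ 1 / 8 := h.pars.cδ.trans h.pars.δ1
  obtain ⟨B, hB⟩ : ∃ B : ℝ, B = 2 * (1 - c / 36) ^ J := ⟨_, rfl⟩
  have hB0 : 0 ≤ B := by
    rw [hB]
    have : 0 ≤ 1 - c / 36 := by linarith
    positivity
  obtain ⟨W, hW⟩ : ∃ W, W = (Finset.Icc 1 (8 * J)).powerset := ⟨_, rfl⟩
  have hWc : W.card = 2 ^ (8 * J) := by
    rw [hW, Finset.card_powerset]
    simp
  obtain ⟨R, hR⟩ : ∃ R : Finset ℕ → Finset ℕ → ℝ → ℝ → ENNReal, R = fun S T α w =>
    if 6 * J ≤ S.card + T.card then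
      (SA D₀ L₀ c n S).indicator (fun _ => (1 : ENNReal)) α *
      (SW D₀ L₀ c n T).indicator (fun _ => (1 : ENNReal)) (α, w) else 0 := ⟨_, rfl⟩
  have hRm : ∀ S T, Measurable (fun q : ℝ × ℝ => R S T q.1 q.2) := by
    intro S T
    rw [hR]
    by_cases hcard : 6 * J ≤ S.card + T.card
    · simp only [hcard, if_true]
      exact ((measurable_const.indicator (SA_meas D₀ L₀ c n S)).comp measurable_fst).mul
        (measurable_const.indicator (SW_meas D₀ L₀ c n T))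
    · simp only [hcard, if_false]
      exact measurable_const
  -- the pointwise bound
  have hpt : ∀ α ∈ (BJ D₀ L₀ J)ᶜ, ∀ w ∈ Ico (0 : ℝ) 1, ENNReal.ofReal (|P w α n| ^ N) ≤
      ENNReal.ofReal (B ^ N) + ∑ S ∈ W, ∑ T ∈ W, R S T α w := by
    intro α hα w hw
    by_cases hP : B < |P w α n|
    · rw [hB] at hP
      obtain ⟨S, hS, T, hT, hcard, h1, h2⟩ := dich h hw.1 hw.2.le hα hP
      rw [← hW] at hS hT
      have h3 : R S T α w = 1 := by
        rw [hR]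
        simp only [hcard, if_true]
        rw [indicator_of_mem (show α ∈ SA D₀ L₀ c n S from h1),
          indicator_of_mem (show (α, w) ∈ SW D₀ L₀ c n T from h2), mul_one]
      have h4 : (1 : ENNReal) ≤ ∑ S ∈ W, ∑ T ∈ W, R S T α w := by
        rw [← h3]
        exact (Finset.single_le_sum (f := fun T => R S T α w) (fun _ _ => zero_le) hT).trans
          (Finset.single_le_sum (f := fun S => ∑ T ∈ W, R S T α w) (fun _ _ => zero_le) hS)
      refine le_trans ?_ (h4.trans le_add_self)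
      rw [← ENNReal.ofReal_one]
      exact ENNReal.ofReal_le_ofReal (pow_le_one₀ (abs_nonneg _) (P_le w α n))
    · push Not at hP
      refine le_trans (ENNReal.ofReal_le_ofReal ?_) le_self_add
      exact pow_le_pow_left₀ (abs_nonneg _) hP N
  -- one pair of sets
  have hone : ∀ S ∈ W, ∀ T ∈ W, ∫⁻ α, ∫⁻ w, R S T α w ∂U ∂U ≤ ENNReal.ofReal (4 * κ ^ (6 * J)) := by
    intro S hS T hT
    rw [hR]
    by_cases hcard : 6 * J ≤ S.card + T.card
    · simp only [hcard, if_true]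
      have hle : ∀ i ∈ S, i ≤ 8 * J := fun i hi => by
        rw [hW, Finset.mem_powerset] at hS
        exact (Finset.mem_Icc.mp (hS hi)).2
      have h1 : ∀ α : ℝ, ∫⁻ w, (SA D₀ L₀ c n S).indicator (fun _ => (1 : ENNReal)) α *
          (SW D₀ L₀ c n T).indicator (fun _ => (1 : ENNReal)) (α, w) ∂U ≤
          (SA D₀ L₀ c n S).indicator (fun _ => (1 : ENNReal)) α *
            ENNReal.ofReal (2 * κ ^ T.card) := by
        intro α
        have hm : Measurable (fun w : ℝ => (SW D₀ L₀ c n T).indicator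
            (fun _ => (1 : ENNReal)) (α, w)) :=
          (measurable_const.indicator (SW_meas D₀ L₀ c n T)).comp (by fun_prop)
        rw [lintegral_const_mul _ hm]
        gcongr
        refine le_trans (le_of_eq ?_) (meas_W h n α T)
        have hs : MeasurableSet ((fun w : ℝ => (α, w)) ⁻¹' SW D₀ L₀ c n T) :=
          (by fun_prop : Measurable (fun w : ℝ => (α, w))) (SW_meas D₀ L₀ c n T)
        change _ = U ((fun w : ℝ => (α, w)) ⁻¹' SW D₀ L₀ c n T)
        rw [← lintegral_indicator_one hs]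
        rfl
      refine (lintegral_mono h1).trans ?_
      rw [lintegral_mul_const _ (measurable_const.indicator (SA_meas D₀ L₀ c n S)),
        lintegral_indicator_const (SA_meas D₀ L₀ c n S), one_mul]
      refine (mul_le_mul_left (meas_A h n (8 * J) S hle hn) _).trans ?_
      rw [← ENNReal.ofReal_mul (by positivity)]
      refine ENNReal.ofReal_le_ofReal ?_
      have h2 : κ ^ S.card * κ ^ T.card ≤ κ ^ (6 * J) := by
        rw [← pow_add]
        exact pow_le_pow_of_le_one hκ hκ1 hcard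
      nlinarith
    · simp only [hcard, if_false]
      simp
  calc ∫⁻ α in (BJ D₀ L₀ J)ᶜ, ∫⁻ w, ENNReal.ofReal (|P w α n| ^ N) ∂U ∂U
      ≤ ∫⁻ α in (BJ D₀ L₀ J)ᶜ, ∫⁻ w, (ENNReal.ofReal (B ^ N) + ∑ S ∈ W, ∑ T ∈ W, R S T α w) ∂U ∂U := by
        refine setLIntegral_mono' (BJ_meas D₀ L₀ J).compl fun α hα => ?_
        refine lintegral_mono_ae ?_
        filter_upwards [U_ae] with w hw using hpt α hα w hw
    _ ≤ ∫⁻ α, ∫⁻ w, (ENNReal.ofReal (B ^ N) + ∑ S ∈ W, ∑ T ∈ W, R S T α w) ∂U ∂U :=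
        setLIntegral_le_lintegral _ _
    _ = ENNReal.ofReal (B ^ N) + ∑ S ∈ W, ∑ T ∈ W, ∫⁻ α, ∫⁻ w, R S T α w ∂U ∂U := by
        have hm1 : ∀ (S T : Finset ℕ) (α : ℝ), Measurable (fun w => R S T α w) := fun S T α =>
          (hRm S T).comp (by fun_prop : Measurable fun w : ℝ => (α, w))
        have hm2 : ∀ (S T : Finset ℕ), Measurable (fun α => ∫⁻ w, R S T α w ∂U) := fun S T =>
          (hRm S T).lintegral_prod_right'
        have e1 : ∀ α, ∫⁻ w, (ENNReal.ofReal (B ^ N) + ∑ S ∈ W, ∑ T ∈ W, R S T α w) ∂U =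
            ENNReal.ofReal (B ^ N) + ∑ S ∈ W, ∑ T ∈ W, ∫⁻ w, R S T α w ∂U := by
          intro α
          rw [lintegral_add_left measurable_const, lintegral_const, measure_univ, mul_one,
            lintegral_finsetSum _ (fun S _ => Finset.measurable_sum _ fun T _ => hm1 S T α)]
          congr 1
          refine Finset.sum_congr rfl fun S _ => ?_
          rw [lintegral_finsetSum _ (fun T _ => hm1 S T α)]
        simp only [e1]
        rw [lintegral_add_left measurable_const, lintegral_const, measure_univ, mul_one,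
            lintegral_finsetSum _ (fun S _ => Finset.measurable_sum _ fun T _ => hm2 S T)]
        congr 1
        refine Finset.sum_congr rfl fun S _ => ?_
        rw [lintegral_finsetSum _ (fun T _ => hm2 S T)]
    _ ≤ ENNReal.ofReal (B ^ N) + ∑ S ∈ W, ∑ T ∈ W, ENNReal.ofReal (4 * κ ^ (6 * J)) := by
        gcongr with S hS T hT
        exact hone S hS T hT
    _ = ENNReal.ofReal (2 ^ (16 * J) * (4 * κ ^ (6 * J)) + B ^ N) := by
        have e2 : (2 : ℝ) ^ (16 * J) = ((2 ^ (8 * J) * 2 ^ (8 * J) : ℕ) : ℝ) := by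
          push_cast
          rw [← pow_add]
          congr 1
          ring
        rw [Finset.sum_const, Finset.sum_const, smul_smul, hWc, nsmul_eq_mul, add_comm,
          ENNReal.ofReal_add (by positivity) (by positivity), e2,
          ENNReal.ofReal_mul (Nat.cast_nonneg _), ENNReal.ofReal_natCast]
    _ = _ := by rw [hB]

end Pool.Agent.K1H30.SP
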