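import Pool.Agent.K1H30.SP.Per

/-! Translation surfaces glued from finitely many copies of a parallelogram, and their directional
flows. -/

open Set MeasureTheory

set_option autoImplicit false

namespace Pool.Agent.K1H30.SP

/-- Gluing data of a compact connected translation surface. Take one copy, for every `s : S`, of
the parallelogram `{x e₁ + y e₂ : 0 ≤ x ≤ 1, 0 ≤ y ≤ 1}`. The right side of every copy is glued by a
translation to its own left side. The top side of every copy is cut at the points `x e₁ + e₂`,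
`x ∈ cuts`, and every piece of the top side of copy `s` is glued by a translation to the same piece
of the bottom side of the copy `π x s`, where `x` is any point inside the piece (`π` is constant on
every piece; its values at the cut points are only a convention about singular orbits). -/
structure GluedSurface (S : Type) where
  e₁ : ℝ × ℝ
  e₂ : ℝ × ℝ
  det_ne : e₁.1 * e₂.2 - e₁.2 * e₂.1 ≠ 0
  cuts : Finset ℝ
  π : ℝ → Equiv.Perm S
  piece : ∀ x y : ℝ, 0 ≤ x → x ≤ y → y < 1 → (∀ c ∈ cuts, c ∉ Icc x y) → π x = π y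
  connected : ∀ s s' : S, ∃ σ ∈ Subgroup.closure (π '' Ico 0 1), σ s = s'

variable {S : Type}

/-- The sheet reached from a sheet at height `0+` by going up `n` levels; the line crosses the
height `k` at the point with first coordinate `x + k α`. -/
noncomputable def up (π : ℝ → Equiv.Perm S) (α : ℝ) : ℕ → ℝ → Equiv.Perm S
  | 0, _ => 1
  | n + 1, x => π (Int.fract (x + ((n : ℝ) + 1) * α)) * up π α n x

/-- The same for any integer number of levels. -/
noncomputable def mono (π : ℝ → Equiv.Perm S) (α : ℝ) (m : ℤ) (x : ℝ) : Equiv.Perm S :=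
  if 0 ≤ m then up π α m.toNat x else (up π α (-m).toNat (x + m * α))⁻¹

namespace GluedSurface

/-- A point `((x, y), s)`, with `x, y ∈ [0,1)`, stands for the point `x e₁ + y e₂` of the copy
`s`. -/
abbrev Pt (_ : GluedSurface S) : Type := (ℝ × ℝ) × S

/-- The coordinates, in the basis `e₁, e₂`, of the unit vector `(sin θ, cos θ)`: the vertical flow
of `e^{iθ} ω` moves every point in the direction `i e^{-iθ}` of the plane. -/
noncomputable def v₁ (X : GluedSurface S) (θ : ℝ) : ℝ :=
  (Real.sin θ * X.e₂.2 - Real.cos θ * X.e₂.1) / (X.e₁.1 * X.e₂.2 - X.e₁.2 * X.e₂.1)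

@[inherit_doc v₁]
noncomputable def v₂ (X : GluedSurface S) (θ : ℝ) : ℝ :=
  (X.e₁.1 * Real.cos θ - X.e₁.2 * Real.sin θ) / (X.e₁.1 * X.e₂.2 - X.e₁.2 * X.e₂.1)

/-- The time `t` of the straight-line flow in direction `(sin θ, cos θ)`: from the point
`((x, y), s)` the line moves to `(x + t v₁, y + t v₂)`; it crosses the horizontal level `k` of the
unfolded plane at first coordinate `x + (k - y) v₁ / v₂`, and changes the copy there. -/
noncomputable def flow (X : GluedSurface S) (θ t : ℝ) (p : X.Pt) : X.Pt :=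
  ((Int.fract (p.1.1 + t * X.v₁ θ), Int.fract (p.1.2 + t * X.v₂ θ)),
    mono X.π (X.v₁ θ / X.v₂ θ) ⌊p.1.2 + t * X.v₂ θ⌋ (p.1.1 - p.1.2 * (X.v₁ θ / X.v₂ θ)) p.2)

/-- The normalised area: Lebesgue measure on `[0,1)²` times the uniform measure on the copies. -/
noncomputable def area [Fintype S] [MeasurableSpace S] (X : GluedSurface S) : Measure X.Pt :=
  (U.prod U).prod ((Fintype.card S : ENNReal)⁻¹ • Measure.count)

end GluedSurface

/-! ### The cocycle -/

section cocycle

variable (π : ℝ → Equiv.Perm S) (α : ℝ)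

theorem up_int (n : ℕ) (x : ℝ) (a : ℤ) : up π α n (x + a) = up π α n x := by
  induction n with
  | zero => rfl
  | succ n ih =>
    simp only [up]
    rw [ih, add_right_comm, Int.fract_add_intCast]

theorem up_first (n : ℕ) (x : ℝ) :
    up π α (n + 1) x = up π α n (x + α) * π (Int.fract (x + α)) := by
  induction n with
  | zero => simp [up]
  | succ n ih =>
    rw [up, ih, up, mul_assoc]
    congr 3
    push_cast
    ring

theorem mono_zero (x : ℝ) : mono π α 0 x = 1 := by simp [mono, up]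

theorem mono_int (m : ℤ) (x : ℝ) (a : ℤ) : mono π α m (x + a) = mono π α m x := by
  unfold mono
  rw [add_right_comm, up_int, up_int]

theorem mono_succ (m : ℤ) (x : ℝ) :
    mono π α (m + 1) x = π (Int.fract (x + (m + 1) * α)) * mono π α m x := by
  rcases lt_trichotomy m (-1) with h | h | h
  · obtain ⟨n, hn⟩ : ∃ n : ℕ, m = -(n : ℤ) - 2 := ⟨(-m - 2).toNat, by omega⟩
    subst hn
    have e1 : mono π α (-(n : ℤ) - 2 + 1) x = (up π α (n + 1) (x + (-(n : ℤ) - 2 + 1 : ℤ) * α))⁻¹ := by
      unfold mono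
      rw [if_neg (by omega)]
      congr 2
      omega
    have e2 : mono π α (-(n : ℤ) - 2) x = (up π α (n + 2) (x + (-(n : ℤ) - 2 : ℤ) * α))⁻¹ := by
      unfold mono
      rw [if_neg (by omega)]
      congr 2
      omega
    rw [e1, e2, up_first π α (n + 1), mul_inv_rev]
    have e3 : x + ((-(n : ℤ) - 2 : ℤ) : ℝ) * α + α = x + ((-(n : ℤ) - 2 + 1 : ℤ) : ℝ) * α := by
      push_cast
      ring
    have e4 : x + (((-(n : ℤ) - 2 : ℤ) : ℝ) + 1) * α = x + ((-(n : ℤ) - 2 + 1 : ℤ) : ℝ) * α := by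
      push_cast
      ring
    rw [e3, e4, mul_inv_cancel_left]
  · subst h
    unfold mono
    simp [up]
  · obtain ⟨n, hn⟩ : ∃ n : ℕ, m = n := ⟨m.toNat, by omega⟩
    subst hn
    unfold mono
    rw [if_pos (by omega), if_pos (by omega)]
    have : ((n : ℤ) + 1).toNat = n + 1 := by omega
    rw [this, Int.toNat_natCast, up]
    push_cast
    rfl

theorem mono_add (m l : ℤ) (x : ℝ) :
    mono π α (m + l) x = mono π α m (x + l * α) * mono π α l x := by
  induction m using Int.induction_on with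
  | zero => simp [mono_zero]
  | succ i ih =>
    rw [mono_succ, mul_assoc, ← ih, add_right_comm, mono_succ]
    congr 3
    push_cast
    ring
  | pred i ih =>
    have h1 := mono_succ π α (-(i : ℤ) - 1) (x + l * α)
    have h2 := mono_succ π α (-(i : ℤ) - 1 + l) x
    have e1 : (-(i : ℤ) - 1 + l + 1) = -i + l := by ring
    have e2 : (-(i : ℤ) - 1 + 1) = -i := by ring
    rw [e1, ih] at h2
    rw [e2] at h1
    rw [h1, mul_assoc] at h2
    have e3 : x + (l : ℝ) * α + (((-(i : ℤ) - 1 : ℤ) : ℝ) + 1) * α =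
      x + (((-(i : ℤ) - 1 + l : ℤ) : ℝ) + 1) * α := by
      push_cast
      ring
    rw [e3] at h2
    exact (mul_left_cancel h2).symm

end cocycle

/-! ### The flow is a measure preserving action -/

namespace GluedSurface

variable (X : GluedSurface S)

theorem flow_add (θ t t' : ℝ) (p : X.Pt) :
    X.flow θ t' (X.flow θ t p) = X.flow θ (t + t') p := by
  obtain ⟨⟨x, y⟩, s⟩ := p
  unfold flow
  obtain ⟨v, hv⟩ : ∃ v, X.v₁ θ = v := ⟨_, rfl⟩
  obtain ⟨w, hw⟩ : ∃ w, X.v₂ θ = w := ⟨_, rfl⟩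
  simp only [hw, hv]
  obtain ⟨α, hα⟩ : ∃ α, v / w = α := ⟨_, rfl⟩
  simp only [hα]
  have h1 : Int.fract (Int.fract (x + t * v) + t' * v) = Int.fract (x + (t + t') * v) := by
    rw [show x + (t + t') * v = Int.fract (x + t * v) + t' * v + (⌊x + t * v⌋ : ℤ) by
      rw [← Int.self_sub_floor]; ring]
    rw [Int.fract_add_intCast]
  have h2 : Int.fract (Int.fract (y + t * w) + t' * w) = Int.fract (y + (t + t') * w) := by
    rw [show y + (t + t') * w = Int.fract (y + t * w) + t' * w + (⌊y + t * w⌋ : ℤ) by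
      rw [← Int.self_sub_floor]; ring]
    rw [Int.fract_add_intCast]
  have h3 : ⌊y + (t + t') * w⌋ = ⌊Int.fract (y + t * w) + t' * w⌋ + ⌊y + t * w⌋ := by
    rw [← Int.floor_add_intCast]
    congr 1
    rw [← Int.self_sub_floor]
    ring
  rw [h1, h2, h3, mono_add, Equiv.Perm.mul_apply]
  congr 2
  -- the base points agree modulo one
  by_cases hw0 : w = 0
  · have hα0 : α = 0 := by rw [← hα, hw0, div_zero]
    simp only [hα0, mul_zero, sub_zero, add_zero, hw0]
    rw [show Int.fract (x + t * v) = x + t * v + ((-⌊x + t * v⌋ : ℤ) : ℝ) by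
      rw [← Int.self_sub_floor]; push_cast; ring, mono_int]
    have : ⌊Int.fract y⌋ = 0 := Int.floor_fract y
    rw [this, mono_zero, mono_zero]
  · have hv' : v = α * w := by rw [← hα]; field_simp
    rw [show Int.fract (x + t * v) - Int.fract (y + t * w) * α =
      x - y * α + (⌊y + t * w⌋ : ℝ) * α + ((-⌊x + t * v⌋ : ℤ) : ℝ) by
      rw [← Int.self_sub_floor, ← Int.self_sub_floor, hv']
      push_cast
      ring, mono_int]

theorem flow_zero (θ : ℝ) (p : X.Pt) (h1 : p.1.1 ∈ Ico (0 : ℝ) 1) (h2 : p.1.2 ∈ Ico (0 : ℝ) 1) :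
    X.flow θ 0 p = p := by
  obtain ⟨⟨x, y⟩, s⟩ := p
  unfold flow
  simp only [zero_mul, add_zero] at *
  rw [Int.fract_eq_self.mpr ⟨h1.1, h1.2⟩, Int.fract_eq_self.mpr ⟨h2.1, h2.2⟩,
    Int.floor_eq_zero_iff.mpr h2, mono_zero]
  rfl

theorem π_meas (s s' : S) : MeasurableSet {x : ℝ | X.π (Int.fract x) s = s'} := by
  obtain ⟨F, hF⟩ : ∃ F : Set ℝ, F = (X.cuts : Set ℝ) ∪ {0, 1} := ⟨_, rfl⟩
  have hFf : F.Finite := by
    rw [hF]
    exact X.cuts.finite_toSet.union (by simp)
  have hB : MeasurableSet {y : ℝ | y ∈ Ico (0 : ℝ) 1 ∧ X.π y s = s'} := by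
    rw [← sdiff_union_inter {y : ℝ | y ∈ Ico (0 : ℝ) 1 ∧ X.π y s = s'} F]
    refine MeasurableSet.union ?_ (hFf.subset inter_subset_right).measurableSet
    refine IsOpen.measurableSet ?_
    rw [Metric.isOpen_iff]
    rintro y ⟨⟨hy1, hy2⟩, hy3⟩
    have hop : IsOpen Fᶜ := hFf.isClosed.isOpen_compl
    obtain ⟨ε, hε, hball⟩ := Metric.isOpen_iff.mp hop y hy3
    have hy0 : 0 < y := by
      rcases hy1.1.lt_or_eq with h | h
      · exact h
      · exact absurd (by rw [hF]; right; left; exact h.symm) hy3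
    have hmin : 0 < min ε (min y (1 - y)) := lt_min hε (lt_min hy0 (by linarith [hy1.2]))
    refine ⟨min ε (min y (1 - y)), hmin, fun z hz => ?_⟩
    rw [Metric.mem_ball, Real.dist_eq] at hz
    have hz1 : |z - y| < ε := hz.trans_le (min_le_left _ _)
    have hz2 : |z - y| < y := hz.trans_le ((min_le_right _ _).trans (min_le_left _ _))
    have hz3 : |z - y| < 1 - y := hz.trans_le ((min_le_right _ _).trans (min_le_right _ _))
    have hz4 := abs_lt.mp hz2
    have hz5 := abs_lt.mp hz3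
    have hcut : ∀ u : ℝ, |u - y| ≤ |z - y| → u ∉ F := fun u hu => by
      have : u ∈ Metric.ball y ε := by
        rw [Metric.mem_ball, Real.dist_eq]
        exact hu.trans_lt hz1
      exact hball this
    have hzF : z ∉ F := hcut z le_rfl
    refine ⟨⟨⟨by linarith, by linarith⟩, ?_⟩, hzF⟩
    have : X.π z = X.π y := by
      rcases le_total z y with hzy | hzy
      · refine X.piece z y (by linarith) hzy (by linarith) fun c hc hc2 => ?_
        refine hcut c ?_ (by rw [hF]; left; exact hc)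
        rw [abs_of_nonpos (by linarith [hc2.2]), abs_of_nonpos (by linarith)]
        linarith [hc2.1]
      · refine (X.piece y z (by linarith) hzy (by linarith) fun c hc hc2 => ?_).symm
        refine hcut c ?_ (by rw [hF]; left; exact hc)
        rw [abs_of_nonneg (by linarith [hc2.1]), abs_of_nonneg (by linarith)]
        linarith [hc2.2]
    rw [this]
    exact hy2
  have : {x : ℝ | X.π (Int.fract x) s = s'} =
      (fun x : ℝ => Int.fract x) ⁻¹' {y : ℝ | y ∈ Ico (0 : ℝ) 1 ∧ X.π y s = s'} := by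
    ext x
    simp only [mem_ofPred_eq, mem_preimage, mem_Ico, Int.fract_nonneg, Int.fract_lt_one, true_and]
  rw [this]
  exact measurable_fract hB

theorem up_meas [Finite S] (α : ℝ) (n : ℕ) (s s' : S) :
    MeasurableSet {x : ℝ | up X.π α n x s = s'} := by
  induction n generalizing s' with
  | zero => simp [up]
  | succ n ih =>
    have : {x : ℝ | up X.π α (n + 1) x s = s'} = ⋃ s'' : S, ({x : ℝ | up X.π α n x s = s''} ∩
        (fun x : ℝ => x + ((n : ℝ) + 1) * α) ⁻¹' {x : ℝ | X.π (Int.fract x) s'' = s'}) := by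
      ext x
      simp [up]
    rw [this]
    exact MeasurableSet.iUnion fun s'' => (ih s'').inter
      ((measurable_id.add_const _) (X.π_meas s'' s'))

theorem mono_meas [Finite S] (α : ℝ) (m : ℤ) (s s' : S) :
    MeasurableSet {x : ℝ | mono X.π α m x s = s'} := by
  unfold mono
  split_ifs
  · exact X.up_meas α _ s s'
  · have : {x : ℝ | (up X.π α (-m).toNat (x + m * α))⁻¹ s = s'} =
        (fun x : ℝ => x + m * α) ⁻¹' {x : ℝ | up X.π α (-m).toNat x s' = s} := by
      ext x
      simp only [mem_ofPred_eq, mem_preimage]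
      rw [Equiv.Perm.inv_eq_iff_eq]
      exact eq_comm
    rw [this]
    exact (measurable_id.add_const _) (X.up_meas α _ s' s)

/-- The motion inside a copy is a straight line. -/
theorem flow_inside (θ t x y : ℝ) (s : S) (hx : x + t * X.v₁ θ ∈ Ico (0 : ℝ) 1)
    (hy : y + t * X.v₂ θ ∈ Ico (0 : ℝ) 1) :
    X.flow θ t ((x, y), s) = ((x + t * X.v₁ θ, y + t * X.v₂ θ), s) := by
  unfold flow
  simp only
  rw [Int.fract_eq_self.mpr ⟨hx.1, hx.2⟩, Int.fract_eq_self.mpr ⟨hy.1, hy.2⟩,
    Int.floor_eq_zero_iff.mpr hy, mono_zero]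
  rfl

/-- Crossing the right side: the line reenters the same copy through its left side. -/
theorem flow_right (θ t x y : ℝ) (s : S) (hx : x + t * X.v₁ θ ∈ Ico (1 : ℝ) 2)
    (hy : y + t * X.v₂ θ ∈ Ico (0 : ℝ) 1) :
    X.flow θ t ((x, y), s) = ((x + t * X.v₁ θ - 1, y + t * X.v₂ θ), s) := by
  unfold flow
  simp only
  have h1 : Int.fract (x + t * X.v₁ θ) = x + t * X.v₁ θ - 1 := by
    rw [Int.fract_eq_iff]
    exact ⟨by linarith [hx.1], by linarith [hx.2], 1, by push_cast; ring⟩
  rw [h1, Int.fract_eq_self.mpr ⟨hy.1, hy.2⟩,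
    Int.floor_eq_zero_iff.mpr hy, mono_zero]
  rfl

/-- Crossing the top side at the point with first coordinate `x + (1 - y) v₁ / v₂`: the line
enters the copy prescribed by the gluing. -/
theorem flow_top (θ t x y : ℝ) (s : S) (hx : x + t * X.v₁ θ ∈ Ico (0 : ℝ) 1)
    (hy : y + t * X.v₂ θ ∈ Ico (1 : ℝ) 2)
    (hc : x + (1 - y) * (X.v₁ θ / X.v₂ θ) ∈ Ico (0 : ℝ) 1) :
    X.flow θ t ((x, y), s) = ((x + t * X.v₁ θ, y + t * X.v₂ θ - 1),
      X.π (x + (1 - y) * (X.v₁ θ / X.v₂ θ)) s) := by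
  unfold flow
  simp only
  have h1 : Int.fract (y + t * X.v₂ θ) = y + t * X.v₂ θ - 1 := by
    rw [Int.fract_eq_iff]
    exact ⟨by linarith [hy.1], by linarith [hy.2], 1, by push_cast; ring⟩
  have h2 : ⌊y + t * X.v₂ θ⌋ = 1 := by
    rw [Int.floor_eq_iff]
    exact ⟨by push_cast; exact hy.1, by push_cast; linarith [hy.2]⟩
  have h3 : mono X.π (X.v₁ θ / X.v₂ θ) 1 (x - y * (X.v₁ θ / X.v₂ θ)) =
      X.π (x + (1 - y) * (X.v₁ θ / X.v₂ θ)) := by
    have := mono_succ X.π (X.v₁ θ / X.v₂ θ) 0 (x - y * (X.v₁ θ / X.v₂ θ))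
    rw [mono_zero, mul_one] at this
    rw [zero_add] at this
    rw [this]
    congr 1
    rw [show x - y * (X.v₁ θ / X.v₂ θ) + (((0 : ℤ) : ℝ) + 1) * (X.v₁ θ / X.v₂ θ) =
      x + (1 - y) * (X.v₁ θ / X.v₂ θ) by push_cast; ring]
    exact Int.fract_eq_self.mpr ⟨hc.1, hc.2⟩
  rw [h1, h2, h3, Int.fract_eq_self.mpr ⟨hx.1, hx.2⟩]

variable [Fintype S] [MeasurableSpace S] [DiscreteMeasurableSpace S]

theorem sheet_meas (θ t : ℝ) : Measurable (fun p : X.Pt => mono X.π (X.v₁ θ / X.v₂ θ)
    ⌊p.1.2 + t * X.v₂ θ⌋ (p.1.1 - p.1.2 * (X.v₁ θ / X.v₂ θ)) p.2) := by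
  refine measurable_to_countable' fun s' => ?_
  have : (fun p : X.Pt => mono X.π (X.v₁ θ / X.v₂ θ)
      ⌊p.1.2 + t * X.v₂ θ⌋ (p.1.1 - p.1.2 * (X.v₁ θ / X.v₂ θ)) p.2) ⁻¹' {s'} =
      ⋃ m : ℤ, ⋃ s : S, ((fun p : X.Pt => ⌊p.1.2 + t * X.v₂ θ⌋) ⁻¹' {m} ∩ (fun p : X.Pt => p.2) ⁻¹' {s} ∩
        (fun p : X.Pt => p.1.1 - p.1.2 * (X.v₁ θ / X.v₂ θ)) ⁻¹'
          {x | mono X.π (X.v₁ θ / X.v₂ θ) m x s = s'}) := by
    ext p
    simp only [mem_preimage, mem_singleton_iff, mem_iUnion, mem_inter_iff, mem_ofPred_eq]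
    constructor
    · intro h
      exact ⟨_, _, ⟨rfl, rfl⟩, h⟩
    · rintro ⟨m, s, ⟨h1, h2⟩, h3⟩
      rw [h1, h2]
      exact h3
  rw [this]
  refine MeasurableSet.iUnion fun m => MeasurableSet.iUnion fun s => ?_
  refine MeasurableSet.inter (MeasurableSet.inter ?_ ?_) ?_
  · exact (Measurable.floor (by fun_prop)) (measurableSet_singleton m)
  · exact measurable_snd (measurableSet_singleton s)
  · exact (by fun_prop : Measurable fun p : X.Pt => p.1.1 - p.1.2 * (X.v₁ θ / X.v₂ θ))
      (X.mono_meas _ m s s')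

theorem flow_meas (θ t : ℝ) : Measurable (X.flow θ t) := by
  unfold flow
  exact Measurable.prodMk (by fun_prop) (X.sheet_meas θ t)

theorem map_count (σ : Equiv.Perm S) (c : ENNReal) :
    Measure.map σ (c • (Measure.count : Measure S)) = c • Measure.count := by
  rw [Measure.map_smul]
  congr 1
  refine Measure.ext fun A hA => ?_
  rw [Measure.map_apply (measurable_of_countable _) hA, Measure.count_apply (by measurability),
    Measure.count_apply hA, ← Equiv.image_symm_eq_preimage, (σ.symm.injective).encard_image]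

instance [Nonempty S] : IsProbabilityMeasure (X.area) := by
  unfold area
  have : IsProbabilityMeasure ((Fintype.card S : ENNReal)⁻¹ • (Measure.count : Measure S)) := by
    refine ⟨?_⟩
    rw [Measure.smul_apply, Measure.count_univ, smul_eq_mul]
    have h1 : ((Fintype.card S : ℕ) : ENNReal) ≠ 0 := by
      exact_mod_cast Fintype.card_ne_zero
    simp only [ENat.card_eq_coe_fintype_card]
    exact ENNReal.inv_mul_cancel h1 (ENNReal.natCast_ne_top _)
  infer_instance

theorem flow_mp (θ t : ℝ) [Nonempty S] : MeasurePreserving (X.flow θ t) X.area X.area := by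
  have h1 : MeasurePreserving (fun q : ℝ × ℝ => (Int.fract (q.1 + t * X.v₁ θ),
      Int.fract (q.2 + t * X.v₂ θ))) (U.prod U) (U.prod U) :=
    (U_shift (t * X.v₁ θ)).prod (U_shift (t * X.v₂ θ))
  have : SFinite ((Fintype.card S : ENNReal)⁻¹ • (Measure.count : Measure S)) := inferInstance
  exact MeasurePreserving.skew_product (μc := ((Fintype.card S : ENNReal)⁻¹ • (Measure.count : Measure S)))
    (μd := ((Fintype.card S : ENNReal)⁻¹ • (Measure.count : Measure S))) h1
    (g := fun q s => mono X.π (X.v₁ θ / X.v₂ θ)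
      ⌊q.2 + t * X.v₂ θ⌋ (q.1 - q.2 * (X.v₁ θ / X.v₂ θ)) s) (X.sheet_meas θ t)
    (Filter.Eventually.of_forall fun q => map_count _ _)

end GluedSurface

end Pool.Agent.K1H30.SP
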