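import Pool.Agent.K1H30.SP.Gen
import Pool.Agent.K1H30.SP.Surf

/-! The family of surfaces, and the correlations of the sheet functions. -/

open Set MeasureTheory Filter

set_option autoImplicit false

namespace Pool.Agent.K1H30.SP

variable {N : ℕ}

/-- the sign with jumps at the points `z i` -/
noncomputable def chi (z : Fin N → ℝ) (x : ℝ) : ℝ := ∏ i, (-1 : ℝ) ^ (b (z i) x)

theorem chi_or (z : Fin N → ℝ) (x : ℝ) : chi z x = 1 ∨ chi z x = -1 := by
  have h : |chi z x| = 1 := by
    unfold chi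
    rw [Finset.abs_prod]
    refine Finset.prod_eq_one fun i _ => ?_
    rw [abs_zpow]
    simp
  rcases eq_or_eq_neg_of_abs_eq h with h | h
  · exact Or.inl h
  · exact Or.inr h

open scoped Classical in
/-- the permutation of the two sheets with the given sign -/
noncomputable def bx (r : ℝ) : Equiv.Perm Bool := if r = -1 then Equiv.boolNot else 1

/-- the sign of a sheet -/
noncomputable def sg (s : Bool) : ℝ := if s then -1 else 1

theorem sg_sq (s : Bool) : sg s * sg s = 1 := by cases s <;> simp [sg]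

theorem sg_abs (s : Bool) : |sg s| = 1 := by cases s <;> simp [sg]

theorem bx_sg {r : ℝ} (hr : r = 1 ∨ r = -1) (s : Bool) : sg (bx r s) = r * sg s := by
  unfold bx
  rcases hr with h | h
  · subst h
    have : ¬ ((1 : ℝ) = -1) := by norm_num
    simp [this]
  · subst h
    cases s <;> simp [sg]

theorem b_fract (w x : ℝ) : b w (Int.fract x) = b w x := by
  unfold b
  rw [Int.fract_fract]

theorem chi_fract (z : Fin N → ℝ) (x : ℝ) : chi z (Int.fract x) = chi z x := by
  unfold chi
  simp only [b_fract]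

/-- gluing permutations -/
noncomputable def pip (z z' : Fin N → ℝ) (x : ℝ) : Equiv.Perm (Bool × Bool) :=
  Equiv.prodCongr (bx (chi z x)) (bx (chi z' x))

theorem pip_sg1 (z z' : Fin N → ℝ) (x : ℝ) (s : Bool × Bool) :
    sg (pip z z' x s).1 = chi z x * sg s.1 := bx_sg (chi_or z x) _

theorem pip_sg2 (z z' : Fin N → ℝ) (x : ℝ) (s : Bool × Bool) :
    sg (pip z z' x s).2 = chi z' x * sg s.2 := bx_sg (chi_or z' x) _

theorem G_succ (w α : ℝ) (n : ℕ) (x : ℝ) :
    G w α (n + 1) x = G w α n x * (-1 : ℝ) ^ b w (x + n * α) := by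
  rw [G_prod, G_prod, Finset.prod_range_succ]

theorem prodG_succ (z : Fin N → ℝ) (α : ℝ) (n : ℕ) (x : ℝ) :
    ∏ i, G (z i) α (n + 1) x = (∏ i, G (z i) α n x) * chi z (x + n * α) := by
  unfold chi
  rw [← Finset.prod_mul_distrib]
  exact Finset.prod_congr rfl fun i _ => G_succ _ _ _ _

theorem up_sg1 (z z' : Fin N → ℝ) (α : ℝ) (n : ℕ) (x : ℝ) (s : Bool × Bool) :
    sg (up (pip z z') α n x s).1 = (∏ i, G (z i) α n (x + α)) * sg s.1 := by
  induction n with
  | zero => simp [up, G_prod]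
  | succ n ih =>
    rw [up, Equiv.Perm.mul_apply, pip_sg1, ih, prodG_succ, chi_fract,
      show x + ((n : ℝ) + 1) * α = x + α + n * α by ring]
    ring

theorem up_sg2 (z z' : Fin N → ℝ) (α : ℝ) (n : ℕ) (x : ℝ) (s : Bool × Bool) :
    sg (up (pip z z') α n x s).2 = (∏ i, G (z' i) α n (x + α)) * sg s.2 := by
  induction n with
  | zero => simp [up, G_prod]
  | succ n ih =>
    rw [up, Equiv.Perm.mul_apply, pip_sg2, ih, prodG_succ, chi_fract,
      show x + ((n : ℝ) + 1) * α = x + α + n * α by ring]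
    ring

/-- the sign cocycle for all integers -/
noncomputable def Mz (z : Fin N → ℝ) (α : ℝ) (m : ℤ) (x : ℝ) : ℝ :=
  ∏ i, G (z i) α m.natAbs (x + α + (if 0 ≤ m then 0 else m * α))

theorem Mz_abs (z : Fin N → ℝ) (α : ℝ) (m : ℤ) (x : ℝ) : |Mz z α m x| = 1 := Gz_abs _ _ _ _

theorem Mz_sq (z : Fin N → ℝ) (α : ℝ) (m : ℤ) (x : ℝ) : Mz z α m x * Mz z α m x = 1 := by
  rw [← abs_mul_abs_self, Mz_abs, one_mul]

theorem mono_sg1 (z z' : Fin N → ℝ) (α : ℝ) (m : ℤ) (x : ℝ) (s : Bool × Bool) :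
    sg (mono (pip z z') α m x s).1 = Mz z α m x * sg s.1 := by
  have hsq := Mz_sq z α m x
  unfold mono
  unfold Mz at hsq ⊢
  by_cases hm : 0 ≤ m
  · rw [if_pos hm, if_pos hm, up_sg1, add_zero, show m.toNat = m.natAbs by omega]
  · rw [if_neg hm, show (-m).toNat = m.natAbs by omega]
    rw [if_neg hm] at hsq ⊢
    have h1 := up_sg1 z z' α m.natAbs (x + m * α) ((up (pip z z') α m.natAbs (x + m * α))⁻¹ s)
    rw [← Equiv.Perm.mul_apply, mul_inv_cancel, Equiv.Perm.one_apply, show x + m * α + α = x + α + m * α by ring] at h1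
    rw [h1, ← mul_assoc, hsq, one_mul]

theorem mono_sg2 (z z' : Fin N → ℝ) (α : ℝ) (m : ℤ) (x : ℝ) (s : Bool × Bool) :
    sg (mono (pip z z') α m x s).2 = Mz z' α m x * sg s.2 := by
  have hsq := Mz_sq z' α m x
  unfold mono
  unfold Mz at hsq ⊢
  by_cases hm : 0 ≤ m
  · rw [if_pos hm, if_pos hm, up_sg2, add_zero, show m.toNat = m.natAbs by omega]
  · rw [if_neg hm, show (-m).toNat = m.natAbs by omega]
    rw [if_neg hm] at hsq ⊢
    have h1 := up_sg2 z z' α m.natAbs (x + m * α) ((up (pip z z') α m.natAbs (x + m * α))⁻¹ s)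
    rw [← Equiv.Perm.mul_apply, mul_inv_cancel, Equiv.Perm.one_apply, show x + m * α + α = x + α + m * α by ring] at h1
    rw [h1, ← mul_assoc, hsq, one_mul]

theorem Gz_int (z : Fin N → ℝ) (α : ℝ) (n : ℕ) (x : ℝ) (a : ℤ) :
    ∏ i, G (z i) α n (x + a) = ∏ i, G (z i) α n x :=
  Finset.prod_congr rfl fun i _ => G_int _ _ _ _ _

theorem Mz_int (z : Fin N → ℝ) (α : ℝ) (m : ℤ) (y : ℝ) :
    ∫ x, Mz z α m (x - y) ∂U = Cn z α m.natAbs := by
  unfold Mz Cn
  obtain ⟨d, hd⟩ : ∃ d : ℝ, d = -y + α + (if 0 ≤ m then 0 else m * α) := ⟨_, rfl⟩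
  have h1 : ∀ x : ℝ, ∏ i, G (z i) α m.natAbs (x - y + α + (if 0 ≤ m then 0 else m * α)) =
      ∏ i, G (z i) α m.natAbs (Int.fract (x + d)) := by
    intro x
    rw [← Gz_int z α m.natAbs (Int.fract (x + d)) ⌊x + d⌋, Int.fract_add_floor]
    refine Finset.prod_congr rfl fun i _ => ?_
    congr 1
    rw [hd]
    ring
  simp only [h1]
  have hm : Measurable (fun x : ℝ => ∏ i, G (z i) α m.natAbs x) :=
    Finset.measurable_prod _ fun i _ => G_meas _ _ _
  conv_rhs => rw [← (U_shift d).map_eq]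
  rw [integral_map (U_shift d).measurable.aemeasurable hm.aestronglyMeasurable]

theorem Mz_meas (z : Fin N → ℝ) (α : ℝ) (m : ℤ) : Measurable (Mz z α m) := by
  unfold Mz
  exact Finset.measurable_prod _ fun i _ => (G_meas _ _ _).comp (by fun_prop)

/-- positions of the branch points -/
def Bz [NeZero N] (u v w : ℝ) : Set (Fin N → ℝ) :=
  univ.pi fun i => if i = 0 then Ioo u v else Ioo v w

theorem b_one {w x : ℝ} (h0 : 0 ≤ x) (h1 : x < 1) (h : x < w) : b w x = 1 := by
  unfold b
  rw [Int.fract_eq_self.mpr ⟨h0, h1⟩, if_pos h]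

theorem b_zero {w x : ℝ} (h0 : 0 ≤ x) (h1 : x < 1) (h : w ≤ x) : b w x = 0 := by
  unfold b
  rw [Int.fract_eq_self.mpr ⟨h0, h1⟩, if_neg (not_lt.mpr h)]

theorem chi_left [NeZero N] (hN : Even N) {u v w : ℝ} (huv : u < v) (hvw : v < w) {z : Fin N → ℝ}
    (hz : z ∈ Bz u v w) {x : ℝ} (h0 : 0 ≤ x) (h1 : x < 1) (hx : x ≤ u) : chi z x = 1 := by
  unfold chi
  have : ∀ i, b (z i) x = 1 := by
    intro i
    have hi := hz i (mem_univ _)
    refine b_one h0 h1 ?_
    by_cases h : i = 0
    · simp only [h, if_true] at hi ⊢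
      linarith [hi.1]
    · simp only [h, if_false] at hi
      linarith [hi.1]
  simp only [this, zpow_one, Finset.prod_const, Finset.card_univ, Fintype.card_fin]
  exact hN.neg_one_pow

theorem chi_right [NeZero N] {u v w : ℝ} (huv : u < v) (hvw : v < w) {z : Fin N → ℝ}
    (hz : z ∈ Bz u v w) {x : ℝ} (h0 : 0 ≤ x) (h1 : x < 1) (hx : w ≤ x) : chi z x = 1 := by
  unfold chi
  have : ∀ i, b (z i) x = 0 := by
    intro i
    have hi := hz i (mem_univ _)
    refine b_zero h0 h1 ?_
    by_cases h : i = 0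
    · simp only [h, if_true] at hi ⊢
      linarith [hi.2]
    · simp only [h, if_false] at hi
      linarith [hi.2]
  simp only [this, zpow_zero, Finset.prod_const_one]

theorem chi_mid [NeZero N] (hN : Even N) {u v w : ℝ} (hv0 : 0 ≤ v) (hv1 : v < 1) {z : Fin N → ℝ}
    (hz : z ∈ Bz u v w) : chi z v = -1 := by
  unfold chi
  have h1 : ∀ i ≠ 0, b (z i) v = 1 := by
    intro i h
    have hi := hz i (mem_univ _)
    refine b_one hv0 hv1 ?_
    simp only [h, if_false] at hi
    linarith [hi.1]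
  have h2 : b (z 0) v = 0 := by
    have hi := hz 0 (mem_univ _)
    refine b_zero hv0 hv1 ?_
    simp only [if_true] at hi
    linarith [hi.2]
  rw [← Finset.mul_prod_erase _ _ (Finset.mem_univ 0), h2, zpow_zero, one_mul]
  have h3 : ∏ i ∈ Finset.univ.erase (0 : Fin N), (-1 : ℝ) ^ b (z i) v =
      ∏ i ∈ Finset.univ.erase (0 : Fin N), (-1 : ℝ) := by
    refine Finset.prod_congr rfl fun i hi => ?_
    rw [h1 i (Finset.ne_of_mem_erase hi), zpow_one]
  rw [h3, Finset.prod_const, Finset.card_erase_of_mem (Finset.mem_univ _), Finset.card_univ,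
    Fintype.card_fin]
  have hpos : 0 < N := Nat.pos_of_ne_zero (NeZero.ne N)
  obtain ⟨k, hk⟩ := hN
  exact Odd.neg_one_pow ⟨k - 1, by omega⟩

theorem Bz_pos [NeZero N] {u v w : ℝ} (h0 : 0 ≤ u) (huv : u < v) (hvw : v < w) (h1 : w ≤ 1) :
    UN N (Bz u v w) ≠ 0 := by
  unfold UN Bz
  rw [Measure.pi_pi]
  refine Finset.prod_ne_zero_iff.mpr fun i _ => ?_
  unfold U
  by_cases h : i = 0
  · rw [if_pos h, Measure.restrict_apply measurableSet_Ioo, inter_eq_left.mpr, Real.volume_Ioo]
    · simpa using huv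
    · exact fun x hx => ⟨by linarith [hx.1], by linarith [hx.2]⟩
  · rw [if_neg h, Measure.restrict_apply measurableSet_Ioo, inter_eq_left.mpr, Real.volume_Ioo]
    · simpa using hvw
    · exact fun x hx => ⟨by linarith [hx.1], by linarith [hx.2]⟩

theorem b_same {c x y : ℝ} (h0 : 0 ≤ x) (hxy : x ≤ y) (hy : y < 1) (hc : c ∉ Icc x y) :
    b c x = b c y := by
  by_cases h : x < c
  · have h2 : y < c := by
      by_contra hcon
      push Not at hcon
      exact hc ⟨h.le, hcon⟩
    rw [b_one h0 (by linarith) h, b_one (by linarith) hy h2]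
  · push Not at h
    rw [b_zero h0 (by linarith) h, b_zero (by linarith) hy (h.trans hxy)]

/-- The surfaces: four copies of the parallelogram with sides `(1/a, 0)` and `(-c/a, 1)`; crossing
the horizontal side at `x` changes the copy by `(chi z x, chi z' x)`. -/
noncomputable def fam [NeZero N] (hN : Even N) (a c : ℝ) (ha : a ≠ 0) (z z' : Fin N → ℝ)
    (hz : z ∈ Bz (N := N) 0 (1 / 4) (1 / 2)) (hz' : z' ∈ Bz (N := N) (1 / 2) (3 / 4) 1) :
    GluedSurface (Bool × Bool) where
  e₁ := (1 / a, 0)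
  e₂ := (-c / a, 1)
  det_ne := by
    simp only [mul_one, zero_mul, sub_zero]
    exact one_div_ne_zero ha
  cuts := Finset.univ.image z ∪ Finset.univ.image z'
  π := pip z z'
  piece := fun x y h0 hxy hy hc => by
    have h1 : chi z x = chi z y := by
      unfold chi
      refine Finset.prod_congr rfl fun i _ => ?_
      rw [b_same h0 hxy hy (hc (z i) (by simp))]
    have h2 : chi z' x = chi z' y := by
      unfold chi
      refine Finset.prod_congr rfl fun i _ => ?_
      rw [b_same h0 hxy hy (hc (z' i) (by simp))]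
    unfold pip
    rw [h1, h2]
  connected := fun s s' => by
    have h1 : pip z z' (1 / 4) ∈ Subgroup.closure (pip z z' '' Ico 0 1) :=
      Subgroup.subset_closure ⟨1 / 4, ⟨by norm_num, by norm_num⟩, rfl⟩
    have h2 : pip z z' (3 / 4) ∈ Subgroup.closure (pip z z' '' Ico 0 1) :=
      Subgroup.subset_closure ⟨3 / 4, ⟨by norm_num, by norm_num⟩, rfl⟩
    have e1 : pip z z' (1 / 4) = Equiv.prodCongr Equiv.boolNot 1 := by
      unfold pip
      rw [chi_mid hN (by norm_num) (by norm_num) hz,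
        chi_left hN (by norm_num) (by norm_num) hz' (by norm_num) (by norm_num) (by norm_num)]
      have : ¬ ((1 : ℝ) = -1) := by norm_num
      simp only [bx, if_true, this, if_false]
    have e2 : pip z z' (3 / 4) = Equiv.prodCongr 1 Equiv.boolNot := by
      unfold pip
      rw [chi_mid hN (by norm_num) (by norm_num) hz',
        chi_right (by norm_num) (by norm_num) hz (by norm_num) (by norm_num) (by norm_num)]
      have : ¬ ((1 : ℝ) = -1) := by norm_num
      simp only [bx, if_true, this, if_false]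
    rw [e1] at h1
    rw [e2] at h2
    obtain ⟨s1, s2⟩ := s
    obtain ⟨t1, t2⟩ := s'
    by_cases c1 : s1 = t1 <;> by_cases c2 : s2 = t2
    · exact ⟨1, Subgroup.one_mem _, by rw [c1, c2]; rfl⟩
    · refine ⟨_, h2, ?_⟩
      subst c1
      revert c2
      cases s2 <;> cases t2 <;> simp
    · refine ⟨_, h1, ?_⟩
      subst c2
      revert c1
      cases s1 <;> cases t1 <;> simp
    · refine ⟨_, Subgroup.mul_mem _ h1 h2, ?_⟩
      revert c1 c2
      cases s1 <;> cases t1 <;> cases s2 <;> cases t2 <;> simp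

end Pool.Agent.K1H30.SP
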