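import Pool.Agent.K1H30.SP.Fam

/-! Correlations, positive definiteness, continuity. -/

open Set MeasureTheory Filter

set_option autoImplicit false

namespace Pool.Agent.K1H30.SP

/-- The product of two directional flows of the same surface. -/
noncomputable def GluedSurface.prodFlow {S : Type} (X : GluedSurface S) (θ φ t : ℝ)
    (q : X.Pt × X.Pt) : X.Pt × X.Pt := (X.flow θ t q.1, X.flow φ t q.2)

section abstract

variable {Ω : Type*} [MeasurableSpace Ω] {μ : Measure Ω} [IsProbabilityMeasure μ] {T : ℝ → Ω → Ω}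
  {F : Ω → ℝ}

omit [IsProbabilityMeasure μ] in
theorem corr_shift (hT : ∀ t, MeasurePreserving (T t) μ μ)
    (hadd : ∀ s t q, T s (T t q) = T (t + s) q) (hF : Measurable F) (s t : ℝ) :
    ∫ q, F (T s q) * F q ∂μ = ∫ q, F (T (t + s) q) * F (T t q) ∂μ := by
  have hm : Measurable (fun q => F (T s q) * F q) := (hF.comp (hT s).measurable).mul hF
  conv_lhs => rw [← (hT t).map_eq]
  rw [integral_map (hT t).measurable.aemeasurable hm.aestronglyMeasurable]
  simp only [hadd]

omit [IsProbabilityMeasure μ] in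
theorem corr_even (hT : ∀ t, MeasurePreserving (T t) μ μ)
    (hadd : ∀ s t q, T s (T t q) = T (t + s) q) (hF : Measurable F) (t : ℝ) :
    ∫ q, F (T (-t) q) * F q ∂μ = ∫ q, F (T t q) * F q ∂μ := by
  rw [corr_shift hT hadd hF (-t) t, corr_shift hT hadd hF t 0]
  simp only [add_neg_cancel, zero_add]
  exact integral_congr_ae (Eventually.of_forall fun q => mul_comm _ _)

theorem corr_psd (hT : ∀ t, MeasurePreserving (T t) μ μ)
    (hadd : ∀ s t q, T s (T t q) = T (t + s) q) (hF : Measurable F) (hF1 : ∀ q, |F q| = 1)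
    (n : ℕ) (t a : Fin n → ℝ) :
    0 ≤ ∑ i, ∑ j, a i * a j * ∫ q, F (T (t i - t j) q) * F q ∂μ := by
  have h1 : ∀ i j, ∫ q, F (T (t i - t j) q) * F q ∂μ = ∫ q, F (T (t i) q) * F (T (t j) q) ∂μ := by
    intro i j
    rw [corr_shift hT hadd hF (t i - t j) (t j)]
    simp only [add_sub_cancel]
  have hi : ∀ i j, Integrable (fun q => F (T (t i) q) * F (T (t j) q)) μ := by
    intro i j
    refine (integrable_const (1 : ℝ)).mono
      ((hF.comp (hT (t i)).measurable).mul (hF.comp (hT (t j)).measurable)).aestronglyMeasurable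
      (Eventually.of_forall fun q => ?_)
    simp [Real.norm_eq_abs, hF1]
  have h2 : ∑ i, ∑ j, a i * a j * ∫ q, F (T (t i - t j) q) * F q ∂μ =
      ∫ q, (∑ i, a i * F (T (t i) q)) ^ 2 ∂μ := by
    have e1 : ∀ q, (∑ i, a i * F (T (t i) q)) ^ 2 =
        ∑ i, ∑ j, a i * a j * (F (T (t i) q) * F (T (t j) q)) := by
      intro q
      rw [sq, Finset.sum_mul_sum]
      refine Finset.sum_congr rfl fun i _ => Finset.sum_congr rfl fun j _ => ?_
      ring
    simp only [e1, h1]
    rw [integral_finsetSum _ fun i _ => integrable_finsetSum _ fun j _ => (hi i j).const_mul _]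
    refine Finset.sum_congr rfl fun i _ => ?_
    rw [integral_finsetSum _ fun j _ => (hi i j).const_mul _]
    refine Finset.sum_congr rfl fun j _ => ?_
    rw [integral_const_mul]
  rw [h2]
  exact integral_nonneg fun q => sq_nonneg _

end abstract

theorem prodFlow_add {S : Type} (X : GluedSurface S) (θ φ s t : ℝ) (q : X.Pt × X.Pt) :
    X.prodFlow θ φ s (X.prodFlow θ φ t q) = X.prodFlow θ φ (t + s) q := by
  unfold GluedSurface.prodFlow
  simp only [X.flow_add]

theorem prodFlow_mp {S : Type} [Fintype S] [MeasurableSpace S] [DiscreteMeasurableSpace S]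
    [Nonempty S] (X : GluedSurface S) (θ φ t : ℝ) :
    MeasurePreserving (X.prodFlow θ φ t) (X.area.prod X.area) (X.area.prod X.area) :=
  (X.flow_mp θ t).prod (X.flow_mp φ t)

variable {N : ℕ}

theorem cu_cont (z : Fin N → ℝ) (α : ℝ) : Continuous (cu z α) := by
  have hm : Measurable (fun y : ℝ => Cn z α (⌊y⌋.natAbs)) :=
    (measurable_from_top (f := fun k : ℤ => Cn z α k.natAbs)).comp Int.measurable_floor
  have hint : ∀ a b : ℝ, IntervalIntegrable (fun y : ℝ => Cn z α (⌊y⌋.natAbs)) volume a b := by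
    intro a b
    refine (intervalIntegrable_const (c := (1 : ℝ))).mono_fun hm.aestronglyMeasurable ?_
    refine Eventually.of_forall fun x => ?_
    simp only
    rw [Real.norm_eq_abs, norm_one]
    exact Cn_le _ _ _
  have h1 : cu z α = fun u => (∫ s in (0 : ℝ)..(u + 1), Cn z α (⌊s⌋.natAbs)) -
      ∫ s in (0 : ℝ)..u, Cn z α (⌊s⌋.natAbs) := by
    funext u
    unfold cu
    rw [integral_U, intervalIntegral.integral_comp_add_right (fun s => Cn z α (⌊s⌋.natAbs)) u,
      intervalIntegral.integral_interval_sub_left (hint _ _) (hint _ _), zero_add, add_comm]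
  rw [h1]
  have h2 := intervalIntegral.continuous_primitive hint 0
  exact (h2.comp (continuous_add_const 1)).sub h2

theorem cu_zero (z : Fin N → ℝ) (α : ℝ) : cu z α 0 = 1 := by
  unfold cu
  have h1 : ∀ᵐ y ∂U, Cn z α (⌊y + 0⌋.natAbs) = 1 := by
    filter_upwards [U_ae] with y hy
    rw [add_zero, Int.floor_eq_zero_iff.mpr hy]
    unfold Cn
    simp [G_prod]
  rw [integral_congr_ae h1]
  simp

section corr

attribute [local irreducible] Mz Cn G

theorem Mz_meas2 {z : Fin N → ℝ} (α w : ℝ) :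
    Measurable (fun p : ℝ × ℝ => Mz z α ⌊p.2 + w⌋ (p.1 - p.2 * α)) := by
  have h1 : Measurable (fun q : ℤ × ℝ => Mz z α q.1 q.2) :=
    measurable_from_prod_countable_right fun m => Mz_meas z α m
  exact h1.comp (Measurable.prodMk (Measurable.floor (by fun_prop)) (by fun_prop))

theorem Mz_int2 {z : Fin N → ℝ} (α w : ℝ) :
    ∫ p : ℝ × ℝ, Mz z α ⌊p.2 + w⌋ (p.1 - p.2 * α) ∂(U.prod U) = cu z α w := by
  have hi : Integrable (fun p : ℝ × ℝ => Mz z α ⌊p.2 + w⌋ (p.1 - p.2 * α)) (U.prod U) := by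
    refine (integrable_const (1 : ℝ)).mono (Mz_meas2 α w).aestronglyMeasurable
      (Eventually.of_forall fun q => ?_)
    rw [Real.norm_eq_abs, Mz_abs, norm_one]
  rw [integral_prod_symm _ hi]
  unfold cu
  exact integral_congr_ae (Eventually.of_forall fun y => Mz_int z α ⌊y + w⌋ (y * α))

variable {z z' : Fin N → ℝ} {X : GluedSurface (Bool × Bool)}

theorem corr1 (hX : X.π = pip z z') (θ t : ℝ) :
    ∫ p, sg (X.flow θ t p).2.1 * sg p.2.1 ∂X.area = cu z (X.v₁ θ / X.v₂ θ) (t * X.v₂ θ) := by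
  have h1 : ∀ p : X.Pt, sg (X.flow θ t p).2.1 * sg p.2.1 =
      Mz z (X.v₁ θ / X.v₂ θ) ⌊p.1.2 + t * X.v₂ θ⌋ (p.1.1 - p.1.2 * (X.v₁ θ / X.v₂ θ)) := by
    intro p
    unfold GluedSurface.flow
    simp only [hX]
    rw [mono_sg1, mul_assoc, sg_sq, mul_one]
  simp only [h1]
  rw [← Mz_int2]
  have hprob : IsProbabilityMeasure ((Fintype.card (Bool × Bool) : ENNReal)⁻¹ •
      (Measure.count : Measure (Bool × Bool))) := by
    refine ⟨?_⟩
    rw [Measure.smul_apply, Measure.count_univ, smul_eq_mul]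
    simp only [ENat.card_eq_coe_fintype_card]
    exact ENNReal.inv_mul_cancel (by simp) (ENNReal.natCast_ne_top _)
  unfold GluedSurface.area
  have := integral_fun_fst (μ := U.prod U) (ν := (Fintype.card (Bool × Bool) : ENNReal)⁻¹ •
      (Measure.count : Measure (Bool × Bool)))
    (fun q : ℝ × ℝ => Mz z (X.v₁ θ / X.v₂ θ) ⌊q.2 + t * X.v₂ θ⌋ (q.1 - q.2 * (X.v₁ θ / X.v₂ θ)))
  rw [this]
  simp

theorem corr2 (hX : X.π = pip z z') (θ t : ℝ) :
    ∫ p, sg (X.flow θ t p).2.2 * sg p.2.2 ∂X.area = cu z' (X.v₁ θ / X.v₂ θ) (t * X.v₂ θ) := by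
  have h1 : ∀ p : X.Pt, sg (X.flow θ t p).2.2 * sg p.2.2 =
      Mz z' (X.v₁ θ / X.v₂ θ) ⌊p.1.2 + t * X.v₂ θ⌋ (p.1.1 - p.1.2 * (X.v₁ θ / X.v₂ θ)) := by
    intro p
    unfold GluedSurface.flow
    simp only [hX]
    rw [mono_sg2, mul_assoc, sg_sq, mul_one]
  simp only [h1]
  rw [← Mz_int2]
  have hprob : IsProbabilityMeasure ((Fintype.card (Bool × Bool) : ENNReal)⁻¹ •
      (Measure.count : Measure (Bool × Bool))) := by
    refine ⟨?_⟩
    rw [Measure.smul_apply, Measure.count_univ, smul_eq_mul]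
    simp only [ENat.card_eq_coe_fintype_card]
    exact ENNReal.inv_mul_cancel (by simp) (ENNReal.natCast_ne_top _)
  unfold GluedSurface.area
  have := integral_fun_fst (μ := U.prod U) (ν := (Fintype.card (Bool × Bool) : ENNReal)⁻¹ •
      (Measure.count : Measure (Bool × Bool)))
    (fun q : ℝ × ℝ => Mz z' (X.v₁ θ / X.v₂ θ) ⌊q.2 + t * X.v₂ θ⌋ (q.1 - q.2 * (X.v₁ θ / X.v₂ θ)))
  rw [this]
  simp

/-- the function on the product -/
noncomputable def FF (X : GluedSurface (Bool × Bool)) (q : X.Pt × X.Pt) : ℝ :=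
  sg q.1.2.1 * sg q.2.2.2

theorem FF_meas : Measurable (FF X) := by
  unfold FF
  have h : Measurable sg := measurable_of_countable _
  exact (h.comp (by fun_prop : Measurable fun q : X.Pt × X.Pt => q.1.2.1)).mul
    (h.comp (by fun_prop : Measurable fun q : X.Pt × X.Pt => q.2.2.2))

theorem FF_abs (q : X.Pt × X.Pt) : |FF X q| = 1 := by
  unfold FF
  rw [abs_mul, sg_abs, sg_abs, one_mul]

theorem corr (hX : X.π = pip z z') (θ φ t : ℝ) :
    ∫ q, FF X (X.prodFlow θ φ t q) * FF X q ∂(X.area.prod X.area) =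
      cu z (X.v₁ θ / X.v₂ θ) (t * X.v₂ θ) * cu z' (X.v₁ φ / X.v₂ φ) (t * X.v₂ φ) := by
  rw [← corr1 hX, ← corr2 hX, ← integral_prod_mul (fun p => sg (X.flow θ t p).2.1 * sg p.2.1)
    (fun p => sg (X.flow φ t p).2.2 * sg p.2.2)]
  refine integral_congr_ae (Eventually.of_forall fun q => ?_)
  unfold FF GluedSurface.prodFlow
  simp only
  ring

/-- the sheet function has mean zero -/
theorem sg_mean : ∫ p, sg p.2.1 ∂X.area = 0 := by
  unfold GluedSurface.area
  have := integral_fun_snd (μ := U.prod U) (ν := (Fintype.card (Bool × Bool) : ENNReal)⁻¹ •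
      (Measure.count : Measure (Bool × Bool))) (fun s : Bool × Bool => sg s.1)
  rw [this, integral_smul_measure, integral_count]
  simp [sg, Fintype.sum_prod_type]

theorem FF_mean : ∫ q, FF X q ∂(X.area.prod X.area) = 0 := by
  unfold FF
  rw [integral_prod_mul (fun p : X.Pt => sg p.2.1) (fun p : X.Pt => sg p.2.2), sg_mean, zero_mul]

end corr

end Pool.Agent.K1H30.SP
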