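import Pool.Agent.K1H30.SP.Stmts
import Pool.Agent.H506R3.Mag.Boch2
import Pool.Agent.H153R4.Pl

/-! Piece SPEC: a continuous positive definite function in `L²` is the Fourier transform of a
nonnegative integrable density. -/

set_option autoImplicit false
namespace Pool.Agent.K1H30.SP

open Complex MeasureTheory Filter Topology FourierTransform SchwartzMap
open scoped ContDiff ENNReal
open Pool.Agent.H506R3.Mag

/-- inverse version of `fourier_ae_eq` -/
lemma fourierInv_ae_eq (f : ℝ → ℂ) (h1 : Integrable f) (h2 : MemLp f 2) :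
    ((𝓕⁻ (h2.toLp f) : Lp ℂ 2 (volume : Measure ℝ)) : ℝ → ℂ) =ᵐ[volume] 𝓕⁻ f := by
  have hfe : 𝓕⁻ f = fun x => 𝓕 (fun y => f (-y)) x := by
    funext x
    rw [Real.fourierInv_eq_fourier_comp_neg]
  have h1' : Integrable (fun y => f (-y)) := h1.comp_neg
  have hcont : Continuous (𝓕⁻ f) := by
    rw [hfe]
    have := VectorFourier.fourierIntegral_continuous (L := innerₗ ℝ) Real.continuous_fourierChar
      continuous_inner h1'
    exact this
  apply ae_eq_of_integral_contDiff_smul_eq
  · exact (Lp.memLp _).locallyIntegrable (by norm_num)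
  · exact hcont.locallyIntegrable
  · intro g g_smooth g_cpt
    have hg₁ : HasCompactSupport (Complex.ofRealCLM ∘ g) := g_cpt.comp_left rfl
    have hg₂ : ContDiff ℝ ∞ (Complex.ofRealCLM ∘ g) := by fun_prop
    set gS : 𝓢(ℝ, ℂ) := hg₁.toSchwartzMap hg₂ with hgS
    have hgx : ∀ x, gS x = (g x : ℂ) := fun x => rfl
    have e1 : ∫ x, g x • ((𝓕⁻ (h2.toLp f) : Lp ℂ 2 (volume : Measure ℝ)) : ℝ → ℂ) x =
        ((𝓕⁻ (h2.toLp f) : Lp ℂ 2 (volume : Measure ℝ)) : 𝓢'(ℝ, ℂ)) gS := by
      rw [Lp.toTemperedDistribution_apply]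
      simp [hgx]
    rw [e1, ← Lp.fourierInv_toTemperedDistribution_eq, TemperedDistribution.fourierInv_apply,
      Lp.toTemperedDistribution_apply]
    have e2 : ∫ x, (𝓕⁻ gS) x • (h2.toLp f : ℝ → ℂ) x = ∫ x, (𝓕⁻ gS) x • f x := by
      apply integral_congr_ae
      filter_upwards [h2.coeFn_toLp] with x hx
      rw [hx]
    rw [e2]
    have e3 := VectorFourier.integral_fourierIntegral_smul_eq_flip (L := innerₗ ℝ)
      Real.continuous_fourierChar continuous_inner gS.integrable h1' (μ := volume) (ν := volume)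
    simp only [flip_innerₗ] at e3
    have e4 : ∫ x, (𝓕⁻ gS) x • f x = ∫ x, gS x • (𝓕⁻ f) x := by
      rw [SchwartzMap.fourierInv_coe, hfe]
      have e5 : ∀ x, 𝓕⁻ (gS : ℝ → ℂ) x = 𝓕 (gS : ℝ → ℂ) (-x) := fun x => by
        rw [Real.fourierInv_eq_fourier_neg]
      simp_rw [e5]
      rw [← integral_neg_eq_self]
      simp only [neg_neg]
      exact e3
    rw [e4]
    simp [hgx]

lemma psd_mul_gau {f : ℝ → ℝ} (hf : PSDFun f) {ε : ℝ} (hε : 0 < ε) :
    PSDFun (fun x => f x * gau ε x) := by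
  intro s w
  set C : ℝ := ∫ x : ℝ, gau (2 * (2 * ε)) x with hC
  have hCpos : 0 < C := by
    rw [hC]
    have hi : Integrable (gau (2 * (2 * ε)) : ℝ → ℝ) := gau_int (by positivity)
    rw [integral_pos_iff_support_of_nonneg (fun x => (gau_pos _ x).le) hi]
    have : Function.support (gau (2 * (2 * ε)) : ℝ → ℝ) = Set.univ := by
      ext x
      simp [(gau_pos (2 * (2 * ε)) x).ne']
    rw [this]
    simp
  have hconv : ∀ x y : ℝ, gau ε (x - y) * C = ∫ v, gau (2 * ε) (x - v) * gau (2 * ε) (y - v) := by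
    intro x y
    have h1 := gau_conv (ε := 2 * ε) (x - y)
    rw [show 2 * ε / 2 = ε by ring] at h1
    rw [← h1, ← integral_sub_left_eq_self _ volume x]
    refine integral_congr_ae (Filter.Eventually.of_forall fun v => ?_)
    simp only
    congr 2
    ring
  have hint : ∀ x y : ℝ, Integrable (fun v => gau (2 * ε) (x - v) * gau (2 * ε) (y - v)) := by
    intro x y
    have hi : Integrable (gau (2 * ε) : ℝ → ℝ) := gau_int (by positivity)
    have hi' : Integrable (fun v => gau (2 * ε) (x - v)) := hi.comp_sub_left x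
    refine hi'.mono ?_ (Filter.Eventually.of_forall fun v => ?_)
    · refine Continuous.aestronglyMeasurable ?_
      exact ((gau_cont _).comp (by fun_prop)).mul ((gau_cont _).comp (by fun_prop))
    · rw [norm_mul]
      refine mul_le_of_le_one_right (norm_nonneg _) ?_
      rw [Real.norm_eq_abs, abs_of_pos (gau_pos _ _)]
      exact gau_le_one (by positivity) _
  have hkey : C * ∑ x ∈ s, ∑ y ∈ s, w x * w y * (f (x - y) * gau ε (x - y)) =
      ∫ v, ∑ x ∈ s, ∑ y ∈ s, (w x * gau (2 * ε) (x - v)) * (w y * gau (2 * ε) (y - v)) *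
        f (x - y) := by
    rw [integral_finsetSum]
    · rw [Finset.mul_sum]
      refine Finset.sum_congr rfl fun x _ => ?_
      rw [integral_finsetSum]
      · rw [Finset.mul_sum]
        refine Finset.sum_congr rfl fun y _ => ?_
        have h2 := hconv x y
        have h3 : ∀ v, (w x * gau (2 * ε) (x - v)) * (w y * gau (2 * ε) (y - v)) * f (x - y) =
            (w x * w y * f (x - y)) * (gau (2 * ε) (x - v) * gau (2 * ε) (y - v)) := by
          intro v; ring
        simp_rw [h3]
        rw [integral_const_mul, ← h2]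
        ring
      · intro y _
        have h3 : ∀ v, (w x * gau (2 * ε) (x - v)) * (w y * gau (2 * ε) (y - v)) * f (x - y) =
            (w x * w y * f (x - y)) * (gau (2 * ε) (x - v) * gau (2 * ε) (y - v)) := by
          intro v; ring
        simp_rw [h3]
        exact (hint x y).const_mul _
    · intro x _
      refine integrable_finsetSum _ fun y _ => ?_
      have h3 : ∀ v, (w x * gau (2 * ε) (x - v)) * (w y * gau (2 * ε) (y - v)) * f (x - y) =
          (w x * w y * f (x - y)) * (gau (2 * ε) (x - v) * gau (2 * ε) (y - v)) := by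
        intro v; ring
      simp_rw [h3]
      exact (hint x y).const_mul _
  have hpos : 0 ≤ C * ∑ x ∈ s, ∑ y ∈ s, w x * w y * (f (x - y) * gau ε (x - y)) := by
    rw [hkey]
    exact integral_nonneg fun v => hf s (fun x => w x * gau (2 * ε) (x - v))
  exact nonneg_of_mul_nonneg_right hpos hCpos

/-- Fin-indexed version implies the Finset version -/
lemma psd_of_fin {f : ℝ → ℝ}
    (h : ∀ (n : ℕ) (t a : Fin n → ℝ), 0 ≤ ∑ i, ∑ j, a i * a j * f (t i - t j)) : PSDFun f := by
  intro s w
  have h1 := h s.card (fun i => (s.equivFin.symm i : ℝ)) (fun i => w (s.equivFin.symm i : ℝ))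
  have h2 : ∀ g : ℝ → ℝ, ∑ i, g (s.equivFin.symm i : ℝ) = ∑ x ∈ s, g x := by
    intro g
    rw [← Finset.sum_coe_sort s g]
    exact Equiv.sum_comp s.equivFin.symm (fun x : s => g x)
  rw [h2 (fun x => ∑ j, w x * w (s.equivFin.symm j : ℝ) * f (x - (s.equivFin.symm j : ℝ)))] at h1
  refine h1.trans_eq (Finset.sum_congr rfl fun x _ => ?_)
  exact h2 (fun y => w x * w y * f (x - y))

lemma ct_total {f : ℝ → ℝ} (hf : PSDFun f) (hc : Continuous f) (hb : ∀ x, |f x| ≤ 1)
    (hi : Integrable f) (he : ∀ x, f (-x) = f x) : ∫ x, ct f x = f 0 := by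
  have hcc := ct_cont hc hi he
  have hci := ct_int hf hc hb hi he
  have hF : 𝓕 (fun x => (f x : ℂ)) = fun ξ => (ct f ξ : ℂ) := funext (fourier_eq_ct hc hi he)
  have hinv : 𝓕⁻ (fun ξ => (ct f ξ : ℂ)) = fun x => (f x : ℂ) := by
    rw [← hF]
    refine Continuous.fourierInv_fourier_eq (by fun_prop) hi.ofReal ?_
    rw [hF]
    exact hci.ofReal
  have h1 := congrFun hinv 0
  rw [Real.fourierInv_eq'] at h1
  simp only [inner_zero_right, mul_zero, Complex.ofReal_zero, zero_mul, Complex.exp_zero, one_smul]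
    at h1
  rw [integral_complex_ofReal] at h1
  exact_mod_cast h1


lemma spec_main {f : ℝ → ℝ} (hf : PSDFun f) (hc : Continuous f) (hb : ∀ x, |f x| ≤ 1)
    (he : ∀ x, f (-x) = f x) (h0 : f 0 = 1) (hsq : Integrable (fun t => f t ^ 2)) :
    ∃ g : ℝ → ℝ, (∀ x, 0 ≤ g x) ∧ Integrable g ∧
      ∀ x : ℝ, (f x : ℂ) = 𝓕⁻ (fun ξ => (g ξ : ℂ)) x := by
  set ε : ℕ → ℝ := fun k => 1 / ((k : ℝ) + 1) with hε
  have hεpos : ∀ k, 0 < ε k := fun k => by rw [hε]; positivity
  set F : ℕ → ℝ → ℝ := fun k x => f x * gau (ε k) x with hF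
  have hFpsd : ∀ k, PSDFun (F k) := fun k => psd_mul_gau hf (hεpos k)
  have hFc : ∀ k, Continuous (F k) := fun k => hc.mul (gau_cont _)
  have hgau_abs : ∀ k (x : ℝ), |gau (ε k) x| ≤ 1 := fun k x => by
    rw [abs_of_pos (gau_pos _ _)]
    exact gau_le_one (hεpos k).le x
  have hFb' : ∀ k x, |F k x| ≤ |f x| := fun k x => by
    rw [hF]
    simp only [abs_mul]
    exact mul_le_of_le_one_right (abs_nonneg _) (hgau_abs k x)
  have hFb : ∀ k x, |F k x| ≤ 1 := fun k x => (hFb' k x).trans (hb x)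
  have hFe : ∀ k x, F k (-x) = F k x := fun k x => by
    simp only [hF, he, gau, norm_neg]
  have hFi : ∀ k, Integrable (F k) := fun k => by
    refine (gau_int (V := ℝ) (hεpos k)).mono (hFc k).aestronglyMeasurable
      (Filter.Eventually.of_forall fun x => ?_)
    rw [hF]
    simp only [norm_mul]
    exact mul_le_of_le_one_left (norm_nonneg _) (hb x)
  have hF0 : ∀ k, F k 0 = 1 := fun k => by
    simp [hF, h0, gau]
  have hmeasf : AEStronglyMeasurable (fun x => (f x : ℂ)) volume :=
    (Complex.continuous_ofReal.comp hc).aestronglyMeasurable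
  have hLf : MemLp (fun x => (f x : ℂ)) 2 := by
    rw [memLp_two_iff_integrable_sq_norm hmeasf]
    refine hsq.congr (Filter.Eventually.of_forall fun x => ?_)
    simp
  have hmeasF : ∀ k, AEStronglyMeasurable (fun x => (F k x : ℂ)) volume := fun k =>
    (Complex.continuous_ofReal.comp (hFc k)).aestronglyMeasurable
  have hLF : ∀ k, MemLp (fun x => (F k x : ℂ)) 2 := fun k => by
    refine hLf.mono (hmeasF k) (Filter.Eventually.of_forall fun x => ?_)
    simp only [Complex.norm_real, Real.norm_eq_abs]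
    exact hFb' k x
  -- convergence in L²
  have hconv : Tendsto (fun k => (hLF k).toLp (fun x => (F k x : ℂ))) atTop
      (𝓝 (hLf.toLp (fun x => (f x : ℂ)))) := by
    rw [Lp.tendsto_Lp_iff_tendsto_eLpNorm'']
    have hsq' : Tendsto (fun k => ∫⁻ x, ‖((F k x : ℂ)) - (f x : ℂ)‖ₑ ^ 2) atTop (𝓝 0) := by
      have h1 := tendsto_lintegral_of_dominated_convergence (μ := (volume : Measure ℝ))
        (F := fun (k : ℕ) (x : ℝ) => ‖((F k x : ℂ)) - (f x : ℂ)‖ₑ ^ 2) (f := fun _ => 0)
        (fun x => ENNReal.ofReal (4 * f x ^ 2)) ?_ ?_ ?_ ?_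
      · simpa using h1
      · intro k
        exact (((Complex.continuous_ofReal.comp (hFc k)).sub
          (Complex.continuous_ofReal.comp hc)).enorm.measurable).pow_const 2
      · intro k
        refine Filter.Eventually.of_forall fun x => ?_
        simp only
        rw [← Complex.ofReal_sub, ← ofReal_norm, Complex.norm_real,
          ← ENNReal.ofReal_pow (norm_nonneg _)]
        refine ENNReal.ofReal_le_ofReal ?_
        have h2 : ‖F k x - f x‖ ≤ 2 * |f x| := by
          refine (norm_sub_le _ _).trans ?_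
          have := hFb' k x
          simp only [Real.norm_eq_abs]
          linarith
        calc ‖F k x - f x‖ ^ 2 ≤ (2 * |f x|) ^ 2 := by
              gcongr
          _ = 4 * f x ^ 2 := by rw [mul_pow, sq_abs]; norm_num
      · exact ((hsq.const_mul 4).lintegral_lt_top).ne
      · refine Filter.Eventually.of_forall fun x => ?_
        have h3 : Tendsto (fun k => F k x) atTop (𝓝 (f x)) := by
          have h2 : Tendsto (fun k : ℕ => gau (ε k) x) atTop (𝓝 1) := by
            have h2 : Tendsto (fun k : ℕ => -(ε k) * ‖x‖ ^ 2) atTop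
                (𝓝 (-(0) * ‖x‖ ^ 2)) :=
              ((tendsto_one_div_add_atTop_nhds_zero_nat).neg).mul_const _
            have h3 := (Real.continuous_exp.tendsto _).comp h2
            simpa [gau, Function.comp_def] using h3
          simpa using h2.const_mul (f x)
        have h4 : Tendsto (fun k => ((F k x : ℂ)) - (f x : ℂ)) atTop (𝓝 0) := by
          have := ((Complex.continuous_ofReal.tendsto _).comp h3).sub_const (f x : ℂ)
          simpa using this
        have h5 := ENNReal.Tendsto.pow (n := 2) h4.enorm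
        simpa using h5
    have h6 : ∀ k, eLpNorm ((fun x => (F k x : ℂ)) - (fun x => (f x : ℂ))) 2 volume =
        (∫⁻ x, ‖((F k x : ℂ)) - (f x : ℂ)‖ₑ ^ 2) ^ (1 / 2 : ℝ) := by
      intro k
      rw [eLpNorm_eq_lintegral_rpow_enorm_toReal (by norm_num) (by norm_num)]
      simp
    simp_rw [h6]
    have h7 := (ENNReal.continuous_rpow_const (y := (1 / 2 : ℝ))).tendsto 0
    have h8 := h7.comp hsq'
    simpa [Function.comp_def] using h8
  -- the Fourier transform of the limit
  set G : Lp ℂ 2 (volume : Measure ℝ) := 𝓕 (hLf.toLp (fun x => (f x : ℂ))) with hG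
  have hconvF : Tendsto (fun k => (𝓕 ((hLF k).toLp (fun x => (F k x : ℂ))) :
      Lp ℂ 2 (volume : Measure ℝ))) atTop (𝓝 G) :=
    ((Lp.fourierTransformₗᵢ ℝ ℂ).continuous.tendsto _).comp hconv
  obtain ⟨ns, -, hns⟩ := (tendstoInMeasure_of_tendsto_Lp hconvF).exists_seq_tendsto_ae
  have hae : ∀ k, ((𝓕 ((hLF k).toLp (fun x => (F k x : ℂ))) : Lp ℂ 2 (volume : Measure ℝ)) :
      ℝ → ℂ) =ᵐ[volume] fun ξ => (ct (F k) ξ : ℂ) := fun k => by
    refine (Pool.Agent.H153R4.fourier_ae_eq _ (hFi k).ofReal (hLF k)).trans ?_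
    refine Filter.Eventually.of_forall fun ξ => ?_
    exact fourier_eq_ct (hFc k) (hFi k) (hFe k) ξ
  have hae' : ∀ᵐ ξ : ℝ, ∀ k, ((𝓕 ((hLF k).toLp (fun x => (F k x : ℂ))) :
      Lp ℂ 2 (volume : Measure ℝ)) : ℝ → ℂ) ξ = (ct (F k) ξ : ℂ) := ae_all_iff.2 hae
  have hnn : ∀ k ξ, 0 ≤ ct (F k) ξ := fun k => fourier_nonneg (hFpsd k) (hFc k) (hFb k) (hFi k)
  have hcci : ∀ k, Integrable (ct (F k)) := fun k =>
    ct_int (hFpsd k) (hFc k) (hFb k) (hFi k) (hFe k)
  have hlim : ∀ᵐ ξ : ℝ, Tendsto (fun i => (ct (F (ns i)) ξ : ℂ)) atTop (𝓝 (G ξ)) := by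
    filter_upwards [hns, hae'] with ξ h1 h2
    refine h1.congr fun i => ?_
    exact h2 (ns i)
  have hlim2 : ∀ᵐ ξ : ℝ, Tendsto (fun i => ct (F (ns i)) ξ) atTop (𝓝 ‖G ξ‖) := by
    filter_upwards [hlim] with ξ h1
    refine h1.norm.congr fun i => ?_
    rw [Complex.norm_real, Real.norm_eq_abs, abs_of_nonneg (hnn _ _)]
  have hGreal : ∀ᵐ ξ : ℝ, G ξ = ((‖G ξ‖ : ℝ) : ℂ) := by
    filter_upwards [hlim, hlim2] with ξ h1 h2
    exact tendsto_nhds_unique h1 ((Complex.continuous_ofReal.tendsto _).comp h2)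
  set g : ℝ → ℝ := fun ξ => ‖G ξ‖ with hg
  have hgm : AEStronglyMeasurable g volume := (Lp.aestronglyMeasurable G).norm
  have hgint : Integrable g := by
    refine ⟨hgm, ?_⟩
    have h1 : ∫⁻ ξ, ‖g ξ‖ₑ ≤ 1 := by
      have h2 : ∀ᵐ ξ : ℝ, ‖g ξ‖ₑ =
          liminf (fun i : ℕ => ENNReal.ofReal (ct (F (ns i)) ξ)) atTop := by
        filter_upwards [hlim2] with ξ h2
        rw [Real.enorm_eq_ofReal (norm_nonneg _)]
        exact ((ENNReal.tendsto_ofReal h2).liminf_eq).symm
      rw [lintegral_congr_ae h2]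
      refine (lintegral_liminf_le fun k => ?_).trans ?_
      · exact (ct_cont (hFc _) (hFi _) (hFe _)).measurable.ennreal_ofReal
      · refine liminf_le_of_frequently_le' (Filter.Frequently.of_forall fun i => ?_)
        rw [← ofReal_integral_eq_lintegral_ofReal (hcci _)
          (Filter.Eventually.of_forall fun ξ => hnn _ ξ)]
        rw [ct_total (hFpsd _) (hFc _) (hFb _) (hFi _) (hFe _), hF0]
        simp
    exact lt_of_le_of_lt h1 ENNReal.one_lt_top
  refine ⟨g, fun x => norm_nonneg _, hgint, ?_⟩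
  have hgc : (fun ξ => (g ξ : ℂ)) =ᵐ[volume] G := by
    filter_upwards [hGreal] with ξ h1
    exact h1.symm
  have hgL : MemLp (fun ξ => (g ξ : ℂ)) 2 := (memLp_congr_ae hgc).mpr (Lp.memLp G)
  have hgG : hgL.toLp (fun ξ => (g ξ : ℂ)) = G := by
    apply Lp.ext
    exact hgL.coeFn_toLp.trans hgc
  have hinv := fourierInv_ae_eq (fun ξ => (g ξ : ℂ)) hgint.ofReal hgL
  rw [hgG, hG, fourierInv_fourier_eq] at hinv
  have hfin : (fun x => (f x : ℂ)) =ᵐ[volume] 𝓕⁻ (fun ξ => (g ξ : ℂ)) :=
    hLf.coeFn_toLp.symm.trans hinv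
  have hcontR : Continuous (𝓕⁻ (fun ξ => (g ξ : ℂ))) := by
    have hfe : 𝓕⁻ (fun ξ => (g ξ : ℂ)) = fun x => 𝓕 (fun y => ((g (-y) : ℝ) : ℂ)) x := by
      funext x
      rw [Real.fourierInv_eq_fourier_comp_neg]
    rw [hfe]
    have := VectorFourier.fourierIntegral_continuous (L := innerₗ ℝ) Real.continuous_fourierChar
      continuous_inner (μ := volume) (hgint.comp_neg.ofReal (𝕜 := ℂ))
    exact this
  have hall := (Continuous.ae_eq_iff_eq volume (Complex.continuous_ofReal.comp hc) hcontR).1 hfin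
  intro x
  exact congrFun hall x

theorem t_SPEC : S_SPEC := by
  intro γ hc he hpsd hsq
  have hP : PSDFun γ := psd_of_fin hpsd
  -- |γ t| ≤ γ 0
  have h00 : 0 ≤ γ 0 := by
    have := hpsd 1 (fun _ => 0) (fun _ => 1)
    simpa using this
  have hbd : ∀ t, |γ t| ≤ γ 0 := by
    intro t
    have h1 := hpsd 2 ![t, 0] ![1, 1]
    have h2 := hpsd 2 ![t, 0] ![1, -1]
    simp [Fin.sum_univ_two, he t] at h1 h2
    rw [abs_le]
    constructor <;> linarith
  rcases h00.eq_or_lt with h0 | h0
  · refine ⟨fun _ => 0, fun _ => le_rfl, integrable_zero _ _ _, fun t => ?_⟩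
    have : γ t = 0 := by
      have := hbd t
      rw [← h0] at this
      exact abs_nonpos_iff.1 this
    simp [this]
  · set f : ℝ → ℝ := fun t => γ t / γ 0 with hf
    have hfP : PSDFun f := by
      intro s w
      have h1 := hP s w
      have h2 : ∑ x ∈ s, ∑ y ∈ s, w x * w y * f (x - y) =
          (∑ x ∈ s, ∑ y ∈ s, w x * w y * γ (x - y)) / γ 0 := by
        rw [Finset.sum_div]
        refine Finset.sum_congr rfl fun x _ => ?_
        rw [Finset.sum_div]
        refine Finset.sum_congr rfl fun y _ => ?_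
        rw [hf]
        ring
      rw [h2]
      exact div_nonneg h1 h0.le
    obtain ⟨g, hg0, hgi, hg⟩ := spec_main hfP (hc.div_const _)
      (fun x => by
        rw [hf]
        simp only [abs_div, abs_of_pos h0]
        rw [div_le_one h0]
        exact hbd x)
      (fun x => by simp only [hf, he]) (by simp only [hf]; exact div_self h0.ne')
      (by
        refine (hsq.const_mul ((γ 0 ^ 2)⁻¹)).congr (Filter.Eventually.of_forall fun t => ?_)
        simp only [hf, div_pow]
        ring)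
    have h2pi : (0 : ℝ) < 2 * Real.pi := by positivity
    refine ⟨fun x => γ 0 * ((2 * Real.pi)⁻¹ * g (x / (2 * Real.pi))), fun x => ?_, ?_, fun t => ?_⟩
    · have := hg0 (x / (2 * Real.pi))
      positivity
    · exact ((hgi.comp_div h2pi.ne').const_mul _).const_mul _
    · have h1 := hg t
      rw [Real.fourierInv_eq'] at h1
      have h2 : ((γ t : ℝ) : ℂ) = (γ 0 : ℂ) * ((f t : ℝ) : ℂ) := by
        rw [← Complex.ofReal_mul, hf]
        congr 1
        field_simp
      rw [h2, h1]
      have h3 := Measure.integral_comp_div (fun ξ : ℝ => Complex.exp (Complex.I * t * (2 * Real.pi * ξ))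
        * (g ξ : ℂ)) (2 * Real.pi)
      have h4 : ∫ x : ℝ, ((γ 0 * ((2 * Real.pi)⁻¹ * g (x / (2 * Real.pi))) : ℝ) : ℂ) *
          Complex.exp (Complex.I * t * x) =
          (γ 0 : ℂ) * ((2 * Real.pi : ℝ)⁻¹ : ℂ) * ∫ x : ℝ, Complex.exp (Complex.I * t *
            (2 * Real.pi * ((x / (2 * Real.pi) : ℝ) : ℂ))) * (g (x / (2 * Real.pi)) : ℂ) := by
        rw [← integral_const_mul]
        refine integral_congr_ae (Filter.Eventually.of_forall fun x => ?_)
        simp only
        have h5 : (2 * Real.pi * ((x / (2 * Real.pi) : ℝ) : ℂ)) = (x : ℂ) := by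
          push_cast
          field_simp
        rw [h5]
        push_cast
        ring
      rw [h4, h3, abs_of_pos h2pi]
      rw [Complex.real_smul, ← mul_assoc, mul_assoc (γ 0 : ℂ)]
      have h6 : ((2 * Real.pi : ℝ)⁻¹ : ℂ) * ((2 * Real.pi : ℝ) : ℂ) = 1 := by
        rw [inv_mul_cancel₀]
        exact_mod_cast h2pi.ne'
      rw [h6, mul_one]
      congr 1
      refine integral_congr_ae (Filter.Eventually.of_forall fun ξ => ?_)
      simp only [smul_eq_mul]
      congr 2
      simp
      ring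

end Pool.Agent.K1H30.SP
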