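import Pool.Agent.K1H30.SP.Fin
import Pool.Agent.K1H30.SP.Spec

/-! Choice of the parameters and of the surface. -/

open Set MeasureTheory Filter

set_option autoImplicit false

namespace Pool.Agent.K1H30.SP

theorem par3 : ∃ N : ℕ, NeZero N ∧ Even N ∧
    Par3 (10 ^ 5) (10 ^ 90) N (1 / 10 ^ 88) (2 / 10 ^ 77) := by
  obtain ⟨m, hm⟩ := exists_pow_lt_of_lt_one (x := (1 / 10 ^ 900 : ℝ)) (y := 1 - (1 / 10 ^ 88) / 36)
    (by positivity) (by norm_num)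
  refine ⟨2 * (m + 1), ⟨by omega⟩, ⟨m + 1, by omega⟩, ?_⟩
  refine { D8 := by norm_num, L1 := by norm_num, pars := ?_, c1 := by norm_num, κ1 := by norm_num,
           κA := by norm_num, κW := by norm_num, q1 := by norm_num, q2 := ?_, L2 := by norm_num,
           N2 := ⟨m + 1, by omega⟩ }
  · exact { δ0 := by norm_num, δ1 := by norm_num, c0 := by norm_num, cδ := by norm_num,
            l1 := by norm_num, l2 := by norm_num, l3 := by norm_num, l4 := by norm_num }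
  · have h0 : (0 : ℝ) ≤ 1 - (1 / 10 ^ 88) / 36 := by norm_num
    have h1 : (1 - (1 / 10 ^ 88) / 36 : ℝ) ≤ 1 := by norm_num
    have h2 : (1 - (1 / 10 ^ 88) / 36 : ℝ) ^ (2 * (2 * (m + 1))) ≤
        (1 - (1 / 10 ^ 88) / 36 : ℝ) ^ m := pow_le_pow_of_le_one h0 h1 (by omega)
    have h3 := h2.trans hm.le
    have h4 : (((10 ^ 90 : ℕ) : ℝ)) ^ 10 = 10 ^ 900 := by
      rw [Nat.cast_pow, ← pow_mul]
      simp only [Nat.cast_ofNat, Nat.reduceMul]
    rw [h4]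
    calc (1 - (1 / 10 ^ 88) / 36 : ℝ) ^ (2 * (2 * (m + 1))) * 10 ^ 900
        ≤ (1 / 10 ^ 900) * 10 ^ 900 := by gcongr
      _ = 1 := one_div_mul_cancel (by positivity)

/-- almost every pair of directions is not degenerate -/
theorem ae_cos : ∀ᵐ θ : ℝ, Real.cos θ ≠ 0 := by
  have h : {θ : ℝ | ¬ Real.cos θ ≠ 0} ⊆ range fun k : ℤ => (2 * k + 1) * Real.pi / 2 := by
    intro θ hθ
    simp only [ne_eq, not_not, mem_ofPred_eq] at hθ
    obtain ⟨k, hk⟩ := Real.cos_eq_zero_iff.mp hθ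
    exact ⟨k, hk.symm⟩
  exact ((countable_range _).mono h).measure_zero _

theorem ae_tan (θ : ℝ) (hθ : Real.cos θ ≠ 0) :
    ∀ᵐ φ : ℝ, Real.cos φ ≠ 0 ∧ Real.tan θ ≠ Real.tan φ := by
  have h : {φ : ℝ | ¬ (Real.cos φ ≠ 0 → Real.tan θ ≠ Real.tan φ)} ⊆
      range fun k : ℤ => θ - k * Real.pi := by
    intro φ hφ
    simp only [ne_eq, Classical.not_imp, not_not, mem_ofPred_eq] at hφ
    obtain ⟨h1, h2⟩ := hφ
    have h3 : Real.sin (θ - φ) = 0 := by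
      rw [Real.sin_sub]
      rw [Real.tan_eq_sin_div_cos, Real.tan_eq_sin_div_cos, div_eq_div_iff hθ h1] at h2
      linarith
    obtain ⟨k, hk⟩ := Real.sin_eq_zero_iff.mp h3
    exact ⟨k, by simp only; linarith⟩
  have h2 : ∀ᵐ φ : ℝ, Real.cos φ ≠ 0 → Real.tan θ ≠ Real.tan φ :=
    ((countable_range _).mono h).measure_zero _
  filter_upwards [ae_cos, h2] with φ h3 h4
  exact ⟨h3, h4 h3⟩

variable {N : ℕ}

attribute [local irreducible] Phi cu Cn G FF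

theorem choice {D₀ L₀ : ℕ} {c κ : ℝ} [NeZero N] (h : Par3 D₀ L₀ N c κ)
    (hB : ∀ J, U (BJ D₀ L₀ J) ≤ ENNReal.ofReal ((1 / 2) ^ J)) :
    ∃ (a e : ℝ) (z z' : Fin N → ℝ), a ≠ 0 ∧ z ∈ Bz (N := N) 0 (1 / 4) (1 / 2) ∧
      z' ∈ Bz (N := N) (1 / 2) (3 / 4) 1 ∧ ∀ᵐ p : ℝ × ℝ,
        Real.cos p.1 ≠ 0 ∧ Real.cos p.2 ≠ 0 ∧
        Phi z z' (a * Real.tan p.1 + e) (a * Real.tan p.2 + e) (Real.cos p.1) (Real.cos p.2) < ⊤ := by
  obtain ⟨M, hM⟩ : ∃ M : Measure ((ℝ × ℝ) × ((Fin N → ℝ) × (Fin N → ℝ))),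
    M = (volume : Measure (ℝ × ℝ)).prod ((UN N).prod (UN N)) := ⟨_, rfl⟩
  have hsf1 : SFinite ((UN N).prod (UN N)) := inferInstance
  have hsf2 : SFinite (volume : Measure (ℝ × ℝ)) := inferInstance
  have hsf : SFinite M := by
    rw [hM]
    exact @Measure.prod.instSFinite _ _ _ _ hsf2 _ _ hsf1
  -- the measurable set of good configurations
  have hmeas : MeasurableSet {x : (ℝ × ℝ) × ((ℝ × ℝ) × ((Fin N → ℝ) × (Fin N → ℝ))) |
      Real.cos x.1.1 ≠ 0 ∧ Real.cos x.1.2 ≠ 0 ∧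
      Phi x.2.2.1 x.2.2.2 (x.2.1.1 * Real.tan x.1.1 + x.2.1.2) (x.2.1.1 * Real.tan x.1.2 + x.2.1.2)
        (Real.cos x.1.1) (Real.cos x.1.2) < ⊤} := by
    have m1 : Measurable (fun x : (ℝ × ℝ) × ((ℝ × ℝ) × ((Fin N → ℝ) × (Fin N → ℝ))) =>
        Real.cos x.1.1) := Real.measurable_cos.comp (by fun_prop)
    have m2 : Measurable (fun x : (ℝ × ℝ) × ((ℝ × ℝ) × ((Fin N → ℝ) × (Fin N → ℝ))) =>
        Real.cos x.1.2) := Real.measurable_cos.comp (by fun_prop)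
    have mt : Measurable Real.tan := by
      have : Real.tan = fun x => Real.sin x / Real.cos x := funext Real.tan_eq_sin_div_cos
      rw [this]
      exact Real.measurable_sin.div Real.measurable_cos
    have m3 : Measurable (fun x : (ℝ × ℝ) × ((ℝ × ℝ) × ((Fin N → ℝ) × (Fin N → ℝ))) =>
        Real.tan x.1.1) := mt.comp (by fun_prop)
    have m4 : Measurable (fun x : (ℝ × ℝ) × ((ℝ × ℝ) × ((Fin N → ℝ) × (Fin N → ℝ))) =>
        Real.tan x.1.2) := mt.comp (by fun_prop)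
    have m5 : Measurable (fun x : (ℝ × ℝ) × ((ℝ × ℝ) × ((Fin N → ℝ) × (Fin N → ℝ))) =>
        Phi x.2.2.1 x.2.2.2 (x.2.1.1 * Real.tan x.1.1 + x.2.1.2)
          (x.2.1.1 * Real.tan x.1.2 + x.2.1.2) (Real.cos x.1.1) (Real.cos x.1.2)) :=
      Phi_meas.comp (f := fun x : (ℝ × ℝ) × ((ℝ × ℝ) × ((Fin N → ℝ) × (Fin N → ℝ))) =>
      ((x.2.2.1, x.2.2.2), ((x.2.1.1 * Real.tan x.1.1 + x.2.1.2, x.2.1.1 * Real.tan x.1.2 + x.2.1.2),
        (Real.cos x.1.1, Real.cos x.1.2)))) (by fun_prop)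
    have m6 : MeasurableSet {x : (ℝ × ℝ) × ((ℝ × ℝ) × ((Fin N → ℝ) × (Fin N → ℝ))) |
        Phi x.2.2.1 x.2.2.2 (x.2.1.1 * Real.tan x.1.1 + x.2.1.2)
          (x.2.1.1 * Real.tan x.1.2 + x.2.1.2) (Real.cos x.1.1) (Real.cos x.1.2) < ⊤} :=
      measurableSet_lt m5 measurable_const
    exact (m1 (measurableSet_singleton 0).compl).inter
      ((m2 (measurableSet_singleton 0).compl).inter m6)
  have h1 : ∀ᵐ p : ℝ × ℝ, ∀ᵐ x ∂M, Real.cos p.1 ≠ 0 ∧ Real.cos p.2 ≠ 0 ∧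
      Phi x.2.1 x.2.2 (x.1.1 * Real.tan p.1 + x.1.2) (x.1.1 * Real.tan p.2 + x.1.2)
        (Real.cos p.1) (Real.cos p.2) < ⊤ := by
    have h2 : ∀ᵐ p : ℝ × ℝ, Real.cos p.1 ≠ 0 ∧ Real.cos p.2 ≠ 0 ∧ Real.tan p.1 ≠ Real.tan p.2 := by
      have mt : Measurable Real.tan := by
        have : Real.tan = fun x => Real.sin x / Real.cos x := funext Real.tan_eq_sin_div_cos
        rw [this]
        exact Real.measurable_sin.div Real.measurable_cos
      have hms : MeasurableSet {p : ℝ × ℝ | Real.cos p.1 ≠ 0 ∧ Real.cos p.2 ≠ 0 ∧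
          Real.tan p.1 ≠ Real.tan p.2} := by
        refine MeasurableSet.inter ((Real.measurable_cos.comp measurable_fst)
          (measurableSet_singleton 0).compl) (MeasurableSet.inter
          ((Real.measurable_cos.comp measurable_snd) (measurableSet_singleton 0).compl) ?_)
        exact (measurableSet_eq_fun (mt.comp measurable_fst) (mt.comp measurable_snd)).compl
      rw [Measure.volume_eq_prod, Measure.ae_prod_iff_ae_ae hms]
      filter_upwards [ae_cos] with θ hθ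
      filter_upwards [ae_tan θ hθ] with φ hφ
      exact ⟨hθ, hφ.1, hφ.2⟩
    filter_upwards [h2] with p hp
    have h3 := ae_lin h hB hp.1 hp.2.1 hp.2.2
    rw [hM]
    filter_upwards [h3] with x hx
    exact ⟨hp.1, hp.2.1, hx⟩
  rw [Measure.ae_ae_comm hmeas] at h1
  have hpos : M (((Ioo 1 2 : Set ℝ) ×ˢ (Ioo 0 1 : Set ℝ)) ×ˢ
      ((Bz (N := N) 0 (1 / 4) (1 / 2)) ×ˢ (Bz (N := N) (1 / 2) (3 / 4) 1))) ≠ 0 := by
    rw [hM, Measure.prod_prod, Measure.prod_prod, Measure.volume_eq_prod, Measure.prod_prod]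
    refine mul_ne_zero (mul_ne_zero ?_ ?_) (mul_ne_zero ?_ ?_)
    · rw [Real.volume_Ioo]; norm_num
    · rw [Real.volume_Ioo]; norm_num
    · exact Bz_pos (by norm_num) (by norm_num) (by norm_num) (by norm_num)
    · exact Bz_pos (by norm_num) (by norm_num) (by norm_num) (by norm_num)
  obtain ⟨x, hx1, hx2⟩ := Measure.exists_mem_of_measure_ne_zero_of_ae hpos (ae_restrict_of_ae h1)
  refine ⟨x.1.1, x.1.2, x.2.1, x.2.2, ?_, hx1.2.1, hx1.2.2, hx2⟩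
  have := hx1.1.1.1
  intro h0
  rw [h0] at this
  norm_num at this

/-- The spectral measure of the sheet function is absolutely continuous. -/
theorem abs_cont {z z' : Fin N → ℝ} (X : GluedSurface (Bool × Bool)) (hX : X.π = pip z z')
    (θ φ : ℝ) (h : Phi z z' (X.v₁ θ / X.v₂ θ) (X.v₁ φ / X.v₂ φ) (X.v₂ θ) (X.v₂ φ) < ⊤) :
    (∫ q, FF X (X.prodFlow θ φ 0 q) * FF X q ∂(X.area.prod X.area) = 1) ∧
    ∃ h : ℝ → ℝ, (∀ x, 0 ≤ h x) ∧ Integrable h ∧ ∀ t : ℝ,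
      ((∫ q, FF X (X.prodFlow θ φ t q) * FF X q ∂(X.area.prod X.area) : ℝ) : ℂ) =
        ∫ x : ℝ, ((h x : ℝ) : ℂ) * Complex.exp (Complex.I * t * x) := by
  refine ⟨by rw [corr hX, zero_mul, zero_mul, cu_zero, cu_zero, one_mul], ?_⟩
  obtain ⟨γ, hγ⟩ : ∃ γ : ℝ → ℝ, γ = fun t =>
    ∫ q, FF X (X.prodFlow θ φ t q) * FF X q ∂(X.area.prod X.area) := ⟨_, rfl⟩
  have hγ2 : γ = fun t => cu z (X.v₁ θ / X.v₂ θ) (t * X.v₂ θ) *
      cu z' (X.v₁ φ / X.v₂ φ) (t * X.v₂ φ) := by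
    rw [hγ]
    funext t
    exact corr hX θ φ t
  have hcont : Continuous γ := by
    rw [hγ2]
    exact ((cu_cont z _).comp (continuous_mul_const _)).mul
      ((cu_cont z' _).comp (continuous_mul_const _))
  have hT : ∀ t, MeasurePreserving (X.prodFlow θ φ t) (X.area.prod X.area) (X.area.prod X.area) :=
    fun t => prodFlow_mp X θ φ t
  have hadd : ∀ s t q, X.prodFlow θ φ s (X.prodFlow θ φ t q) = X.prodFlow θ φ (t + s) q :=
    fun s t q => prodFlow_add X θ φ s t q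
  have hint : Integrable (fun t => γ t ^ 2) := by
    refine ⟨(hcont.pow 2).aestronglyMeasurable, ?_⟩
    rw [hasFiniteIntegral_iff_ofReal (Eventually.of_forall fun t => sq_nonneg _)]
    refine lt_of_le_of_lt (le_of_eq ?_) h
    unfold Phi
    refine lintegral_congr fun t => ?_
    rw [hγ2, ← ENNReal.ofReal_mul (sq_nonneg _), mul_pow]
  have := t_SPEC γ hcont ?_ ?_ hint
  · rw [hγ] at this
    exact this
  · rw [hγ]
    exact fun t => corr_even hT hadd FF_meas t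
  · rw [hγ]
    exact fun n t a => corr_psd hT hadd FF_meas FF_abs n t a

theorem fam_v₂ [NeZero N] (hN : Even N) (a c : ℝ) (ha : a ≠ 0) (z z' : Fin N → ℝ)
    (hz : z ∈ Bz (N := N) 0 (1 / 4) (1 / 2)) (hz' : z' ∈ Bz (N := N) (1 / 2) (3 / 4) 1) (θ : ℝ) :
    (fam hN a c ha z z' hz hz').v₂ θ = Real.cos θ := by
  unfold GluedSurface.v₂ fam
  simp only
  field_simp
  ring

theorem fam_v₁ [NeZero N] (hN : Even N) (a c : ℝ) (ha : a ≠ 0) (z z' : Fin N → ℝ)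
    (hz : z ∈ Bz (N := N) 0 (1 / 4) (1 / 2)) (hz' : z' ∈ Bz (N := N) (1 / 2) (3 / 4) 1) (θ : ℝ) :
    (fam hN a c ha z z' hz hz').v₁ θ = a * Real.sin θ + c * Real.cos θ := by
  unfold GluedSurface.v₁ fam
  simp only
  field_simp
  ring

theorem BJ_le (hN : S_NICE) (J : ℕ) :
    U (BJ (10 ^ 5) (10 ^ 90) J) ≤ ENNReal.ofReal ((1 / 2) ^ J) := by
  rw [U_Icc, Measure.restrict_apply' measurableSet_Icc, inter_comm]
  exact hN (10 ^ 90) (by norm_num) J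

theorem main {D₀ L₀ : ℕ} {c κ : ℝ} [NeZero N] (h : Par3 D₀ L₀ N c κ)
    (hB : ∀ J, U (BJ D₀ L₀ J) ≤ ENNReal.ofReal ((1 / 2) ^ J)) :
    ∃ X : GluedSurface (Bool × Bool), ∀ᵐ p : ℝ × ℝ,
      (∫ q, FF X (X.prodFlow p.1 p.2 0 q) * FF X q ∂(X.area.prod X.area) = 1) ∧
      ∃ h : ℝ → ℝ, (∀ x, 0 ≤ h x) ∧ Integrable h ∧ ∀ t : ℝ,
      ((∫ q, FF X (X.prodFlow p.1 p.2 t q) * FF X q ∂(X.area.prod X.area) : ℝ) : ℂ) =
        ∫ x : ℝ, ((h x : ℝ) : ℂ) * Complex.exp (Complex.I * t * x) := by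
  obtain ⟨a, e, z, z', ha, hz, hz', hae⟩ := choice h hB
  refine ⟨fam h.N2 a e ha z z' hz hz', ?_⟩
  filter_upwards [hae] with p hp
  refine abs_cont _ rfl p.1 p.2 ?_
  have h1 : ∀ θ : ℝ, Real.cos θ ≠ 0 → (a * Real.sin θ + e * Real.cos θ) / Real.cos θ =
      a * Real.tan θ + e := by
    intro θ hθ
    rw [Real.tan_eq_sin_div_cos]
    field_simp
  rw [fam_v₁, fam_v₁, fam_v₂, fam_v₂, h1 _ hp.1, h1 _ hp.2.1]
  exact hp.2.2

end Pool.Agent.K1H30.SP
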