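import Pool.Agent.K1H30.SP.Sum

/-! Almost every choice of the slopes and of the branch points. -/

open Set MeasureTheory Filter

set_option autoImplicit false

namespace Pool.Agent.K1H30.SP

theorem rearr {A B : Type*} [MeasurableSpace A] [MeasurableSpace B] (μ : Measure A)
    (ν : Measure B) [SFinite μ] [SFinite ν] :
    MeasurePreserving (fun p : (B × B) × (A × A) => ((p.2.1, p.1.1), (p.2.2, p.1.2)))
      ((ν.prod ν).prod (μ.prod μ)) ((μ.prod ν).prod (μ.prod ν)) := by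
  have hT : Measurable (fun p : (B × B) × (A × A) => ((p.2.1, p.1.1), (p.2.2, p.1.2))) := by
    fun_prop
  refine ⟨hT, ?_⟩
  refine Measure.ext_of_lintegral _ fun f hf => ?_
  rw [lintegral_map hf hT]
  have hf1 : Measurable (fun p : (B × B) × (A × A) => f ((p.2.1, p.1.1), (p.2.2, p.1.2))) :=
    hf.comp hT
  rw [lintegral_prod _ hf1.aemeasurable, lintegral_prod _ hf.aemeasurable]
  have e1 : ∀ x : B × B, ∫⁻ y : A × A, f ((y.1, x.1), (y.2, x.2)) ∂(μ.prod μ) =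
      ∫⁻ a, ∫⁻ a', f ((a, x.1), (a', x.2)) ∂μ ∂μ := by
    intro x
    rw [lintegral_prod]
    exact (hf.comp (by fun_prop : Measurable fun y : A × A => ((y.1, x.1), (y.2, x.2)))).aemeasurable
  have e2 : ∀ x : A × B, ∫⁻ y : A × B, f (x, y) ∂(μ.prod ν) =
      ∫⁻ a', ∫⁻ b', f (x, (a', b')) ∂ν ∂μ := by
    intro x
    rw [lintegral_prod]
    exact (hf.comp (by fun_prop : Measurable fun y : A × B => (x, y))).aemeasurable
  simp only [e1, e2]
  have hm1 : Measurable (fun x : B × B => ∫⁻ a, ∫⁻ a', f ((a, x.1), (a', x.2)) ∂μ ∂μ) := by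
    refine Measurable.lintegral_prod_right' (f := fun q : (B × B) × A =>
      ∫⁻ a', f ((q.2, q.1.1), (a', q.1.2)) ∂μ) ?_
    exact Measurable.lintegral_prod_right' (f := fun q : ((B × B) × A) × A =>
      f ((q.1.2, q.1.1.1), (q.2, q.1.1.2))) (hf.comp (by fun_prop))
  have hm2 : Measurable (fun x : A × B => ∫⁻ a', ∫⁻ b', f (x, (a', b')) ∂ν ∂μ) := by
    refine Measurable.lintegral_prod_right' (f := fun q : (A × B) × A =>
      ∫⁻ b', f (q.1, (q.2, b')) ∂ν) ?_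
    exact Measurable.lintegral_prod_right' (f := fun q : ((A × B) × A) × B =>
      f (q.1.1, (q.1.2, q.2))) (hf.comp (by fun_prop))
  rw [lintegral_prod _ hm1.aemeasurable, lintegral_prod _ hm2.aemeasurable]
  -- `∫b ∫b' ∫a ∫a' = ∫b ∫a ∫a' ∫b'`
  have e3 : ∀ b : B, ∫⁻ b', ∫⁻ a, ∫⁻ a', f ((a, b), (a', b')) ∂μ ∂μ ∂ν =
      ∫⁻ a, ∫⁻ a', ∫⁻ b', f ((a, b), (a', b')) ∂ν ∂μ ∂μ := by
    intro b
    rw [lintegral_lintegral_swap]
    · refine lintegral_congr fun a => ?_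
      rw [lintegral_lintegral_swap]
      exact (hf.comp (by fun_prop : Measurable fun q : B × A => ((a, b), (q.2, q.1)))).aemeasurable
    · refine Measurable.aemeasurable ?_
      exact Measurable.lintegral_prod_right' (f := fun q : (B × A) × A =>
        f ((q.1.2, b), (q.2, q.1.1))) (hf.comp (by fun_prop))
  simp only [e3]
  rw [lintegral_lintegral_swap]
  refine Measurable.aemeasurable ?_
  exact hm2.comp (by fun_prop : Measurable fun q : B × A => (q.2, q.1))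

theorem fract_qmp : Measure.QuasiMeasurePreserving (fun x : ℝ => Int.fract x) volume U := by
  refine ⟨measurable_fract, Measure.AbsolutelyContinuous.mk fun s hs h0 => ?_⟩
  rw [Measure.map_apply measurable_fract hs]
  have h1 : (fun x : ℝ => Int.fract x) ⁻¹' s ⊆ ⋃ k : ℤ, (fun x : ℝ => x + (-k : ℤ)) ⁻¹' (s ∩ Ico 0 1) := by
    intro x hx
    rw [mem_iUnion]
    refine ⟨⌊x⌋, ?_, ?_⟩
    · change x + ((-⌊x⌋ : ℤ) : ℝ) ∈ s
      rw [show x + ((-⌊x⌋ : ℤ) : ℝ) = Int.fract x by rw [← Int.self_sub_floor]; push_cast; ring]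
      exact hx
    · change x + ((-⌊x⌋ : ℤ) : ℝ) ∈ Ico (0 : ℝ) 1
      rw [show x + ((-⌊x⌋ : ℤ) : ℝ) = Int.fract x by rw [← Int.self_sub_floor]; push_cast; ring]
      exact ⟨Int.fract_nonneg x, Int.fract_lt_one x⟩
  refine measure_mono_null h1 (measure_iUnion_null fun k => ?_)
  rw [measure_preimage_add_right]
  unfold U at h0
  rw [Measure.restrict_apply hs] at h0
  exact h0

theorem lin_qmp {s t : ℝ} (hst : s ≠ t) : Measure.QuasiMeasurePreserving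
    (fun q : ℝ × ℝ => (q.1 * s + q.2, q.1 * t + q.2)) volume volume := by
  obtain ⟨f, hf⟩ : ∃ f : (ℝ × ℝ) →ₗ[ℝ] (ℝ × ℝ), f =
    { toFun := fun q => (q.1 * s + q.2, q.1 * t + q.2)
      map_add' := fun x y => by ext <;> simp <;> ring
      map_smul' := fun r x => by ext <;> simp <;> ring } := ⟨_, rfl⟩
  have hinj : Function.Injective f := by
    rw [← LinearMap.ker_eq_bot, LinearMap.ker_eq_bot']
    intro q hq
    rw [hf] at hq
    simp only [LinearMap.coe_mk, AddHom.coe_mk, Prod.mk_eq_zero] at hq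
    have h1 : q.1 * (s - t) = 0 := by linarith [hq.1, hq.2]
    have h2 : q.1 = 0 := by
      rcases mul_eq_zero.mp h1 with h | h
      · exact h
      · exact absurd (sub_eq_zero.mp h) hst
    have h3 : q.2 = 0 := by
      have := hq.1
      rw [h2] at this
      linarith
    exact Prod.ext h2 h3
  have hdet : LinearMap.det f ≠ 0 := by
    have h1 := LinearEquiv.isUnit_det' (LinearEquiv.ofInjectiveEndo f hinj)
    have h2 : ((LinearEquiv.ofInjectiveEndo f hinj : (ℝ × ℝ) ≃ₗ[ℝ] (ℝ × ℝ)) :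
      (ℝ × ℝ) →ₗ[ℝ] (ℝ × ℝ)) = f := by
      ext <;> rfl
    rw [h2] at h1
    exact h1.ne_zero
  have := Measure.LinearMap.quasiMeasurePreserving (volume : Measure (ℝ × ℝ)) f hdet
  rw [hf] at this
  exact this

variable {D₀ L₀ N : ℕ} {c κ : ℝ}

theorem Cn_int (z : Fin N → ℝ) (α : ℝ) (n : ℕ) (k : ℤ) : Cn z (α + k) n = Cn z α n := by
  have h1 : ∀ w x : ℝ, G w (α + k) n x = G w α n x := by
    intro w x
    unfold G D
    congr 1
    refine Finset.sum_congr rfl fun j _ => ?_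
    rw [show x + (j : ℝ) * (α + k) = x + j * α + ((j * k : ℤ) : ℝ) by push_cast; ring, b_int]
  unfold Cn
  simp only [h1]

theorem cu_fract (z : Fin N → ℝ) (α u : ℝ) : cu z (Int.fract α) u = cu z α u := by
  unfold cu
  refine integral_congr_ae (Eventually.of_forall fun y => ?_)
  simp only
  rw [show Int.fract α = α + ((-⌊α⌋ : ℤ) : ℝ) by rw [← Int.self_sub_floor]; push_cast; ring,
    Cn_int]

/-- the integral of the squared product correlation -/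
noncomputable def Phi (z z' : Fin N → ℝ) (α α' lam lam' : ℝ) : ENNReal :=
  ∫⁻ t : ℝ, ENNReal.ofReal (cu z α (t * lam) ^ 2) * ENNReal.ofReal (cu z' α' (t * lam') ^ 2)

theorem Cn_meas2 : Measurable (fun q : ((Fin N → ℝ) × ℝ) × ℕ => Cn q.1.1 q.1.2 q.2) :=
  measurable_from_prod_countable_left fun n => Cn_meas n

attribute [local irreducible] Cn G gg

theorem cu_meas : Measurable (fun q : (Fin N → ℝ) × ℝ × ℝ => cu q.1 q.2.1 q.2.2) := by
  unfold cu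
  have h2 : Measurable (fun r : ((Fin N → ℝ) × ℝ × ℝ) × ℝ =>
      Cn r.1.1 r.1.2.1 (⌊r.2 + r.1.2.2⌋.natAbs)) :=
    Cn_meas2.comp (Measurable.prodMk (f := fun r : ((Fin N → ℝ) × ℝ × ℝ) × ℝ => (r.1.1, r.1.2.1))
      (by fun_prop) (natAbs_meas (f := fun r : ((Fin N → ℝ) × ℝ × ℝ) × ℝ => r.2 + r.1.2.2)
        (by fun_prop)))
  exact (StronglyMeasurable.integral_prod_right' (ν := U)
    (f := fun r : ((Fin N → ℝ) × ℝ × ℝ) × ℝ =>
      Cn r.1.1 r.1.2.1 (⌊r.2 + r.1.2.2⌋.natAbs)) h2.stronglyMeasurable).measurable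

attribute [local irreducible] cu

theorem Phi_meas : Measurable (fun q : ((Fin N → ℝ) × (Fin N → ℝ)) × (ℝ × ℝ) × (ℝ × ℝ) =>
    Phi q.1.1 q.1.2 q.2.1.1 q.2.1.2 q.2.2.1 q.2.2.2) := by
  unfold Phi
  have h1 : Measurable (fun r : (((Fin N → ℝ) × (Fin N → ℝ)) × (ℝ × ℝ) × (ℝ × ℝ)) × ℝ =>
      ENNReal.ofReal (cu r.1.1.1 r.1.2.1.1 (r.2 * r.1.2.2.1) ^ 2) *
        ENNReal.ofReal (cu r.1.1.2 r.1.2.1.2 (r.2 * r.1.2.2.2) ^ 2)) := by
    have a1 : Measurable (fun r : (((Fin N → ℝ) × (Fin N → ℝ)) × (ℝ × ℝ) × (ℝ × ℝ)) × ℝ =>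
      cu r.1.1.1 r.1.2.1.1 (r.2 * r.1.2.2.1)) := cu_meas.comp (by fun_prop :
        Measurable fun r : (((Fin N → ℝ) × (Fin N → ℝ)) × (ℝ × ℝ) × (ℝ × ℝ)) × ℝ =>
          (r.1.1.1, r.1.2.1.1, r.2 * r.1.2.2.1))
    have a2 : Measurable (fun r : (((Fin N → ℝ) × (Fin N → ℝ)) × (ℝ × ℝ) × (ℝ × ℝ)) × ℝ =>
      cu r.1.1.2 r.1.2.1.2 (r.2 * r.1.2.2.2)) := cu_meas.comp (by fun_prop :
        Measurable fun r : (((Fin N → ℝ) × (Fin N → ℝ)) × (ℝ × ℝ) × (ℝ × ℝ)) × ℝ =>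
          (r.1.1.2, r.1.2.1.2, r.2 * r.1.2.2.2))
    exact (a1.pow_const 2).ennreal_ofReal.mul (a2.pow_const 2).ennreal_ofReal
  exact h1.lintegral_prod_right'

attribute [local irreducible] Phi

/-- few exceptional slopes, in all scales -/
theorem ae_GJ (hB : ∀ J, U (BJ D₀ L₀ J) ≤ ENNReal.ofReal ((1 / 2) ^ J)) :
    ∀ᵐ α ∂U, ∃ J₀, α ∈ GJ D₀ L₀ J₀ := by
  have h1 : ∑' J, U (BJ D₀ L₀ J) ≠ ⊤ := by
    refine ne_top_of_le_ne_top ?_ (ENNReal.tsum_le_tsum hB)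
    rw [← ENNReal.ofReal_tsum_of_nonneg (fun n => by positivity) summable_geometric_two]
    exact ENNReal.ofReal_ne_top
  filter_upwards [ae_eventually_notMem h1] with α hα
  obtain ⟨J₀, hJ⟩ := eventually_atTop.mp hα
  exact ⟨J₀, fun J hJ' => hJ J hJ'⟩

theorem GJ_mono {J₀ J₁ : ℕ} (h : J₀ ≤ J₁) : GJ D₀ L₀ J₀ ⊆ GJ D₀ L₀ J₁ :=
  fun _ hα J hJ => hα J (h.trans hJ)

theorem ae_U (h : Par3 D₀ L₀ N c κ) (hB : ∀ J, U (BJ D₀ L₀ J) ≤ ENNReal.ofReal ((1 / 2) ^ J))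
    {lam lam' : ℝ} (hl : lam ≠ 0) (hl' : lam' ≠ 0) :
    ∀ᵐ q ∂(((UN N).prod U).prod ((UN N).prod U)), Phi q.1.1 q.2.1 q.1.2 q.2.2 lam lam' < ⊤ := by
  have h1 : ∀ J₀ : ℕ, ∀ᵐ q ∂(((UN N).prod U).prod ((UN N).prod U)),
      q ∈ (univ ×ˢ GJ D₀ L₀ J₀) ×ˢ (univ ×ˢ GJ D₀ L₀ J₀) →
        Phi q.1.1 q.2.1 q.1.2 q.2.2 lam lam' < ⊤ := by
    intro J₀
    have hG := GJ_meas D₀ L₀ J₀
    rw [← ae_restrict_iff' ((MeasurableSet.univ.prod hG).prod (MeasurableSet.univ.prod hG)),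
      ← Measure.prod_restrict, ← Measure.prod_restrict, Measure.restrict_univ]
    refine ae_lt_top ?_ (by
      have := double_int (mJ D₀ L₀ N J₀) lam lam' hl hl' (E_sum h J₀)
      unfold Phi
      exact this)
    exact Phi_meas.comp (by fun_prop : Measurable fun q : ((Fin N → ℝ) × ℝ) × ((Fin N → ℝ) × ℝ) =>
      ((q.1.1, q.2.1), ((q.1.2, q.2.2), (lam, lam'))))
  have h2 : ∀ᵐ ω ∂((UN N).prod U), ∃ J₀, ω.2 ∈ GJ D₀ L₀ J₀ :=
    Measure.quasiMeasurePreserving_snd.ae (ae_GJ hB)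
  have h3 : ∀ᵐ q ∂(((UN N).prod U).prod ((UN N).prod U)), ∃ J₀, q.1.2 ∈ GJ D₀ L₀ J₀ :=
    Measure.quasiMeasurePreserving_fst.ae h2
  have h4 : ∀ᵐ q ∂(((UN N).prod U).prod ((UN N).prod U)), ∃ J₀, q.2.2 ∈ GJ D₀ L₀ J₀ :=
    Measure.quasiMeasurePreserving_snd.ae h2
  filter_upwards [ae_all_iff.mpr h1, h3, h4] with q hq1 ⟨J₁, hq3⟩ ⟨J₂, hq4⟩
  exact hq1 (max J₁ J₂) ⟨⟨mem_univ _, GJ_mono (le_max_left _ _) hq3⟩,
    ⟨mem_univ _, GJ_mono (le_max_right _ _) hq4⟩⟩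

/-- almost every choice, for a fixed pair of directions -/
theorem ae_lin (h : Par3 D₀ L₀ N c κ) (hB : ∀ J, U (BJ D₀ L₀ J) ≤ ENNReal.ofReal ((1 / 2) ^ J))
    {lam lam' s t : ℝ} (hl : lam ≠ 0) (hl' : lam' ≠ 0) (hst : s ≠ t) :
    ∀ᵐ p ∂((volume : Measure (ℝ × ℝ)).prod ((UN N).prod (UN N))),
      Phi p.2.1 p.2.2 (p.1.1 * s + p.1.2) (p.1.1 * t + p.1.2) lam lam' < ⊤ := by
  have h1 := (rearr (UN N) U).quasiMeasurePreserving.ae (ae_U h hB hl hl')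
  have h2 : Measure.QuasiMeasurePreserving (fun q : ℝ × ℝ => (Int.fract q.1, Int.fract q.2))
      (volume : Measure (ℝ × ℝ)) (U.prod U) := MeasureTheory.QuasiMeasurePreserving.prodMap fract_qmp fract_qmp
  have h3 := h2.comp (lin_qmp hst)
  have h4 := (MeasureTheory.QuasiMeasurePreserving.prodMap h3
    (Measure.QuasiMeasurePreserving.id ((UN N).prod (UN N)))).ae h1
  filter_upwards [h4] with p hp
  unfold Phi at hp ⊢
  simp only [Prod.map_fst, Prod.map_snd, Function.comp_apply, id_eq, cu_fract] at hp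
  exact hp

end Pool.Agent.K1H30.SP
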