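import Pool.Agent.K1H30.SP.Stmts

/-! Few scales are not nice (piece NICE). -/

open Set MeasureTheory

set_option autoImplicit false

namespace Pool.Agent.K1H30.SP

namespace Nice

/-- `{α : |dα - p| < r}` -/
def Bq (r : ℝ) (q : ℕ × ℤ) : Set ℝ := {α | |(q.1 : ℝ) * α - q.2| < r}

/-- admissible pairs -/
def G (X : ℝ) : Set (ℕ × ℤ) := {q | 1 ≤ q.1 ∧ (q.1 : ℝ) ≤ 4 * X ∧ Int.gcd q.1 q.2 = 1}

/-- the scale is not nice -/
def NN (D₀ L₀ i : ℕ) : Set ℝ := {α | ¬ nice D₀ L₀ i α}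

lemma Bq_eq {r : ℝ} {q : ℕ × ℤ} (hq : 1 ≤ q.1) :
    Bq r q = Metric.ball ((q.2 : ℝ) / q.1) (r / q.1) := by
  have hd : (0 : ℝ) < q.1 := by exact_mod_cast hq
  ext α
  simp only [Bq, mem_ofPred_eq, Metric.mem_ball, Real.dist_eq]
  rw [lt_div_iff₀ hd, show α - (q.2 : ℝ) / q.1 = ((q.1 : ℝ) * α - q.2) / q.1 by field_simp,
    abs_div, abs_of_pos hd, div_mul_cancel₀ _ hd.ne']

lemma vol_Bq {r : ℝ} {q : ℕ × ℤ} (hq : 1 ≤ q.1) :
    volume (Bq r q) = ENNReal.ofReal (2 * (r / q.1)) := by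
  rw [Bq_eq hq, Real.volume_ball]

lemma meas_Bq {r : ℝ} {q : ℕ × ℤ} (hq : 1 ≤ q.1) : MeasurableSet (Bq r q) := by
  rw [Bq_eq hq]; exact measurableSet_ball

lemma cross_ne {q q' : ℕ × ℤ} (h1 : 1 ≤ q.1) (_h2 : 1 ≤ q'.1) (c1 : Int.gcd q.1 q.2 = 1)
    (c2 : Int.gcd q'.1 q'.2 = 1) (h : q.2 * q'.1 = q'.2 * q.1) : q = q' := by
  have e1 : (q.1 : ℤ) ∣ q'.1 := by
    have h3 : (q.1 : ℤ) ∣ q.2 * q'.1 := ⟨q'.2, by rw [h]; ring⟩
    exact (Int.isCoprime_iff_gcd_eq_one.2 c1).dvd_of_dvd_mul_left h3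
  have e2 : (q'.1 : ℤ) ∣ q.1 := by
    have h3 : (q'.1 : ℤ) ∣ q'.2 * q.1 := ⟨q.2, by rw [← h]; ring⟩
    exact (Int.isCoprime_iff_gcd_eq_one.2 c2).dvd_of_dvd_mul_left h3
  have e3 : q.1 = q'.1 := Nat.dvd_antisymm (by exact_mod_cast e1) (by exact_mod_cast e2)
  have e4 : q.2 = q'.2 := by
    rw [← e3] at h
    have h5 : (q.1 : ℤ) ≠ 0 := by omega
    exact mul_right_cancel₀ h5 h
  exact Prod.ext e3 e4

lemma cross_one {q q' : ℕ × ℤ} (h1 : 1 ≤ q.1) (h2 : 1 ≤ q'.1) (c1 : Int.gcd q.1 q.2 = 1)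
    (c2 : Int.gcd q'.1 q'.2 = 1) (h : q ≠ q') : (1 : ℝ) ≤ |(q.2 : ℝ) * q'.1 - q'.2 * q.1| := by
  have h3 : q.2 * q'.1 - q'.2 * q.1 ≠ 0 := fun h4 => h (cross_ne h1 h2 c1 c2 (by linarith))
  have h4 := Int.one_le_abs h3
  exact_mod_cast h4

lemma disj {X : ℝ} (hX : 0 < X) {q q' : ℕ × ℤ} (h : q ∈ G X) (h' : q' ∈ G X) (hne : q ≠ q') :
    Disjoint (Bq (1 / (8 * X)) q) (Bq (1 / (8 * X)) q') := by
  rw [Set.disjoint_left]
  intro α h1 h2
  obtain ⟨a1, a2, a3⟩ := h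
  obtain ⟨b1, b2, b3⟩ := h'
  have h5 := cross_one a1 b1 a3 b3 hne
  simp only [Bq, mem_ofPred_eq] at h1 h2
  have ha : (0 : ℝ) < q.1 := by exact_mod_cast a1
  have hb : (0 : ℝ) < q'.1 := by exact_mod_cast b1
  have e : (q.2 : ℝ) * q'.1 - q'.2 * q.1 =
      ((q'.1 : ℝ) * α - q'.2) * q.1 - ((q.1 : ℝ) * α - q.2) * q'.1 := by ring
  rw [e] at h5
  have h6 : |((q'.1 : ℝ) * α - q'.2) * q.1 - ((q.1 : ℝ) * α - q.2) * q'.1| ≤
      |(q'.1 : ℝ) * α - q'.2| * q.1 + |(q.1 : ℝ) * α - q.2| * q'.1 := by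
    refine (abs_sub _ _).trans (le_of_eq ?_)
    rw [abs_mul, abs_mul, abs_of_pos ha, abs_of_pos hb]
  have h7 : |(q'.1 : ℝ) * α - q'.2| * q.1 < 1 / (8 * X) * (4 * X) :=
    (mul_lt_mul_of_pos_right h2 ha).trans_le (mul_le_mul_of_nonneg_left a2 (by positivity))
  have h8 : |(q.1 : ℝ) * α - q.2| * q'.1 < 1 / (8 * X) * (4 * X) :=
    (mul_lt_mul_of_pos_right h1 hb).trans_le (mul_le_mul_of_nonneg_left b2 (by positivity))
  have h9 : 1 / (8 * X) * (4 * X) = 1 / 2 := by field_simp; norm_num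
  linarith

lemma of_not_nice {D₀ L₀ i : ℕ} {α : ℝ} (h : α ∈ NN D₀ L₀ i) :
    ∃ q ∈ G ((L₀ : ℝ) ^ i), α ∈ Bq (1 / (D₀ * (L₀ : ℝ) ^ i)) q := by
  simp only [NN, nice, mem_ofPred_eq] at h
  push Not at h
  obtain ⟨d, hd1, hd2, hd3⟩ := h
  obtain ⟨p, hp⟩ := nn_ex ((d : ℝ) * α)
  rw [hp] at hd3
  have hg0 : 0 < Int.gcd (d : ℤ) p := Int.gcd_pos_of_ne_zero_left _ (by omega)
  set g := Int.gcd (d : ℤ) p with hg
  obtain ⟨d', hd'⟩ : (g : ℤ) ∣ (d : ℤ) := Int.gcd_dvd_left ..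
  obtain ⟨p', hp'⟩ : (g : ℤ) ∣ p := Int.gcd_dvd_right ..
  have hd'0 : 0 < d' := by
    by_contra hc
    have : (g : ℤ) * d' ≤ 0 := mul_nonpos_of_nonneg_of_nonpos (by omega) (by omega)
    omega
  obtain ⟨e, rfl⟩ : ∃ e : ℕ, d' = e := ⟨d'.toNat, by omega⟩
  have hgR : (1 : ℝ) ≤ g := by exact_mod_cast hg0
  have hdR : (d : ℝ) = g * e := by exact_mod_cast hd'
  have hpR : (p : ℝ) = g * p' := by exact_mod_cast hp'
  refine ⟨(e, p'), ⟨by exact_mod_cast hd'0, ?_, ?_⟩, ?_⟩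
  · have h1 : (d : ℝ) ≤ 4 * (L₀ : ℝ) ^ i := by exact_mod_cast hd2
    have h2 : (e : ℝ) ≤ g * e := le_mul_of_one_le_left (by positivity) hgR
    simp only
    linarith
  · have h1 : Int.gcd (d / g) (p / g) = 1 := Int.gcd_div_gcd_div_gcd (i := (d : ℤ)) (j := p) hg0
    have h2 : (d : ℤ) / g = e := by rw [hd']; exact Int.mul_ediv_cancel_left _ (by omega)
    have h3 : p / (g : ℤ) = p' := by rw [hp']; exact Int.mul_ediv_cancel_left _ (by omega)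
    rw [h2, h3] at h1
    exact h1
  · simp only [Bq, mem_ofPred_eq]
    refine lt_of_le_of_lt ?_ hd3
    have h4 : (d : ℝ) * α - p = g * ((e : ℝ) * α - p') := by rw [hdR, hpR]; ring
    rw [h4, abs_mul, abs_of_pos (by linarith : (0 : ℝ) < g)]
    exact le_mul_of_one_le_left (abs_nonneg _) hgR

/-- the volumes of the intervals in terms of the disjoint intervals -/
lemma vol_cmp {X δ : ℝ} (hX : 0 < X) {q : ℕ × ℤ} (hq : q ∈ G X) :
    volume (Bq (δ / X) q) = ENNReal.ofReal (8 * δ) * volume (Bq (1 / (8 * X)) q) := by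
  have h0 : (0 : ℝ) < q.1 := by exact_mod_cast hq.1
  rw [vol_Bq hq.1, vol_Bq hq.1, ← ENNReal.ofReal_mul' (by positivity)]
  congr 1
  field_simp

/-- the step -/
lemma step {X δ : ℝ} (hX : 0 < X) (A : Set ℝ) (c : ENNReal)
    (hA : ∀ q ∈ G X, volume (Bq (δ / X) q ∩ A) ≤ c * volume (Bq (δ / X) q))
    (T : Set (ℕ × ℤ)) (hT : T ⊆ G X) (U : Set ℝ) (hU : ∀ q ∈ T, Bq (1 / (8 * X)) q ⊆ U) :
    volume (⋃ q ∈ T, Bq (δ / X) q ∩ A) ≤ c * ENNReal.ofReal (8 * δ) * volume U := by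
  have hc : T.Countable := Set.to_countable T
  calc volume (⋃ q ∈ T, Bq (δ / X) q ∩ A) ≤ ∑' q : T, volume (Bq (δ / X) q ∩ A) :=
        measure_biUnion_le _ hc _
    _ ≤ ∑' q : T, c * ENNReal.ofReal (8 * δ) * volume (Bq (1 / (8 * X)) (q : ℕ × ℤ)) := by
        refine ENNReal.tsum_le_tsum fun q => ?_
        refine (hA q (hT q.2)).trans (le_of_eq ?_)
        rw [vol_cmp hX (hT q.2), mul_assoc]
    _ = c * ENNReal.ofReal (8 * δ) * ∑' q : T, volume (Bq (1 / (8 * X)) (q : ℕ × ℤ)) :=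
        ENNReal.tsum_mul_left
    _ = c * ENNReal.ofReal (8 * δ) * volume (⋃ q ∈ T, Bq (1 / (8 * X)) q) := by
        rw [measure_biUnion hc]
        · intro q hq q' hq' hne
          exact disj hX (hT hq) (hT hq') hne
        · intro q hq
          exact meas_Bq (hT hq).1
    _ ≤ c * ENNReal.ofReal (8 * δ) * volume U := by
        gcongr
        exact Set.iUnion₂_subset hU

lemma of_not_nice' {D₀ L₀ i : ℕ} {α : ℝ} (h : α ∈ NN D₀ L₀ i) :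
    ∃ q ∈ G ((L₀ : ℝ) ^ i), α ∈ Bq (1 / (D₀ : ℝ) / (L₀ : ℝ) ^ i) q := by
  rw [div_div]; exact of_not_nice h

lemma big {X Y δ : ℝ} (hX : 0 < X) (hδ : 0 < δ) (hδ1 : δ ≤ 1 / 8) (hXY : X ≤ δ * Y)
    {q q' : ℕ × ℤ} (hq : q ∈ G X) (hq' : q' ∈ G Y) (hne : q' ≠ q) {β : ℝ}
    (h1 : β ∈ Bq (δ / Y) q') (h2 : β ∈ Bq (δ / X) q) : X < 2 * δ * q'.1 := by
  have hY : 0 < Y := by
    by_contra hc
    have : δ * Y ≤ 0 := mul_nonpos_of_nonneg_of_nonpos hδ.le (not_lt.1 hc)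
    linarith
  obtain ⟨a1, a2, a3⟩ := hq
  obtain ⟨b1, b2, b3⟩ := hq'
  have ha : (0 : ℝ) < q.1 := by exact_mod_cast a1
  have hb : (0 : ℝ) < q'.1 := by exact_mod_cast b1
  have h5 := cross_one b1 a1 b3 a3 hne
  simp only [Bq, mem_ofPred_eq] at h1 h2
  have e : (q'.2 : ℝ) * q.1 - q.2 * q'.1 =
      ((q.1 : ℝ) * β - q.2) * q'.1 - ((q'.1 : ℝ) * β - q'.2) * q.1 := by ring
  rw [e] at h5
  have h6 : |((q.1 : ℝ) * β - q.2) * q'.1 - ((q'.1 : ℝ) * β - q'.2) * q.1| ≤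
      |(q.1 : ℝ) * β - q.2| * q'.1 + |(q'.1 : ℝ) * β - q'.2| * q.1 := by
    refine (abs_sub _ _).trans (le_of_eq ?_)
    rw [abs_mul, abs_mul, abs_of_pos ha, abs_of_pos hb]
  have h7 : |(q.1 : ℝ) * β - q.2| * q'.1 < δ / X * q'.1 := mul_lt_mul_of_pos_right h2 hb
  have h8 : |(q'.1 : ℝ) * β - q'.2| * q.1 < δ / Y * (4 * X) :=
    (mul_lt_mul_of_pos_right h1 ha).trans_le (mul_le_mul_of_nonneg_left a2 (by positivity))
  have h9 : δ / Y * (4 * X) ≤ 1 / 2 := by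
    have h10 : δ / Y * (4 * X) ≤ δ / Y * (4 * (δ * Y)) := by gcongr
    have h11 : δ / Y * (4 * (δ * Y)) = 4 * δ ^ 2 := by field_simp
    have h12 : 4 * δ ^ 2 ≤ 1 / 2 := by nlinarith
    linarith
  have h10 : 1 / 2 < δ / X * q'.1 := by linarith
  have h11 : δ / X * q'.1 = δ * q'.1 / X := by ring
  rw [h11, lt_div_iff₀ hX] at h10
  linarith

lemma near {X Y δ : ℝ} (hX : 0 < X) (hδ : 0 < δ) (hδ1 : δ ≤ 1 / 8) (hXY : X ≤ δ * Y)
    {q q' : ℕ × ℤ} (hq : q ∈ G X) (hq' : q' ∈ G Y) (hne : q' ≠ q) {β : ℝ}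
    (h1 : β ∈ Bq (δ / Y) q') (h2 : β ∈ Bq (δ / X) q) : Bq (1 / (8 * Y)) q' ⊆ Bq (3 * (δ / X)) q := by
  have hbig := big hX hδ hδ1 hXY hq hq' hne h1 h2
  have hY : 0 < Y := by
    by_contra hc
    have : δ * Y ≤ 0 := mul_nonpos_of_nonneg_of_nonpos hδ.le (not_lt.1 hc)
    linarith
  have hXY' : X ≤ Y := hXY.trans (by nlinarith)
  obtain ⟨a1, a2, a3⟩ := hq
  obtain ⟨b1, b2, b3⟩ := hq'
  have ha : (0 : ℝ) < q.1 := by exact_mod_cast a1
  have hb : (0 : ℝ) < q'.1 := by exact_mod_cast b1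
  intro α hα
  simp only [Bq, mem_ofPred_eq] at h1 h2 hα ⊢
  have e1 : (q'.1 : ℝ) * |α - β| < 1 / (8 * Y) + δ / Y := by
    have e2 : (q'.1 : ℝ) * |α - β| = |((q'.1 : ℝ) * α - q'.2) - ((q'.1 : ℝ) * β - q'.2)| := by
      rw [show ((q'.1 : ℝ) * α - q'.2) - ((q'.1 : ℝ) * β - q'.2) = q'.1 * (α - β) by ring, abs_mul,
        abs_of_pos hb]
    rw [e2]
    exact (abs_sub _ _).trans_lt (add_lt_add hα h1)
  have e3 : 1 / (8 * Y) + δ / Y ≤ 1 / (4 * Y) := by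
    have : δ / Y ≤ 1 / 8 / Y := by gcongr
    have e4 : 1 / (8 * Y) + 1 / 8 / Y = 1 / (4 * Y) := by field_simp; norm_num
    linarith
  have e5 : (q.1 : ℝ) * |α - β| ≤ 2 * (δ / X) := by
    have e6 : (q'.1 : ℝ) * |α - β| ≤ 1 / (4 * Y) := (e1.trans_le e3).le
    have e7 : |α - β| ≤ 1 / (4 * Y * q'.1) := by
      rw [le_div_iff₀ (by positivity)]
      have := mul_le_mul_of_nonneg_right e6 (by positivity : (0 : ℝ) ≤ 4 * Y)
      have e8 : 1 / (4 * Y) * (4 * Y) = 1 := by field_simp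
      rw [e8] at this
      linarith
    have e9 : (q.1 : ℝ) * |α - β| ≤ 4 * X * (1 / (4 * Y * q'.1)) := by gcongr
    refine e9.trans ?_
    rw [show 4 * X * (1 / (4 * Y * q'.1)) = X / (Y * q'.1) by field_simp,
      show 2 * (δ / X) = 2 * δ / X by ring, div_le_div_iff₀ (by positivity) hX]
    nlinarith [mul_le_mul_of_nonneg_left hXY' hX.le, mul_lt_mul_of_pos_left hbig hY]
  have e10 : (q.1 : ℝ) * α - q.2 = q.1 * (α - β) + ((q.1 : ℝ) * β - q.2) := by ring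
  rw [e10]
  have e11 : |(q.1 : ℝ) * (α - β) + ((q.1 : ℝ) * β - q.2)| ≤ q.1 * |α - β| + |(q.1 : ℝ) * β - q.2| := by
    refine (abs_add_le _ _).trans (le_of_eq ?_)
    rw [abs_mul, abs_of_pos ha]
  linarith

variable {D₀ L₀ : ℕ}

lemma main (hD : 12800 ≤ D₀) (hL : D₀ ≤ L₀) (S : Finset ℕ) : ∀ i : ℕ, (∀ x ∈ S, i < x) →
    ∀ q ∈ G ((L₀ : ℝ) ^ i), volume (Bq (1 / (D₀ : ℝ) / (L₀ : ℝ) ^ i) q ∩ ⋂ k ∈ S, NN D₀ L₀ k) ≤
      (ENNReal.ofReal (25 * (1 / (D₀ : ℝ)))) ^ S.card *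
        volume (Bq (1 / (D₀ : ℝ) / (L₀ : ℝ) ^ i) q) := by
  have hDR : (12800 : ℝ) ≤ D₀ := by exact_mod_cast hD
  have hLR : (D₀ : ℝ) ≤ L₀ := by exact_mod_cast hL
  set δ : ℝ := 1 / (D₀ : ℝ) with hδdef
  have hδ : 0 < δ := by positivity
  have hδ1 : δ ≤ 1 / 8 := by
    rw [hδdef]
    exact one_div_le_one_div_of_le (by norm_num) (by linarith)
  induction S using Finset.induction_on_min with
  | empty => intro i _ q _; simp
  | insert k S' hk ih =>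
    intro i hi q hq
    have hik : i < k := hi k (Finset.mem_insert_self _ _)
    have hkS : k ∉ S' := fun h => lt_irrefl _ (hk k h)
    have hL0 : (0 : ℝ) < L₀ := by linarith
    have hX : (0 : ℝ) < (L₀ : ℝ) ^ i := pow_pos hL0 i
    have hY : (0 : ℝ) < (L₀ : ℝ) ^ k := pow_pos hL0 k
    have hXY : (L₀ : ℝ) ^ i ≤ δ * (L₀ : ℝ) ^ k := by
      have h1 : (L₀ : ℝ) ^ (i + 1) ≤ (L₀ : ℝ) ^ k := pow_le_pow_right₀ (by linarith) hik
      have h2 : δ * ((L₀ : ℝ) ^ i * L₀) ≤ δ * (L₀ : ℝ) ^ k := by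
        rw [← pow_succ]; gcongr
      refine le_trans ?_ h2
      have h3 : (1 : ℝ) ≤ δ * L₀ := by
        rw [hδdef, one_div, inv_mul_eq_div, le_div_iff₀ (by linarith)]
        linarith
      nlinarith [mul_le_mul_of_nonneg_left h3 hX.le]
    set X : ℝ := (L₀ : ℝ) ^ i with hXdef
    set Y : ℝ := (L₀ : ℝ) ^ k with hYdef
    set A : Set ℝ := ⋂ k ∈ S', NN D₀ L₀ k with hAdef
    set c : ENNReal := (ENNReal.ofReal (25 * δ)) ^ S'.card with hc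
    have hqY : q ∈ G Y := ⟨hq.1, hq.2.1.trans (by nlinarith), hq.2.2⟩
    have ihk := ih k hk
    set T : Set (ℕ × ℤ) := {q' | q' ∈ G Y ∧ q' ≠ q ∧ (Bq (δ / Y) q' ∩ Bq (δ / X) q).Nonempty} with hT
    have hU : ∀ q' ∈ T, Bq (1 / (8 * Y)) q' ⊆ Bq (3 * (δ / X)) q := by
      rintro q' ⟨h1, h2, β, h3, h4⟩
      exact near hX hδ hδ1 hXY hq h1 h2 h3 h4
    have hcov : Bq (δ / X) q ∩ ⋂ j ∈ insert k S', NN D₀ L₀ j ⊆
        (Bq (δ / Y) q ∩ A) ∪ ⋃ q' ∈ T, Bq (δ / Y) q' ∩ A := by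
      rintro α ⟨h1, h2⟩
      have h2a : α ∈ NN D₀ L₀ k := mem_iInter₂.1 h2 k (Finset.mem_insert_self _ _)
      have h2b : α ∈ A := mem_iInter₂.2 fun j hj => mem_iInter₂.1 h2 j (Finset.mem_insert_of_mem hj)
      obtain ⟨q', h3, h4⟩ := of_not_nice' h2a
      by_cases hqq : q' = q
      · left
        rw [hqq] at h4
        exact ⟨h4, h2b⟩
      · right
        simp only [mem_iUnion]
        exact ⟨q', ⟨h3, hqq, α, h4, h1⟩, h4, h2b⟩
    have hstep := step hY A c ihk T (fun q' h => h.1) (Bq (3 * (δ / X)) q) hU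
    have h0 : (0 : ℝ) < q.1 := by exact_mod_cast hq.1
    have hV1 : volume (Bq (δ / Y) q) ≤ ENNReal.ofReal δ * volume (Bq (δ / X) q) := by
      rw [vol_Bq hq.1, vol_Bq hq.1, ← ENNReal.ofReal_mul hδ.le]
      apply ENNReal.ofReal_le_ofReal
      have h5 : δ / Y ≤ δ * (δ / X) := by
        rw [show δ * (δ / X) = δ * δ / X by ring, div_le_div_iff₀ hY hX]
        nlinarith
      have h6 : δ / Y / q.1 ≤ δ * (δ / X) / q.1 := by gcongr
      calc 2 * (δ / Y / q.1) ≤ 2 * (δ * (δ / X) / q.1) := by linarith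
        _ = δ * (2 * (δ / X / q.1)) := by ring
    have hV2 : volume (Bq (3 * (δ / X)) q) = ENNReal.ofReal 3 * volume (Bq (δ / X) q) := by
      rw [vol_Bq hq.1, vol_Bq hq.1, ← ENNReal.ofReal_mul (by norm_num)]
      congr 1
      ring
    calc volume (Bq (δ / X) q ∩ ⋂ j ∈ insert k S', NN D₀ L₀ j)
        ≤ volume (Bq (δ / Y) q ∩ A) + volume (⋃ q' ∈ T, Bq (δ / Y) q' ∩ A) :=
          (measure_mono hcov).trans (measure_union_le _ _)
      _ ≤ c * (ENNReal.ofReal δ * volume (Bq (δ / X) q)) +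
          c * ENNReal.ofReal (8 * δ) * (ENNReal.ofReal 3 * volume (Bq (δ / X) q)) := by
          refine add_le_add ((ihk q hqY).trans ?_) (hstep.trans (by rw [hV2]))
          gcongr
      _ = c * ((ENNReal.ofReal δ + ENNReal.ofReal (8 * δ) * ENNReal.ofReal 3) *
            volume (Bq (δ / X) q)) := by ring
      _ = ENNReal.ofReal (25 * δ) ^ (insert k S').card * volume (Bq (δ / X) q) := by
          have e : ENNReal.ofReal δ + ENNReal.ofReal (8 * δ) * ENNReal.ofReal 3 =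
              ENNReal.ofReal (25 * δ) := by
            rw [← ENNReal.ofReal_mul (by positivity), ← ENNReal.ofReal_add hδ.le (by positivity)]
            congr 1
            ring
          rw [e, Finset.card_insert_of_notMem hkS, pow_succ, ← hc, mul_assoc]

lemma base (hD : 12800 ≤ D₀) (hL : D₀ ≤ L₀) (S : Finset ℕ) :
    volume (Icc (0 : ℝ) 1 ∩ ⋂ k ∈ S, NN D₀ L₀ k) ≤
      (ENNReal.ofReal (25 * (1 / (D₀ : ℝ)))) ^ S.card := by
  have hDR : (12800 : ℝ) ≤ D₀ := by exact_mod_cast hD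
  have hLR : (D₀ : ℝ) ≤ L₀ := by exact_mod_cast hL
  have hM := main hD hL
  set δ : ℝ := 1 / (D₀ : ℝ) with hδdef
  have hδ : 0 < δ := by positivity
  have hδ1 : δ ≤ 1 / 8 := by
    rw [hδdef]
    exact one_div_le_one_div_of_le (by norm_num) (by linarith)
  induction S using Finset.induction_on_min with
  | empty => simp
  | insert k S' hk _ =>
    have hkS : k ∉ S' := fun h => lt_irrefl _ (hk k h)
    have hY1 : (1 : ℝ) ≤ (L₀ : ℝ) ^ k := one_le_pow₀ (by linarith)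
    have ihk := hM S' k hk
    set Y : ℝ := (L₀ : ℝ) ^ k with hYdef
    have hY : 0 < Y := by linarith
    set A : Set ℝ := ⋂ k ∈ S', NN D₀ L₀ k with hAdef
    set c : ENNReal := (ENNReal.ofReal (25 * δ)) ^ S'.card with hc
    set T : Set (ℕ × ℤ) := {q' | q' ∈ G Y ∧ (Bq (δ / Y) q' ∩ Icc (0 : ℝ) 1).Nonempty} with hT
    have hU : ∀ q' ∈ T, Bq (1 / (8 * Y)) q' ⊆ Icc (-1 : ℝ) 2 := by
      rintro q' ⟨h1, β, h3, h4⟩ α hα
      have hb1 : (1 : ℝ) ≤ q'.1 := by exact_mod_cast h1.1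
      simp only [Bq, mem_ofPred_eq] at h3 hα
      have e1 : (q'.1 : ℝ) * |α - β| < 1 / (8 * Y) + δ / Y := by
        have e2 : (q'.1 : ℝ) * |α - β| = |((q'.1 : ℝ) * α - q'.2) - ((q'.1 : ℝ) * β - q'.2)| := by
          rw [show ((q'.1 : ℝ) * α - q'.2) - ((q'.1 : ℝ) * β - q'.2) = q'.1 * (α - β) by ring,
            abs_mul, abs_of_pos (lt_of_lt_of_le one_pos hb1)]
        rw [e2]
        exact (abs_sub _ _).trans_lt (add_lt_add hα h3)
      have e3 : 1 / (8 * Y) ≤ 1 / 8 := one_div_le_one_div_of_le (by norm_num) (by linarith)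
      have e4 : δ / Y ≤ 1 / 8 := (div_le_self hδ.le hY1).trans hδ1
      have e5 : |α - β| ≤ q'.1 * |α - β| := le_mul_of_one_le_left (abs_nonneg _) hb1
      have e6 := abs_lt.1 (show |α - β| < 1 by linarith)
      constructor <;> [linarith [h4.1]; linarith [h4.2]]
    have hcov : Icc (0 : ℝ) 1 ∩ ⋂ j ∈ insert k S', NN D₀ L₀ j ⊆ ⋃ q' ∈ T, Bq (δ / Y) q' ∩ A := by
      rintro α ⟨h1, h2⟩
      have h2a : α ∈ NN D₀ L₀ k := mem_iInter₂.1 h2 k (Finset.mem_insert_self _ _)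
      have h2b : α ∈ A := mem_iInter₂.2 fun j hj => mem_iInter₂.1 h2 j (Finset.mem_insert_of_mem hj)
      obtain ⟨q', h3, h4⟩ := of_not_nice' h2a
      simp only [mem_iUnion]
      exact ⟨q', ⟨h3, α, h4, h1⟩, h4, h2b⟩
    have hstep := step hY A c ihk T (fun q' h => h.1) (Icc (-1 : ℝ) 2) hU
    refine ((measure_mono hcov).trans hstep).trans ?_
    rw [Real.volume_Icc, Finset.card_insert_of_notMem hkS, pow_succ, ← hc, mul_assoc,
      ← ENNReal.ofReal_mul (by positivity)]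
    exact mul_le_mul' le_rfl (ENNReal.ofReal_le_ofReal (by linarith))

end Nice

open Nice in
theorem t_NICE : S_NICE := by
  classical
  intro L₀ hL₀ J
  have hb := base (D₀ := 10 ^ 5) (L₀ := L₀) (by norm_num) hL₀
  have hsub : {α : ℝ | α ∈ Icc (0 : ℝ) 1 ∧
      J < ((Finset.Icc 1 (8 * J)).filter (fun i => ¬ nice (10 ^ 5) L₀ i α)).card} ⊆
      ⋃ S ∈ (Finset.Icc 1 (8 * J)).powerset.filter (fun S => J < S.card),
        (Icc (0 : ℝ) 1 ∩ ⋂ k ∈ S, NN (10 ^ 5) L₀ k) := by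
    rintro α ⟨h1, h2⟩
    simp only [mem_iUnion]
    refine ⟨(Finset.Icc 1 (8 * J)).filter (fun i => ¬ nice (10 ^ 5) L₀ i α), ?_, h1, ?_⟩
    · refine Finset.mem_filter.2 ⟨Finset.mem_powerset.2 (Finset.filter_subset _ _), ?_⟩
      convert h2
    · simp only [mem_iInter]
      intro k hk
      exact (Finset.mem_filter.1 hk).2
  have h3 : ENNReal.ofReal (25 * (1 / ((10 ^ 5 : ℕ) : ℝ))) ≤ 1 := by
    rw [← ENNReal.ofReal_one]
    apply ENNReal.ofReal_le_ofReal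
    norm_num
  calc volume {α : ℝ | α ∈ Icc (0 : ℝ) 1 ∧
      J < ((Finset.Icc 1 (8 * J)).filter (fun i => ¬ nice (10 ^ 5) L₀ i α)).card}
      ≤ ∑ S ∈ (Finset.Icc 1 (8 * J)).powerset.filter (fun S => J < S.card),
        volume (Icc (0 : ℝ) 1 ∩ ⋂ k ∈ S, NN (10 ^ 5) L₀ k) :=
        (measure_mono hsub).trans (measure_biUnion_finset_le _ _)
    _ ≤ ∑ S ∈ (Finset.Icc 1 (8 * J)).powerset.filter (fun S => J < S.card),
        (ENNReal.ofReal (25 * (1 / ((10 ^ 5 : ℕ) : ℝ)))) ^ J := by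
        refine Finset.sum_le_sum fun S hS => (hb S).trans ?_
        exact pow_le_pow_right_of_le_one' h3 (Finset.mem_filter.1 hS).2.le
    _ ≤ ∑ S ∈ (Finset.Icc 1 (8 * J)).powerset,
        (ENNReal.ofReal (25 * (1 / ((10 ^ 5 : ℕ) : ℝ)))) ^ J :=
        Finset.sum_le_sum_of_subset (Finset.filter_subset _ _)
    _ = (256 : ENNReal) ^ J * (ENNReal.ofReal (25 * (1 / ((10 ^ 5 : ℕ) : ℝ)))) ^ J := by
        rw [Finset.sum_const, Finset.card_powerset, Nat.card_Icc, nsmul_eq_mul]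
        congr 1
        rw [Nat.add_sub_cancel, pow_mul]
        push_cast
        norm_num
    _ ≤ ENNReal.ofReal ((1 / 2) ^ J) := by
        rw [← mul_pow, ENNReal.ofReal_pow (by norm_num)]
        apply pow_le_pow_left'
        rw [show (256 : ENNReal) = ENNReal.ofReal 256 by norm_num, ← ENNReal.ofReal_mul (by norm_num)]
        apply ENNReal.ofReal_le_ofReal
        norm_num

end Pool.Agent.K1H30.SP
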