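import Mathlib

/-! The product lemma: sets which are thin in every cell of a lacunary sequence of scales. -/

open Set MeasureTheory

set_option autoImplicit false

namespace Pool.Agent.K1H30.SP

/-- In every cell of length `h` the set `V` is covered by at most `M` intervals of total length at
most `ρ h`. -/
def LocCov (V : Set ℝ) (h ρ : ℝ) (M : ℕ) : Prop := ∀ u : ℝ, ∃ (ι : Type) (_ : Fintype ι)
  (p q : ι → ℝ), Fintype.card ι ≤ M ∧ (∀ i, p i ≤ q i) ∧
    Icc u (u + h) ∩ V ⊆ ⋃ i, Icc (p i) (q i) ∧ ∑ i, (q i - p i) ≤ ρ * h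

theorem prodLemma {V : ℕ → Set ℝ} {h : ℕ → ℝ} {ρ L : ℝ} {M : ℕ} (hρ : 0 ≤ ρ) (hL : 0 < L)
    (S : Finset ℕ) (hV : ∀ i ∈ S, LocCov (V i) (h i) ρ M) (hpos : ∀ i ∈ S, 0 < h i)
    (hlac : ∀ i ∈ S, ∀ j ∈ S, i < j → h j ≤ h i / L) :
    ∀ H : ℝ, 0 ≤ H → (∀ i ∈ S, h i ≤ H) → ∀ u v : ℝ, u ≤ v →
      volume (Icc u v ∩ ⋂ i ∈ S, V i) ≤
        ENNReal.ofReal ((ρ + M / L) ^ S.card * ((v - u) + H)) := by
  classical
  induction S using Finset.induction_on_min with
  | empty =>
    intro H hH _ u v huv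
    simp only [Finset.notMem_empty, iInter_of_empty, iInter_univ, inter_univ, Finset.card_empty,
      pow_zero, one_mul, Real.volume_Icc]
    exact ENNReal.ofReal_le_ofReal (by linarith)
  | insert k S hk ih =>
    intro H hH hle u v huv
    have hkS : k ∉ S := fun h => lt_irrefl _ (hk k h)
    have hkp : 0 < h k := hpos k (Finset.mem_insert_self _ _)
    have ih' := ih (fun i hi => hV i (Finset.mem_insert_of_mem hi))
      (fun i hi => hpos i (Finset.mem_insert_of_mem hi))
      (fun i hi j hj => hlac i (Finset.mem_insert_of_mem hi) j (Finset.mem_insert_of_mem hj))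
      (h k / L) (by positivity)
      (fun i hi => hlac k (Finset.mem_insert_self _ _) i (Finset.mem_insert_of_mem hi) (hk i hi))
    obtain ⟨A, hA⟩ : ∃ A, A = (ρ + M / L) ^ S.card := ⟨_, rfl⟩
    rw [← hA] at ih'
    have hA0 : 0 ≤ A := by rw [hA]; positivity
    -- one cell
    have cell : ∀ a : ℝ, volume (Icc a (a + h k) ∩ ⋂ i ∈ insert k S, V i) ≤
        ENNReal.ofReal (A * ((ρ + M / L) * h k)) := by
      intro a
      obtain ⟨ι, _, p, q, hc, hpq, hcov, hlen⟩ := hV k (Finset.mem_insert_self _ _) a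
      have h1 : Icc a (a + h k) ∩ ⋂ i ∈ insert k S, V i ⊆
          ⋃ i, (Icc (p i) (q i) ∩ ⋂ i ∈ S, V i) := by
        rintro x ⟨hx1, hx2⟩
        simp only [Finset.mem_insert, iInter_iInter_eq_or_left, mem_inter_iff, mem_iInter] at hx2
        have := hcov ⟨hx1, hx2.1⟩
        rw [mem_iUnion] at this ⊢
        obtain ⟨i, hi⟩ := this
        exact ⟨i, hi, by simpa using hx2.2⟩
      refine (measure_mono h1).trans ((measure_iUnion_fintype_le _ _).trans ?_)
      refine (Finset.sum_le_sum fun i _ => ih' (p i) (q i) (hpq i)).trans ?_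
      rw [← ENNReal.ofReal_sum_of_nonneg (fun i _ => by
        have := hpq i
        have : 0 ≤ q i - p i := by linarith
        positivity)]
      apply ENNReal.ofReal_le_ofReal
      rw [← Finset.mul_sum]
      refine mul_le_mul_of_nonneg_left ?_ hA0
      rw [Finset.sum_add_distrib, Finset.sum_const, Finset.card_univ, nsmul_eq_mul]
      have hc' : (Fintype.card ι : ℝ) ≤ M := by exact_mod_cast hc
      calc ∑ i, (q i - p i) + (Fintype.card ι : ℝ) * (h k / L) ≤ ρ * h k + M * (h k / L) := by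
            gcongr
        _ = _ := by ring
    -- the cells
    obtain ⟨N, hN⟩ : ∃ N : ℕ, N = ⌊(v - u) / h k⌋₊ + 1 := ⟨_, rfl⟩
    have hN1 : (N : ℝ) ≤ (v - u) / h k + 1 := by
      rw [hN]
      push_cast
      have := Nat.floor_le (show 0 ≤ (v - u) / h k from div_nonneg (by linarith) hkp.le)
      linarith
    have hN2 : (v - u) / h k < N := by
      rw [hN]
      push_cast
      exact Nat.lt_floor_add_one _
    have hcovJ : Icc u v ∩ ⋂ i ∈ insert k S, V i ⊆
        ⋃ j ∈ Finset.range N, (Icc (u + j * h k) (u + j * h k + h k) ∩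
          ⋂ i ∈ insert k S, V i) := by
      rintro x ⟨hx1, hx2⟩
      have h0 : 0 ≤ (x - u) / h k := div_nonneg (by linarith [hx1.1]) hkp.le
      have h1 : (⌊(x - u) / h k⌋₊ : ℝ) ≤ (x - u) / h k := Nat.floor_le h0
      have h2 : (x - u) / h k < ⌊(x - u) / h k⌋₊ + 1 := Nat.lt_floor_add_one _
      rw [le_div_iff₀ hkp] at h1
      rw [div_lt_iff₀ hkp] at h2
      have h3 : ⌊(x - u) / h k⌋₊ < N := by
        have h4 : (x - u) / h k ≤ (v - u) / h k := by
          gcongr
          exact hx1.2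
        have : (⌊(x - u) / h k⌋₊ : ℝ) < N := lt_of_le_of_lt ((Nat.floor_le h0).trans h4) hN2
        exact_mod_cast this
      rw [mem_iUnion₂]
      exact ⟨_, Finset.mem_range.2 h3, ⟨by linarith, by linarith⟩, hx2⟩
    refine (measure_mono hcovJ).trans ((measure_biUnion_finset_le _ _).trans ?_)
    refine (Finset.sum_le_sum fun j _ => cell _).trans ?_
    rw [Finset.sum_const, Finset.card_range, nsmul_eq_mul, ← ENNReal.ofReal_natCast,
      ← ENNReal.ofReal_mul (Nat.cast_nonneg N)]
    apply ENNReal.ofReal_le_ofReal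
    rw [Finset.card_insert_of_notMem hkS, pow_succ, ← hA]
    have hk2 := hle k (Finset.mem_insert_self _ _)
    have h5 : (N : ℝ) * h k ≤ (v - u) + H := by
      calc (N : ℝ) * h k ≤ ((v - u) / h k + 1) * h k := by gcongr
        _ = (v - u) + h k := by field_simp
        _ ≤ _ := by linarith
    have h6 : 0 ≤ ρ + M / L := by positivity
    calc (N : ℝ) * (A * ((ρ + M / L) * h k)) = A * (ρ + M / L) * ((N : ℝ) * h k) := by ring
      _ ≤ A * (ρ + M / L) * ((v - u) + H) := by gcongr

end Pool.Agent.K1H30.SP
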