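import Pool.Agent.K1H30.SP.Count

/-! Statements of two self-contained pieces (to be proved in separate files). -/

open Set MeasureTheory

set_option autoImplicit false

namespace Pool.Agent.K1H30.SP

open scoped Classical in
/-- Piece NICE: few scales are not nice, with exponentially small exceptional set. -/
def S_NICE : Prop := ∀ L₀ : ℕ, 10 ^ 5 ≤ L₀ → ∀ J : ℕ,
  volume {α : ℝ | α ∈ Icc (0 : ℝ) 1 ∧
    J < ((Finset.Icc 1 (8 * J)).filter (fun i => ¬ nice (10 ^ 5) L₀ i α)).card} ≤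
      ENNReal.ofReal ((1 / 2) ^ J)

/-- Piece SPEC: a continuous positive definite function in `L²` is the Fourier transform of a
nonnegative integrable density. -/
def S_SPEC : Prop := ∀ γ : ℝ → ℝ, Continuous γ → (∀ t, γ (-t) = γ t) →
  (∀ (n : ℕ) (t a : Fin n → ℝ), 0 ≤ ∑ i, ∑ j, a i * a j * γ (t i - t j)) →
  Integrable (fun t => γ t ^ 2) →
  ∃ h : ℝ → ℝ, (∀ x, 0 ≤ h x) ∧ Integrable h ∧
    ∀ t : ℝ, ((γ t : ℝ) : ℂ) = ∫ x : ℝ, ((h x : ℝ) : ℂ) * Complex.exp (Complex.I * t * x)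

end Pool.Agent.K1H30.SP
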