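import Pool.Agent.K1H30.SP.AE

/-! Summability of the squared averages. -/

open Set MeasureTheory

set_option autoImplicit false

namespace Pool.Agent.K1H30.SP

/-- conditions on all parameters, summability -/
structure Par3 (D₀ L₀ N : ℕ) (c κ : ℝ) : Prop extends Par2 D₀ L₀ c κ where
  q1 : 2 ^ 32 * κ ^ 12 * (L₀ : ℝ) ^ 10 ≤ 1
  q2 : (1 - c / 36) ^ (2 * N) * (L₀ : ℝ) ^ 10 ≤ 1
  L2 : 2 ≤ L₀
  N2 : Even N

variable {D₀ L₀ N : ℕ} {c κ : ℝ}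

/-- the good set of slopes -/
def GJ (D₀ L₀ J₀ : ℕ) : Set ℝ := {α | ∀ J, J₀ ≤ J → α ∉ BJ D₀ L₀ J}

theorem GJ_meas (D₀ L₀ J₀ : ℕ) : MeasurableSet (GJ D₀ L₀ J₀) := by
  have : GJ D₀ L₀ J₀ = ⋂ J : ℕ, ⋂ (_ : J₀ ≤ J), (BJ D₀ L₀ J)ᶜ := by
    ext α
    simp [GJ]
  rw [this]
  exact MeasurableSet.iInter fun J => MeasurableSet.iInter fun _ => (BJ_meas D₀ L₀ J).compl

/-- the law of the pair (branch points, slope) -/
noncomputable def mJ (D₀ L₀ N J₀ : ℕ) : Measure ((Fin N → ℝ) × ℝ) :=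
  (UN N).prod (U.restrict (GJ D₀ L₀ J₀))

instance (D₀ L₀ N J₀ : ℕ) : IsFiniteMeasure (mJ D₀ L₀ N J₀) := by unfold mJ; infer_instance

theorem E_eq (hN : Even N) (J₀ n : ℕ) : ∫⁻ ω, gg ω n ∂(mJ D₀ L₀ N J₀) =
    ∫⁻ α in GJ D₀ L₀ J₀, ∫⁻ w, ENNReal.ofReal (|P w α n| ^ N) ∂U ∂U := by
  unfold mJ
  rw [lintegral_prod_symm _ (gg_meas_n n).aemeasurable]
  refine lintegral_congr fun α => ?_
  rw [← avg hN]
  simp only [gg_eq]

theorem E_le (h : Par3 D₀ L₀ N c κ) {J₀ n J : ℕ} (hJ : J₀ ≤ J)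
    (hn : 2 * (D₀ * L₀ ^ (8 * J)) ≤ n) : ∫⁻ ω, gg ω n ∂(mJ D₀ L₀ N J₀) ≤
      ENNReal.ofReal (2 ^ (16 * J) * (4 * κ ^ (6 * J)) + (2 * (1 - c / 36) ^ J) ^ N) := by
  rw [E_eq h.N2]
  refine le_trans ?_ (main_est h.toPar2 N n J hn)
  exact lintegral_mono_set fun α hα => hα J hJ

theorem E_le_one (hN : Even N) (J₀ n : ℕ) : ∫⁻ ω, gg ω n ∂(mJ D₀ L₀ N J₀) ≤ 1 := by
  rw [E_eq hN]
  refine (setLIntegral_le_lintegral _ _).trans ?_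
  have h1 : ∀ α : ℝ, ∫⁻ w, ENNReal.ofReal (|P w α n| ^ N) ∂U ≤ 1 := by
    intro α
    refine (lintegral_mono fun w => ?_).trans (le_of_eq (lintegral_one.trans measure_univ))
    rw [← ENNReal.ofReal_one]
    exact ENNReal.ofReal_le_ofReal (pow_le_one₀ (abs_nonneg _) (P_le w α n))
  exact (lintegral_mono h1).trans (le_of_eq (lintegral_one.trans measure_univ))

theorem EJ_sq (h : Par3 D₀ L₀ N c κ) (J : ℕ) :
    (2 ^ (16 * J) * (4 * κ ^ (6 * J)) + (2 * (1 - c / 36) ^ J) ^ N) ^ 2 * ((L₀ : ℝ) ^ 10) ^ J ≤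
      2 * (16 + 4 ^ N) := by
  have hκ := h.toPar2.κ0
  have hc := h.pars.c0
  have hcle : c ≤ 1 / 8 := h.pars.cδ.trans h.pars.δ1
  have h0 : 0 ≤ 1 - c / 36 := by linarith
  have hL : (0 : ℝ) ≤ L₀ := Nat.cast_nonneg _
  have h1 : ∀ a b : ℝ, (a + b) ^ 2 ≤ 2 * (a ^ 2 + b ^ 2) := fun a b => by nlinarith [sq_nonneg (a - b)]
  refine (mul_le_mul_of_nonneg_right (h1 _ _) (by positivity)).trans ?_
  have e1 : (2 ^ (16 * J) * (4 * κ ^ (6 * J))) ^ 2 * ((L₀ : ℝ) ^ 10) ^ J =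
      16 * (2 ^ 32 * κ ^ 12 * (L₀ : ℝ) ^ 10) ^ J := by
    rw [mul_pow, mul_pow, mul_pow, mul_pow, ← pow_mul, ← pow_mul, ← pow_mul, ← pow_mul, ← pow_mul]
    rw [show 16 * J * 2 = 32 * J by ring, show 6 * J * 2 = 12 * J by ring]
    ring
  have e2 : ((2 * (1 - c / 36) ^ J) ^ N) ^ 2 * ((L₀ : ℝ) ^ 10) ^ J =
      4 ^ N * ((1 - c / 36) ^ (2 * N) * (L₀ : ℝ) ^ 10) ^ J := by
    have e3 : ((2 * (1 - c / 36) ^ J) ^ N) ^ 2 = 4 ^ N * ((1 - c / 36) ^ (2 * N)) ^ J := by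
      calc ((2 * (1 - c / 36) ^ J) ^ N) ^ 2 = ((2 * (1 - c / 36) ^ J) ^ 2) ^ N :=
            pow_right_comm _ _ _
        _ = (4 * (1 - c / 36) ^ (2 * J)) ^ N := by
            rw [mul_pow, ← pow_mul, mul_comm J 2]
            norm_num
        _ = _ := by
            rw [mul_pow, ← pow_mul, ← pow_mul]
            congr 2
            ring
    rw [e3, mul_pow]
    ring
  have e3 : (2 ^ 32 * κ ^ 12 * (L₀ : ℝ) ^ 10) ^ J ≤ 1 := pow_le_one₀ (by positivity) h.q1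
  have e4 : ((1 - c / 36) ^ (2 * N) * (L₀ : ℝ) ^ 10) ^ J ≤ 1 := pow_le_one₀ (by positivity) h.q2
  have e5 : (0 : ℝ) ≤ 4 ^ N := by positivity
  calc 2 * ((2 ^ (16 * J) * (4 * κ ^ (6 * J))) ^ 2 + ((2 * (1 - c / 36) ^ J) ^ N) ^ 2) *
        ((L₀ : ℝ) ^ 10) ^ J
      = 2 * ((2 ^ (16 * J) * (4 * κ ^ (6 * J))) ^ 2 * ((L₀ : ℝ) ^ 10) ^ J +
          ((2 * (1 - c / 36) ^ J) ^ N) ^ 2 * ((L₀ : ℝ) ^ 10) ^ J) := by ring
    _ ≤ 2 * (16 + 4 ^ N) := by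
        rw [e1, e2]
        have e6 := mul_le_mul_of_nonneg_left e4 e5
        have e7 := mul_le_mul_of_nonneg_left e3 (by norm_num : (0 : ℝ) ≤ 16)
        rw [mul_one] at e6 e7
        exact mul_le_mul_of_nonneg_left (add_le_add e7 e6) (by norm_num)

theorem E_sum (h : Par3 D₀ L₀ N c κ) (J₀ : ℕ) :
    ∑' n, (∫⁻ ω, gg ω n ∂(mJ D₀ L₀ N J₀)) ^ 2 ≠ ⊤ := by
  obtain ⟨n₀, hn₀⟩ : ∃ n₀, n₀ = 2 * (D₀ * L₀ ^ (8 * J₀)) := ⟨_, rfl⟩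
  have hL2 : (2 : ℝ) ≤ L₀ := by exact_mod_cast h.L2
  have hL0 : (0 : ℝ) < L₀ := by linarith
  have hD0 : (8 : ℝ) ≤ D₀ := by exact_mod_cast h.D8
  obtain ⟨Q, hQ⟩ : ∃ Q : ℝ, Q = 2 * D₀ * (L₀ : ℝ) ^ 8 := ⟨_, rfl⟩
  have hQ0 : 0 < Q := by rw [hQ]; positivity
  obtain ⟨K, hK⟩ : ∃ K : ℝ, K = 2 * (16 + 4 ^ N) * Q ^ (5 / 4 : ℝ) := ⟨_, rfl⟩
  have hK0 : 0 ≤ K := by rw [hK]; positivity
  -- the tail
  have htail : ∀ n : ℕ, n₀ ≤ n → (∫⁻ ω, gg ω n ∂(mJ D₀ L₀ N J₀)) ^ 2 ≤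
      ENNReal.ofReal (K * (1 / (n : ℝ) ^ (5 / 4 : ℝ))) := by
    intro n hn
    have hn1 : (2 * (D₀ * (L₀ : ℝ) ^ (8 * J₀))) ≤ n := by
      rw [hn₀] at hn
      exact_mod_cast hn
    have hx : (L₀ : ℝ) ^ (8 * J₀) ≤ n / (2 * D₀) := by
      rw [le_div_iff₀ (by positivity)]
      linarith
    have hx1 : (1 : ℝ) ≤ (L₀ : ℝ) ^ (8 * J₀) := one_le_pow₀ (by linarith)
    have hM1 : (1 : ℝ) < (L₀ : ℝ) ^ 8 := one_lt_pow₀ (by linarith) (by norm_num)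
    obtain ⟨J, hJ1, hJ2⟩ := exists_nat_pow_near (hx1.trans hx) hM1
    have hJJ : J₀ ≤ J := by
      have h2 : ((L₀ : ℝ) ^ 8) ^ J₀ < ((L₀ : ℝ) ^ 8) ^ (J + 1) := by
        rw [← pow_mul]
        exact hx.trans_lt hJ2
      have := (pow_lt_pow_iff_right₀ hM1).mp h2
      omega
    have hnJ : 2 * (D₀ * L₀ ^ (8 * J)) ≤ n := by
      have h2 : (2 * (D₀ * (L₀ : ℝ) ^ (8 * J))) ≤ n := by
        rw [le_div_iff₀ (by positivity)] at hJ1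
        rw [pow_mul]
        linarith
      exact_mod_cast h2
    have h3 := E_le h hJJ hnJ
    have h4 := EJ_sq h J
    obtain ⟨e, he⟩ : ∃ e : ℝ, e = 2 ^ (16 * J) * (4 * κ ^ (6 * J)) + (2 * (1 - c / 36) ^ J) ^ N :=
      ⟨_, rfl⟩
    rw [← he] at h3 h4
    have he0 : 0 ≤ e := by
      have hκ := h.toPar2.κ0
      have hcle : c ≤ 1 / 8 := h.pars.cδ.trans h.pars.δ1
      have h0 : 0 ≤ 1 - c / 36 := by linarith
      rw [he]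
      positivity
    refine (pow_le_pow_left₀ zero_le h3 2).trans ?_
    rw [← ENNReal.ofReal_pow he0]
    refine ENNReal.ofReal_le_ofReal ?_
    have hn0 : (0 : ℝ) < n := by
      have : (0 : ℝ) < 2 * (D₀ * (L₀ : ℝ) ^ (8 * J₀)) := by positivity
      linarith
    have h5 : (n : ℝ) ≤ Q * ((L₀ : ℝ) ^ 8) ^ J := by
      rw [div_lt_iff₀ (by positivity)] at hJ2
      rw [hQ]
      rw [pow_succ] at hJ2
      nlinarith
    have h6 : (n : ℝ) ^ (5 / 4 : ℝ) ≤ Q ^ (5 / 4 : ℝ) * ((L₀ : ℝ) ^ 10) ^ J := by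
      refine (Real.rpow_le_rpow hn0.le h5 (by norm_num)).trans (le_of_eq ?_)
      rw [Real.mul_rpow hQ0.le (by positivity)]
      congr 1
      rw [← pow_mul, ← pow_mul, ← Real.rpow_natCast, ← Real.rpow_mul hL0.le, ← Real.rpow_natCast]
      congr 1
      push_cast
      ring
    rw [mul_one_div, le_div_iff₀ (by positivity), hK]
    have h7 : 0 ≤ e ^ 2 := by positivity
    have h8 : 0 ≤ Q ^ (5 / 4 : ℝ) := by positivity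
    calc e ^ 2 * (n : ℝ) ^ (5 / 4 : ℝ) ≤ e ^ 2 * (Q ^ (5 / 4 : ℝ) * ((L₀ : ℝ) ^ 10) ^ J) :=
          mul_le_mul_of_nonneg_left h6 h7
      _ = (e ^ 2 * ((L₀ : ℝ) ^ 10) ^ J) * Q ^ (5 / 4 : ℝ) := by ring
      _ ≤ _ := mul_le_mul_of_nonneg_right h4 h8
  -- all terms
  obtain ⟨F, hF⟩ : ∃ F : ℕ → ℝ, F = fun n => (if n < n₀ then 1 else 0) +
    K * (1 / (n : ℝ) ^ (5 / 4 : ℝ)) := ⟨_, rfl⟩
  have hF0 : ∀ n, 0 ≤ F n := fun n => by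
    rw [hF]
    have : (0 : ℝ) ≤ (if n < n₀ then 1 else 0) := by split_ifs <;> norm_num
    have h2 : 0 ≤ K * (1 / (n : ℝ) ^ (5 / 4 : ℝ)) := by positivity
    simp only
    linarith
  have hFs : Summable F := by
    rw [hF]
    refine Summable.add ?_ ((Real.summable_one_div_nat_rpow.mpr (by norm_num)).mul_left K)
    refine summable_of_ne_finset_zero (s := Finset.range n₀) fun b hb => ?_
    rw [Finset.mem_range] at hb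
    simp [hb]
  have hle : ∀ n, (∫⁻ ω, gg ω n ∂(mJ D₀ L₀ N J₀)) ^ 2 ≤ ENNReal.ofReal (F n) := by
    intro n
    by_cases hn : n < n₀
    · have h1 : (∫⁻ ω, gg ω n ∂(mJ D₀ L₀ N J₀)) ^ 2 ≤ 1 :=
        pow_le_one₀ zero_le (E_le_one h.N2 J₀ n)
      refine h1.trans ?_
      rw [← ENNReal.ofReal_one, hF]
      refine ENNReal.ofReal_le_ofReal ?_
      have h2 : 0 ≤ K * (1 / (n : ℝ) ^ (5 / 4 : ℝ)) := by positivity
      simp only [hn, if_true]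
      linarith
    · refine (htail n (not_lt.mp hn)).trans (ENNReal.ofReal_le_ofReal ?_)
      rw [hF]
      simp [hn]
  refine ne_top_of_le_ne_top ?_ (ENNReal.tsum_le_tsum hle)
  rw [← ENNReal.ofReal_tsum_of_nonneg hF0 hFs]
  exact ENNReal.ofReal_ne_top

end Pool.Agent.K1H30.SP
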